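import Pool.Agent.FTA.DefsC
import Pool.Agent.PP5.Defs

/-! # PP5F/Exd: the exceptional classes (definitions) -/

set_option autoImplicit false

namespace Pool.Agent.PP5F

open NumberField Pool.Agent.FTA Pool.Agent.FTB Pool.Agent.PP5 nonZeroDivisors

/-- `t ^ 2 + D y ^ 2 = 4 N ^ 5`, `M1 ≤ N < 2 M1`, with a large common divisor: `N = k0 r`,
`r ^ 2 ∣ t, y`, `k0 ^ 2 < 2 M2`, `k0 ^ 4 ≤ D` -/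
def Ea (D : ℕ) (M1 M2 : ℝ) (a : ℕ × ℤ × ℤ) : Prop :=
  SolP 5 D a.1 a.2.1 a.2.2 ∧ M1 ≤ (a.1 : ℝ) ∧ (a.1 : ℝ) < 2 * M1 ∧
    ∃ k0 r : ℕ, a.1 = k0 * r ∧ (r : ℤ) ^ 2 ∣ a.2.1 ∧ (r : ℤ) ^ 2 ∣ a.2.2 ∧
      (k0 : ℝ) ^ 2 < 2 * M2 ∧ k0 ^ 4 ≤ D

/-- `t ^ 2 + D y ^ 2 = 4 N ^ 5`, `M ≤ N < 2 M`, `N` a perfect square -/
def Sb (D : ℕ) (M : ℝ) (a : ℕ × ℤ × ℤ) : Prop :=
  SolP 5 D a.1 a.2.1 a.2.2 ∧ IsSquare a.1 ∧ M ≤ (a.1 : ℝ) ∧ (a.1 : ℝ) < 2 * M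

end Pool.Agent.PP5F
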