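import Pool.Agent.FTB.DaI
import Pool.Agent.FTB.SqI
import Pool.Agent.PP5F.Exd

/-!
# PP5F/Cle: the data attached to a class of order dividing 5, with the exceptional cases

PROOF of `cle`.  Copy the proof of `clD` (Pool/Agent/FTB/ClD.lean) up to the point where
`hc : 0 < c` and `hv : 0 < v` are proved.  If `c = 0` prove the second alternative, if `v = 0`
the third; otherwise the rest of the proof of `clD` gives the first.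

`c = 0`.  `b ^ 2 = 4 N ^ 2 k`, so `k = k0 ^ 2` (`ClD_sq`, private; copy it) and `b = ± 2 N k0`, so
`β = ± N k0` (`2 β = b`, from `Co K β b 0`; characteristic zero).  So `I ^ 2 J1 = (β) = (N) (k0) =
I I1 (k0)`, and cancelling `I` (`mul_left_cancel₀`, `I ≠ 0`) `I J1 = (k0) I1`.  Multiply by
`I1`: `(N) J1 = (k0) I1 ^ 2`.  `k0 ∣ N`: let `g = gcd N k0`, `N = g N'`, `k0 = g k'`, `N', k'`
coprime; cancelling `(g)`: `(N') J1 = (k') I1 ^ 2 ≤ (k')`; with `x N' + y k' = 1` every `z ∈ J1` is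
`x N' z + y k' z ∈ (k')`, so `J1 ≤ span {k'}`, and `pJ1` (`prm2`) gives `k' < 2`, `k' = 1` (`k0 ≥ 1`
as `k ≥ 1`).  Now `N = k0 r`.  `k ^ 2 α = β ^ 2 γ` (from `e1`, `e3`) `= N ^ 2 k0 ^ 2 γ = N ^ 2 k γ`, so
`k α = N ^ 2 γ`, `k0 ^ 2 α = k0 ^ 2 r ^ 2 γ`, `α = r ^ 2 γ`: `I ^ 5 = span {α} ≤ span {r ^ 2}`.

`v = 0`.  `κ ^ 2 = 4 k ^ 2 N`, `N = n0 ^ 2`, `γ = ± k n0`.  `J ^ 2 I = (k) (n0) = J J1 (n0)`, so
`J I = (n0) J1`; multiply by `J1`: `(k) I = (n0) J1 ^ 2`; as before (with `pI`, `prm1`) `n0 ∣ k`,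
`k = n0 r`.  `N ^ 2 α2 = βc γ ^ 2 = βc k ^ 2 n0 ^ 2 = N k ^ 2 βc` (from `e2`, `e4`), so
`n0 ^ 2 α2 = k ^ 2 βc = n0 ^ 2 r ^ 2 βc`, `α2 = r ^ 2 βc`, `J ^ 5 = span {α2} ≤ span {r ^ 2}`.
-/

set_option autoImplicit false

namespace Pool.Agent.PP5F

open NumberField Pool.Agent.FTA Pool.Agent.FTB nonZeroDivisors

private theorem prd (K : IntermediateField ℚ ℂ) [NumberField K] (P : Ideal (𝓞 K))
    (hP : ∀ j : ℕ, 2 ≤ j → ¬ P ≤ Ideal.span {(j : 𝓞 K)}) (n m : ℕ) (hm : 1 ≤ m)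
    (h : Ideal.span {(n : 𝓞 K)} * P ≤ Ideal.span {(m : 𝓞 K)}) : m ∣ n := by
  have hg : 0 < Nat.gcd n m := Nat.gcd_pos_of_pos_right _ (by omega)
  obtain ⟨n', hn'⟩ := Nat.gcd_dvd_left n m
  obtain ⟨m', hm'⟩ := Nat.gcd_dvd_right n m
  have hcop : Nat.Coprime m' n' := by
    have h1 := Nat.coprime_div_gcd_div_gcd (m := n) (n := m) hg
    have e1 : n / Nat.gcd n m = n' := Nat.div_eq_of_eq_mul_right hg hn'
    have e2 : m / Nat.gcd n m = m' := Nat.div_eq_of_eq_mul_right hg hm'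
    rw [e1, e2] at h1
    exact h1.symm
  generalize Nat.gcd n m = g at *
  have hg0 : (g : 𝓞 K) ≠ 0 := by
    rw [Ne, Nat.cast_eq_zero]
    omega
  have hle : P ≤ Ideal.span {(m' : 𝓞 K)} := by
    intro z hz
    have h1 : (n : 𝓞 K) * z ∈ Ideal.span {(m : 𝓞 K)} :=
      h (Ideal.mul_mem_mul (Ideal.mem_span_singleton_self _) hz)
    rw [Ideal.mem_span_singleton] at h1 ⊢
    rw [hn', hm'] at h1
    push_cast at h1
    rw [mul_assoc] at h1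
    have h2 : (m' : 𝓞 K) ∣ (n' : 𝓞 K) * z := (mul_dvd_mul_iff_left hg0).1 h1
    have h3 : IsCoprime (m' : 𝓞 K) (n' : 𝓞 K) := by
      have h4 := (Nat.isCoprime_iff_coprime.2 hcop).map (Int.castRingHom (𝓞 K))
      simpa using h4
    exact h3.dvd_of_dvd_mul_left h2
  have hm1 : m' < 2 := by
    by_contra hcon
    exact hP m' (by omega) hle
  have hm2 : m' ≠ 0 := by
    rintro rfl
    omega
  have hm3 : m' = 1 := by omega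
  rw [hm3, mul_one] at hm'
  rw [hm', hn']
  exact Dvd.intro _ rfl

private theorem sqg (K : IntermediateField ℚ ℂ) [NumberField K] (N k : ℕ) (hN : 1 ≤ N)
    (β : 𝓞 K) (b : ℤ) (cβ : Co K β b 0) (h : b ^ 2 = 4 * (N : ℤ) ^ 2 * k) :
    ∃ k0 : ℕ, k = k0 ^ 2 ∧ β * β = (N : 𝓞 K) * (N : 𝓞 K) * (k : 𝓞 K) ∧
      Ideal.span {β} = Ideal.span {(N : 𝓞 K)} * Ideal.span {(k0 : 𝓞 K)} := by
  have hd : (2 * (N : ℤ)) ^ 2 ∣ b ^ 2 := ⟨(k : ℤ), by rw [h]; ring⟩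
  have hd2 : (2 * (N : ℤ)) ∣ b := (Int.pow_dvd_pow_iff (by norm_num)).1 hd
  obtain ⟨m, hm⟩ := hd2
  have hN0 : (N : ℤ) ≠ 0 := by positivity
  have hk : (k : ℤ) = m ^ 2 := by
    have h3 : (4 * (N : ℤ) ^ 2) * (k : ℤ) = (4 * (N : ℤ) ^ 2) * m ^ 2 := by
      rw [← h, hm]; ring
    exact mul_left_cancel₀ (by positivity) h3
  have hβ : β = (N : 𝓞 K) * ((m : ℤ) : 𝓞 K) := by
    apply co_inj K β _ b 0 cβ
    have hc : ((((N : 𝓞 K) * ((m : ℤ) : 𝓞 K) : 𝓞 K) : K) : ℂ) = (N : ℂ) * (m : ℂ) := by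
      simp
    unfold Co
    rw [hc, hm]
    push_cast
    ring
  refine ⟨m.natAbs, ?_, ?_, ?_⟩
  · have : ((m.natAbs ^ 2 : ℕ) : ℤ) = m ^ 2 := by
      push_cast
      exact sq_abs m
    have h4 : (k : ℤ) = ((m.natAbs ^ 2 : ℕ) : ℤ) := by rw [this, hk]
    exact_mod_cast h4
  · have h5 : (k : 𝓞 K) = ((m : ℤ) : 𝓞 K) ^ 2 := by
      have h6 : ((k : ℤ) : 𝓞 K) = ((m ^ 2 : ℤ) : 𝓞 K) := by rw [hk]
      push_cast at h6
      exact h6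
    rw [hβ, h5]
    ring
  · rw [hβ, ← Ideal.span_singleton_mul_span_singleton]
    congr 1
    rcases Int.natAbs_eq m with h6 | h6
    · have h7 : ((m : ℤ) : 𝓞 K) = ((m.natAbs : ℕ) : 𝓞 K) := by
        conv_lhs => rw [h6]
        rw [Int.cast_natCast]
      rw [h7]
    · have h7 : ((m : ℤ) : 𝓞 K) = -((m.natAbs : ℕ) : 𝓞 K) := by
        conv_lhs => rw [h6]
        rw [Int.cast_neg, Int.cast_natCast]
      rw [h7, Ideal.span_singleton_neg]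

theorem cle (K : IntermediateField ℚ ℂ) [NumberField K] (h2 : Module.finrank ℚ K = 2)
    (him : ∃ x : K, (x : ℂ).im ≠ 0) (A : ClassGroup (𝓞 K)) (hA : A ^ 5 = 1)
    (I J : (Ideal (𝓞 K))⁰) (hI : ClassGroup.mk0 I = A) (hJ : ClassGroup.mk0 J = A ^ 2)
    (mI : MinI K I) (mJ : MinI K J)
    (hID : (Ideal.absNorm (I : Ideal (𝓞 K))) ^ 2 ≤ aD K)
    (hJD : (Ideal.absNorm (J : Ideal (𝓞 K))) ^ 2 ≤ aD K) :
    (∃ (G : ℕ) (q : Pt), Dat (aD K) G q ∧ q.1 = Ideal.absNorm (I : Ideal (𝓞 K)) ∧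
      q.2.1 = Ideal.absNorm (J : Ideal (𝓞 K)) ∧
      ∃ (β γ δ1 α : 𝓞 K) (b κ : ℤ), Co K β b ((G : ℤ) * q.2.2.1) ∧
        Co K γ κ ((G : ℤ) * q.2.2.2.1) ∧ (q.2.1 : 𝓞 K) * δ1 = β * γ ∧
        (q.2.1 : 𝓞 K) * α = δ1 * β ∧ Ideal.span {α} = (I : Ideal (𝓞 K)) ^ 5 ∧
        b * q.2.2.2.1 = q.2.1 * q.2.2.2.2.1 + q.1 * q.2.2.2.2.2.1 ∧
        κ * q.2.2.1 = q.2.1 * q.2.2.2.2.1 - q.1 * q.2.2.2.2.2.1) ∨
    (∃ k0 r : ℕ, Ideal.absNorm (J : Ideal (𝓞 K)) = k0 ^ 2 ∧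
      Ideal.absNorm (I : Ideal (𝓞 K)) = k0 * r ∧
      (I : Ideal (𝓞 K)) ^ 5 ≤ Ideal.span {(r : 𝓞 K) ^ 2}) ∨
    (∃ n0 r : ℕ, Ideal.absNorm (I : Ideal (𝓞 K)) = n0 ^ 2 ∧
      Ideal.absNorm (J : Ideal (𝓞 K)) = n0 * r ∧
      (J : Ideal (𝓞 K)) ^ 5 ≤ Ideal.span {(r : 𝓞 K) ^ 2}) := by
  obtain ⟨I1, hI1, hnI1, hcI1⟩ := cpl K h2 I
  obtain ⟨J1, hJ1, hnJ1, hcJ1⟩ := cpl K h2 J
  have pI := prm1 K h2 I mI
  have pJ := prm1 K h2 J mJ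
  have pJ1 := prm2 K h2 J J1 mJ hJ1
  have hI0 : (I : Ideal (𝓞 K)) ≠ 0 := nonZeroDivisors.coe_ne_zero I
  have hJ0 : (J : Ideal (𝓞 K)) ≠ 0 := nonZeroDivisors.coe_ne_zero J
  have hN1 : 1 ≤ Ideal.absNorm (I : Ideal (𝓞 K)) :=
    Nat.one_le_iff_ne_zero.2 (Ideal.absNorm_ne_zero_of_nonZeroDivisors I)
  have hk1 : 1 ≤ Ideal.absNorm (J : Ideal (𝓞 K)) :=
    Nat.one_le_iff_ne_zero.2 (Ideal.absNorm_ne_zero_of_nonZeroDivisors J)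
  generalize hNdef : Ideal.absNorm (I : Ideal (𝓞 K)) = N at *
  generalize hkdef : Ideal.absNorm (J : Ideal (𝓞 K)) = k at *
  obtain ⟨β, βc, γ, b, c, κ, v, cβ, cβc, cγ, hc0, hv0, hβ, hβc, hγ, hnb, hng⟩ :=
    els1 K h2 him A hA I J I1 J1 hI hJ N k hNdef hkdef hI1 hJ1 hnJ1 hcJ1
  obtain ⟨δ1, δ2, α, α2, e1, e2, e3, e4, s1, s2, s3, s4⟩ :=
    els2 K I J I1 J1 N k hN1 hk1 hI1 hJ1 β βc γ hβ hβc hγ
  obtain ⟨t1, u, cδ1⟩ := co_exists K h2 him δ1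
  obtain ⟨t2, e, cδ2⟩ := co_exists K h2 him δ2
  obtain ⟨t3, w, cα⟩ := co_exists K h2 him α
  obtain ⟨t4, z, cα2⟩ := co_exists K h2 him α2
  have m1 := co_mul K β γ b c κ v _ _ cβ cγ (e1 ▸ co_nat K δ1 t1 u k cδ1)
  have m2 := co_mul K βc γ b (-c) κ v _ _ cβc cγ (e2 ▸ co_nat K δ2 t2 e N cδ2)
  have m3 := co_mul K δ1 β t1 u b c _ _ cδ1 cβ (e3 ▸ co_nat K α t3 w k cα)
  have m4 := co_mul K δ2 γ t2 e κ v _ _ cδ2 cγ (e4 ▸ co_nat K α2 t4 z N cα2)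
  have hNz : (N : ℤ) ≠ 0 := by positivity
  have hkz : (k : ℤ) ≠ 0 := by positivity
  have hNK : (N : 𝓞 K) ≠ 0 := by
    rw [Ne, Nat.cast_eq_zero]
    omega
  have hkK : (k : 𝓞 K) ≠ 0 := by
    rw [Ne, Nat.cast_eq_zero]
    omega
  rcases hc0.lt_or_eq with hc | hc
  swap
  · -- `c = 0`
    refine Or.inr (Or.inl ?_)
    rw [← hc] at cβ hnb
    obtain ⟨k0, hk0, hβ2, hβs⟩ := sqg K N k hN1 β b cβ (by rw [← hnb]; ring)
    have hk01 : 1 ≤ k0 := by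
      rcases Nat.eq_zero_or_pos k0 with h | h
      · rw [h] at hk0
        omega
      · exact h
    have hIJ : (I : Ideal (𝓞 K)) * (J1 : Ideal (𝓞 K)) =
        (I1 : Ideal (𝓞 K)) * Ideal.span {(k0 : 𝓞 K)} := by
      apply mul_left_cancel₀ hI0
      calc (I : Ideal (𝓞 K)) * ((I : Ideal (𝓞 K)) * (J1 : Ideal (𝓞 K)))
          = (I : Ideal (𝓞 K)) ^ 2 * (J1 : Ideal (𝓞 K)) := by ring
        _ = Ideal.span {(N : 𝓞 K)} * Ideal.span {(k0 : 𝓞 K)} := by rw [hβ, hβs]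
        _ = _ := by rw [← hI1, mul_assoc]
    have hle : Ideal.span {(N : 𝓞 K)} * (J1 : Ideal (𝓞 K)) ≤ Ideal.span {(k0 : 𝓞 K)} := by
      calc Ideal.span {(N : 𝓞 K)} * (J1 : Ideal (𝓞 K)) =
            (I1 : Ideal (𝓞 K)) * ((I : Ideal (𝓞 K)) * (J1 : Ideal (𝓞 K))) := by
            rw [← hI1]; ring
        _ = ((I1 : Ideal (𝓞 K)) * (I1 : Ideal (𝓞 K))) * Ideal.span {(k0 : 𝓞 K)} := by
            rw [hIJ]; ring
        _ ≤ Ideal.span {(k0 : 𝓞 K)} := Ideal.mul_le_right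
    obtain ⟨r, hr⟩ := prd K J1 pJ1 N k0 hk01 hle
    refine ⟨k0, r, hk0, hr, ?_⟩
    have hk0K : (k0 : 𝓞 K) ≠ 0 := by
      rw [Ne, Nat.cast_eq_zero]
      omega
    have hα : α = (r : 𝓞 K) ^ 2 * γ := by
      have f1 : (k : 𝓞 K) * ((k : 𝓞 K) * α) = (k : 𝓞 K) * ((N : 𝓞 K) * (N : 𝓞 K) * γ) := by
        rw [e3]
        calc (k : 𝓞 K) * (δ1 * β) = ((k : 𝓞 K) * δ1) * β := by ring
          _ = (β * β) * γ := by rw [e1]; ring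
          _ = _ := by rw [hβ2]; ring
      have f2 := mul_left_cancel₀ hkK f1
      have f3 : (k0 : 𝓞 K) ^ 2 * α = (k0 : 𝓞 K) ^ 2 * ((r : 𝓞 K) ^ 2 * γ) := by
        have g1 : (k : 𝓞 K) = (k0 : 𝓞 K) ^ 2 := by rw [hk0]; push_cast; rfl
        have g2 : (N : 𝓞 K) = (k0 : 𝓞 K) * (r : 𝓞 K) := by rw [hr]; push_cast; rfl
        rw [g1, g2] at f2
        rw [f2]
        ring
      exact mul_left_cancel₀ (pow_ne_zero 2 hk0K) f3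
    rw [← s3, Ideal.span_singleton_le_iff_mem, Ideal.mem_span_singleton, hα]
    exact Dvd.intro _ rfl
  rcases hv0.lt_or_eq with hv | hv
  swap
  · -- `v = 0`
    refine Or.inr (Or.inr ?_)
    rw [← hv] at cγ hng
    obtain ⟨k0, hk0, hβ2, hβs⟩ := sqg K k N hk1 γ κ cγ (by rw [← hng]; ring)
    have hk01 : 1 ≤ k0 := by
      rcases Nat.eq_zero_or_pos k0 with h | h
      · rw [h] at hk0
        omega
      · exact h
    have hIJ : (J : Ideal (𝓞 K)) * (I : Ideal (𝓞 K)) =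
        (J1 : Ideal (𝓞 K)) * Ideal.span {(k0 : 𝓞 K)} := by
      apply mul_left_cancel₀ hJ0
      calc (J : Ideal (𝓞 K)) * ((J : Ideal (𝓞 K)) * (I : Ideal (𝓞 K)))
          = (J : Ideal (𝓞 K)) ^ 2 * (I : Ideal (𝓞 K)) := by ring
        _ = Ideal.span {(k : 𝓞 K)} * Ideal.span {(k0 : 𝓞 K)} := by rw [hγ, hβs]
        _ = _ := by rw [← hJ1, mul_assoc]
    have hle : Ideal.span {(k : 𝓞 K)} * (I : Ideal (𝓞 K)) ≤ Ideal.span {(k0 : 𝓞 K)} := by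
      calc Ideal.span {(k : 𝓞 K)} * (I : Ideal (𝓞 K)) =
            (J1 : Ideal (𝓞 K)) * ((J : Ideal (𝓞 K)) * (I : Ideal (𝓞 K))) := by
            rw [← hJ1]; ring
        _ = ((J1 : Ideal (𝓞 K)) * (J1 : Ideal (𝓞 K))) * Ideal.span {(k0 : 𝓞 K)} := by
            rw [hIJ]; ring
        _ ≤ Ideal.span {(k0 : 𝓞 K)} := Ideal.mul_le_right
    obtain ⟨r, hr⟩ := prd K I pI k k0 hk01 hle
    refine ⟨k0, r, hk0, hr, ?_⟩
    have hk0K : (k0 : 𝓞 K) ≠ 0 := by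
      rw [Ne, Nat.cast_eq_zero]
      omega
    have hα : α2 = (r : 𝓞 K) ^ 2 * βc := by
      have f1 : (N : 𝓞 K) * ((N : 𝓞 K) * α2) = (N : 𝓞 K) * ((k : 𝓞 K) * (k : 𝓞 K) * βc) := by
        rw [e4]
        calc (N : 𝓞 K) * (δ2 * γ) = ((N : 𝓞 K) * δ2) * γ := by ring
          _ = (γ * γ) * βc := by rw [e2]; ring
          _ = _ := by rw [hβ2]; ring
      have f2 := mul_left_cancel₀ hNK f1
      have f3 : (k0 : 𝓞 K) ^ 2 * α2 = (k0 : 𝓞 K) ^ 2 * ((r : 𝓞 K) ^ 2 * βc) := by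
        have g1 : (N : 𝓞 K) = (k0 : 𝓞 K) ^ 2 := by rw [hk0]; push_cast; rfl
        have g2 : (k : 𝓞 K) = (k0 : 𝓞 K) * (r : 𝓞 K) := by rw [hr]; push_cast; rfl
        rw [g1, g2] at f2
        rw [f2]
        ring
      exact mul_left_cancel₀ (pow_ne_zero 2 hk0K) f3
    rw [← s4, Ideal.span_singleton_le_iff_mem, Ideal.mem_span_singleton, hα]
    exact Dvd.intro _ rfl
  refine Or.inl ?_
  have h4 : 2 * ((k : ℤ) * u) = b * v + κ * c := m1.2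
  have h6 : 2 * ((N : ℤ) * e) = b * v - κ * c := by
    rw [m2.2]; ring
  have hal := alb (aD K : ℤ) N k b c κ v t1 u t2 e w z hNz hkz hnb hng m1.1 h4
    (by rw [m2.1]; ring) h6 m3.2 m4.2
  obtain ⟨r1, r2, r3⟩ := hal
  obtain ⟨gu, ge, gw, gz⟩ := lmG K h2 him I J I1 J1 N k hN1 hk1 hI1 hJ1 pI pJ pJ1 β βc γ δ1 δ2 α α2
    b c κ v t1 u t2 e t3 w t4 z cβ cβc cγ cδ1 cδ2 cα cα2 hβ hγ hnb hng e1 e2 e3 e4 s1 s2 s3 s4
  have hD := rin (aD K) N k b c κ v u e w z hN1 hk1 hID hJD hc hv hnb hng h4 h6 r1 r2 r3 gu ge gw gz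
  have hG1 : 1 ≤ Int.gcd c v := hD.2.1
  generalize hG : Int.gcd c v = G at *
  have hGc : (G : ℤ) ∣ c := by rw [← hG]; exact Int.gcd_dvd_left ..
  have hGv : (G : ℤ) ∣ v := by rw [← hG]; exact Int.gcd_dvd_right ..
  have hGz : (G : ℤ) ≠ 0 := by positivity
  have hc1 : ((c / (G : ℤ)).toNat : ℤ) = c / (G : ℤ) :=
    Int.toNat_of_nonneg (Int.ediv_nonneg hc.le (by positivity))
  have hv1 : ((v / (G : ℤ)).toNat : ℤ) = v / (G : ℤ) :=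
    Int.toNat_of_nonneg (Int.ediv_nonneg hv.le (by positivity))
  have hc2 : (G : ℤ) * (c / (G : ℤ)) = c := Int.mul_ediv_cancel' hGc
  have hv2 : (G : ℤ) * (v / (G : ℤ)) = v := Int.mul_ediv_cancel' hGv
  have hu2 : (G : ℤ) * (u / (G : ℤ)) = u := Int.mul_ediv_cancel' gu
  have he2 : (G : ℤ) * (e / (G : ℤ)) = e := Int.mul_ediv_cancel' ge
  refine ⟨G, _, hD, rfl, rfl, β, γ, δ1, α, b, κ, ?_, ?_, e1, e3, s3, ?_, ?_⟩
  · show Co K β b ((G : ℤ) * ((c / (G : ℤ)).toNat : ℤ))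
    rw [hc1, hc2]; exact cβ
  · show Co K γ κ ((G : ℤ) * ((v / (G : ℤ)).toNat : ℤ))
    rw [hv1, hv2]; exact cγ
  · show b * ((v / (G : ℤ)).toNat : ℤ) = (k : ℤ) * (u / (G : ℤ)) + (N : ℤ) * (e / (G : ℤ))
    rw [hv1]
    apply mul_left_cancel₀ (mul_ne_zero two_ne_zero hGz)
    calc 2 * (G : ℤ) * (b * (v / (G : ℤ))) = 2 * (b * ((G : ℤ) * (v / (G : ℤ)))) := by ring
      _ = 2 * (b * v) := by rw [hv2]
      _ = 2 * ((k : ℤ) * u) + 2 * ((N : ℤ) * e) := by rw [h4, h6]; ring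
      _ = 2 * ((k : ℤ) * ((G : ℤ) * (u / (G : ℤ)))) + 2 * ((N : ℤ) * ((G : ℤ) * (e / (G : ℤ)))) := by
        rw [hu2, he2]
      _ = 2 * (G : ℤ) * ((k : ℤ) * (u / (G : ℤ)) + (N : ℤ) * (e / (G : ℤ))) := by ring
  · show κ * ((c / (G : ℤ)).toNat : ℤ) = (k : ℤ) * (u / (G : ℤ)) - (N : ℤ) * (e / (G : ℤ))
    rw [hc1]
    apply mul_left_cancel₀ (mul_ne_zero two_ne_zero hGz)
    calc 2 * (G : ℤ) * (κ * (c / (G : ℤ))) = 2 * (κ * ((G : ℤ) * (c / (G : ℤ)))) := by ring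
      _ = 2 * (κ * c) := by rw [hc2]
      _ = 2 * ((k : ℤ) * u) - 2 * ((N : ℤ) * e) := by rw [h4, h6]; ring
      _ = 2 * ((k : ℤ) * ((G : ℤ) * (u / (G : ℤ)))) - 2 * ((N : ℤ) * ((G : ℤ) * (e / (G : ℤ)))) := by
        rw [hu2, he2]
      _ = 2 * (G : ℤ) * ((k : ℤ) * (u / (G : ℤ)) - (N : ℤ) * (e / (G : ℤ))) := by ring

end Pool.Agent.PP5F
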