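import Pool.Agent.PP5.A1Main
import Pool.Agent.PP5F.Cle

/-!
# PP5F/Clx: the classes of one field

PROOF of `sqx`.  As `sqI` (Pool/Agent/FTB/SqI.lean; `sqI_data` is private, copy it), with
`choose`.  The divisibility: let `(I A) ^ 5 = span {x} ≤ span {r ^ 2}`, `x = r ^ 2 x'`, coordinates
`(t', y')` of `x'` (`co_exists`); `co_nat` (with `r ^ 2` as natural number, `push_cast`) and
`co_unique` give `t = r ^ 2 t'`, `y = r ^ 2 y'`.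

PROOF of `clx`.  Choose `IA` from `mn_spec` (Pool/Agent/PP5/A1Rd.lean): class `C`, norm `mn K C`,
`MinI`, `(mn K C) ^ 2 ≤ aD K`.  For `A` with `A ^ 5 = 1` apply `cle` with `I = IA A`,
`J = IA (A ^ 2)`.  Let `G1`, `G2`, `G3` (filters of `Finset.univ` over the class group, classical)
be the sets of the `A` with `Tc K M1 M2 A` for which the first / second / third alternative holds;
the set of all `A` with `Tc` is contained in `G1 ∪ G2 ∪ G3`.  `A1 = f '' G1`, where `f A = (G, q)` is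
chosen as in `daI` (injective on `G1`: proof of `daI`).  Let `s` be from `sqx`:
`A2 = s '' G2`, `A3 = (s ∘ sq) '' G2` with `sq A = A ^ 2`, `A4 = (s ∘ sq) '' G3`, `A5 = s '' G3`,
`e1 = G2.card`, `e2 = G3.card`.  (`A ^ 2 ≠ 1` and `(A ^ 2) ^ 5 = 1`; `A ↦ A ^ 2` is injective on
`{A ^ 5 = 1}`, see Pool/Agent/FTB/Clt.lean.)
`A2`: `Ea`: `N = k0 r`, `r ^ 2 ∣ t, y`, `k0 ^ 2 = mn K (A ^ 2) < 2 M2`, `k0 ^ 4 = (mn K (A ^ 2)) ^ 2 ≤ aD K`.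
`A3`: `Sb` for `J`: `mn K (A ^ 2) = k0 ^ 2` a square, in `[M2, 2 M2)`.  `A4`, `A5` the same with the
third alternative.
-/

set_option autoImplicit false

namespace Pool.Agent.PP5F

open NumberField Pool.Agent.FTA Pool.Agent.FTB Pool.Agent.PP5 nonZeroDivisors

private theorem sqx_data (K : IntermediateField ℚ ℂ) [NumberField K]
    (h2 : Module.finrank ℚ K = 2) (him : ∃ x : K, (x : ℂ).im ≠ 0) (c : ClassGroup (𝓞 K))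
    (I : (Ideal (𝓞 K))⁰) (hI : ClassGroup.mk0 I = c)
    (hN : (Ideal.absNorm (I : Ideal (𝓞 K))) ^ 2 ≤ aD K) (hM : MinI K I)
    (hc : c ^ 5 = 1) (hc1 : c ≠ 1) :
    ∃ x : 𝓞 K × ℤ × ℤ,
      (I : Ideal (𝓞 K)) ^ 5 = Ideal.span {x.1} ∧
      2 * ((x.1 : K) : ℂ) = (x.2.1 : ℂ) + (x.2.2 : ℂ) * ((√(aD K : ℝ) : ℝ) : ℂ) * Complex.I ∧
      SolP 5 (aD K) (Ideal.absNorm (I : Ideal (𝓞 K))) x.2.1 x.2.2 := by
  have hp : Odd 5 := by decide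
  have hn : ∀ n : ℕ, 2 ≤ n → ¬ ((I : Ideal (𝓞 K)) ≤ Ideal.span {(n : 𝓞 K)}) :=
    fun n hn => prm1 K h2 I hM n hn
  have h1 : ClassGroup.mk0 (I ^ 5) = 1 := by rw [map_pow, hI, hc]
  rw [ClassGroup.mk0_eq_one_iff] at h1
  obtain ⟨a, ha⟩ := h1.principal
  have ha' : (I : Ideal (𝓞 K)) ^ 5 = Ideal.span {a} := by
    rw [← Ideal.submodule_span_eq, ← ha]
    rfl
  have hne0 : Ideal.absNorm (I : Ideal (𝓞 K)) ≠ 0 := by
    rw [Ne, Ideal.absNorm_eq_zero_iff]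
    exact nonZeroDivisors.coe_ne_zero I
  have hne1 : Ideal.absNorm (I : Ideal (𝓞 K)) ≠ 1 := by
    rw [Ne, Ideal.absNorm_eq_one_iff]
    intro h
    apply hc1
    rw [← hI, ClassGroup.mk0_eq_one_iff, h]
    exact top_isPrincipal
  have hN2 : 2 ≤ Ideal.absNorm (I : Ideal (𝓞 K)) := by omega
  have main : ∀ (a : 𝓞 K) (t y : ℤ), (I : Ideal (𝓞 K)) ^ 5 = Ideal.span {a} →
      2 * ((a : K) : ℂ) = (t : ℂ) + (y : ℂ) * ((√(aD K : ℝ) : ℝ) : ℂ) * Complex.I → 0 < y →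
      SolP 5 (aD K) (Ideal.absNorm (I : Ideal (𝓞 K))) t y := by
    intro a t y ha h hy
    obtain ⟨k1, -, k3⟩ := keyP 5 hp K h2 him I hN2 hn a ha t y h
    exact ⟨hN2, hN, hy, k1, k3⟩
  obtain ⟨t, y, hty⟩ := coord K h2 him a
  obtain ⟨-, hy0, -⟩ := keyP 5 hp K h2 him I hN2 hn a ha' t y hty
  rcases lt_or_gt_of_ne hy0 with hy | hy
  · have ha2 : (I : Ideal (𝓞 K)) ^ 5 = Ideal.span {-a} := by rw [Ideal.span_singleton_neg, ha']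
    have hty2 : 2 * (((-a : 𝓞 K) : K) : ℂ) =
        ((-t : ℤ) : ℂ) + ((-y : ℤ) : ℂ) * ((√(aD K : ℝ) : ℝ) : ℂ) * Complex.I := by
      have e1 : (((-a : 𝓞 K) : K) : ℂ) = - ((a : K) : ℂ) := by simp
      rw [e1, mul_neg, hty]
      push_cast
      ring
    exact ⟨(-a, -t, -y), ha2, hty2, main _ _ _ ha2 hty2 (by
      show 0 < -y
      omega)⟩
  · exact ⟨(a, t, y), ha', hty, main _ _ _ ha' hty hy⟩

theorem sqx (K : IntermediateField ℚ ℂ) [NumberField K] (h2 : Module.finrank ℚ K = 2)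
    (him : ∃ x : K, (x : ℂ).im ≠ 0) (IA : ClassGroup (𝓞 K) → (Ideal (𝓞 K))⁰)
    (hIA : ∀ A, ClassGroup.mk0 (IA A) = A ∧
      (Ideal.absNorm (IA A : Ideal (𝓞 K))) ^ 2 ≤ aD K ∧ MinI K (IA A)) :
    ∃ f : ClassGroup (𝓞 K) → ℕ × ℤ × ℤ,
      (∀ A, A ^ 5 = 1 → A ≠ 1 → SolP 5 (aD K) (f A).1 (f A).2.1 (f A).2.2 ∧
        (f A).1 = Ideal.absNorm (IA A : Ideal (𝓞 K)) ∧
        ∀ r : ℕ, (IA A : Ideal (𝓞 K)) ^ 5 ≤ Ideal.span {(r : 𝓞 K) ^ 2} →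
          (r : ℤ) ^ 2 ∣ (f A).2.1 ∧ (r : ℤ) ^ 2 ∣ (f A).2.2) ∧
      Set.InjOn f {A | A ^ 5 = 1 ∧ A ≠ 1} := by
  classical
  have h0 : ∀ c : ClassGroup (𝓞 K), (c ^ 5 = 1 ∧ c ≠ 1) → ∃ x : 𝓞 K × ℤ × ℤ,
      (IA c : Ideal (𝓞 K)) ^ 5 = Ideal.span {x.1} ∧
      2 * ((x.1 : K) : ℂ) = (x.2.1 : ℂ) + (x.2.2 : ℂ) * ((√(aD K : ℝ) : ℝ) : ℂ) * Complex.I ∧
      SolP 5 (aD K) (Ideal.absNorm (IA c : Ideal (𝓞 K))) x.2.1 x.2.2 :=
    fun c hc => sqx_data K h2 him c (IA c) (hIA c).1 (hIA c).2.1 (hIA c).2.2 hc.1 hc.2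
  choose! G hG using h0
  refine ⟨fun c => (Ideal.absNorm (IA c : Ideal (𝓞 K)), (G c).2.1, (G c).2.2), ?_, ?_⟩
  · intro c hc hc1
    refine ⟨(hG c ⟨hc, hc1⟩).2.2, rfl, ?_⟩
    intro r hr
    obtain ⟨g1, g2, -⟩ := hG c ⟨hc, hc1⟩
    rw [g1, Ideal.span_singleton_le_iff_mem, Ideal.mem_span_singleton] at hr
    obtain ⟨x', hx'⟩ := hr
    obtain ⟨t', y', hty'⟩ := co_exists K h2 him x'
    have h3 := co_nat K x' t' y' (r ^ 2) hty'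
    have h4 : (((r ^ 2 : ℕ) : 𝓞 K)) * x' = (G c).1 := by
      rw [hx']
      push_cast
      rfl
    rw [h4] at h3
    obtain ⟨h5, h6⟩ := co_unique K _ _ _ _ _ g2 h3
    refine ⟨⟨t', ?_⟩, ⟨y', ?_⟩⟩
    · show (G c).2.1 = _
      rw [h5]
      push_cast
      rfl
    · show (G c).2.2 = _
      rw [h6]
      push_cast
      rfl
  · rintro c ⟨hc, hc1⟩ c' ⟨hc', hc1'⟩ h
    simp only [Prod.mk.injEq] at h
    obtain ⟨-, ht, hy⟩ := h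
    obtain ⟨k2, k3, -⟩ := hG c ⟨hc, hc1⟩
    obtain ⟨l2, l3, -⟩ := hG c' ⟨hc', hc1'⟩
    rw [← ht, ← hy, ← k3] at l3
    have h4 : (((G c').1 : K) : ℂ) = (((G c).1 : K) : ℂ) := mul_left_cancel₀ two_ne_zero l3
    have h5 : (G c').1 = (G c).1 := by
      apply RingOfIntegers.ext
      exact Subtype.ext h4
    rw [h5, ← k2] at l2
    have h6 := powEq (𝓞 K) _ _ 5 (by norm_num) l2
    rw [← (hIA c).1, ← (hIA c').1]
    congr 1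
    exact Subtype.ext h6.symm

/-- the first alternative of `cle` -/
private def Al1 (K : IntermediateField ℚ ℂ) [NumberField K] (I J : (Ideal (𝓞 K))⁰)
    (Gq : ℕ × Pt) : Prop :=
  Dat (aD K) Gq.1 Gq.2 ∧ Gq.2.1 = Ideal.absNorm (I : Ideal (𝓞 K)) ∧
    Gq.2.2.1 = Ideal.absNorm (J : Ideal (𝓞 K)) ∧
    ∃ (β γ δ1 α : 𝓞 K) (b κ : ℤ), Co K β b ((Gq.1 : ℤ) * Gq.2.2.2.1) ∧
      Co K γ κ ((Gq.1 : ℤ) * Gq.2.2.2.2.1) ∧ (Gq.2.2.1 : 𝓞 K) * δ1 = β * γ ∧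
      (Gq.2.2.1 : 𝓞 K) * α = δ1 * β ∧ Ideal.span {α} = (I : Ideal (𝓞 K)) ^ 5 ∧
      b * Gq.2.2.2.2.1 = Gq.2.2.1 * Gq.2.2.2.2.2.1 + Gq.2.1 * Gq.2.2.2.2.2.2.1 ∧
      κ * Gq.2.2.2.1 = Gq.2.2.1 * Gq.2.2.2.2.2.1 - Gq.2.1 * Gq.2.2.2.2.2.2.1

private theorem al1_inj (K : IntermediateField ℚ ℂ) [NumberField K] (I J I' J' : (Ideal (𝓞 K))⁰)
    (Gq : ℕ × Pt) (h : Al1 K I J Gq) (h' : Al1 K I' J' Gq) : I = I' := by
  obtain ⟨hD, -, -, β, γ, δ1, α, b, κ, c1, c2, c3, c4, c5, c6, c7⟩ := h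
  obtain ⟨-, -, -, β', γ', δ1', α', b', κ', c1', c2', c3', c4', c5', c6', c7'⟩ := h'
  obtain ⟨hT, -⟩ := hD
  have hk : 1 ≤ Gq.2.2.1 := hT.2.1
  have hc : 1 ≤ Gq.2.2.2.1 := hT.2.2.1
  have hv : 1 ≤ Gq.2.2.2.2.1 := hT.2.2.2.1
  have hk0 : (Gq.2.2.1 : 𝓞 K) ≠ 0 := by
    have : Gq.2.2.1 ≠ 0 := by omega
    exact_mod_cast this
  have hc0 : (Gq.2.2.2.1 : ℤ) ≠ 0 := by omega
  have hv0 : (Gq.2.2.2.2.1 : ℤ) ≠ 0 := by omega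
  have hb : b' = b := mul_right_cancel₀ hv0 (c6'.trans c6.symm)
  have hκ : κ' = κ := mul_right_cancel₀ hc0 (c7'.trans c7.symm)
  rw [hb] at c1'
  rw [hκ] at c2'
  have hβ : β' = β := co_inj K β' β _ _ c1' c1
  have hγ : γ' = γ := co_inj K γ' γ _ _ c2' c2
  have hδ : δ1' = δ1 := by
    refine mul_left_cancel₀ hk0 ?_
    rw [c3', c3, hβ, hγ]
  have hα : α' = α := by
    refine mul_left_cancel₀ hk0 ?_
    rw [c4', c4, hβ, hδ]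
  have h5 : (I : Ideal (𝓞 K)) ^ 5 = (I' : Ideal (𝓞 K)) ^ 5 := by
    rw [← c5, ← c5', hα]
  exact Subtype.ext (powEq (𝓞 K) _ _ 5 (by norm_num) h5)

theorem clx (K : IntermediateField ℚ ℂ) [NumberField K] (h2 : Module.finrank ℚ K = 2)
    (him : ∃ x : K, (x : ℂ).im ≠ 0) (M1 M2 : ℝ) :
    ∃ (A1 : Finset (ℕ × Pt)) (A2 A3 A4 A5 : Finset (ℕ × ℤ × ℤ)) (e1 e2 : ℕ),
      (∀ a ∈ A1, Dat (aD K) a.1 a.2 ∧ (a.2.1 : ℝ) < 2 * M1 ∧ (a.2.2.1 : ℝ) < 2 * M2) ∧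
      (∀ a ∈ A2, Ea (aD K) M1 M2 a) ∧ (∀ a ∈ A3, Sb (aD K) M2 a) ∧
      (∀ a ∈ A4, Ea (aD K) M2 M1 a) ∧ (∀ a ∈ A5, Sb (aD K) M1 a) ∧
      e1 ≤ A2.card ∧ e1 ≤ A3.card ∧ e2 ≤ A4.card ∧ e2 ≤ A5.card ∧
      Nat.card {A : ClassGroup (𝓞 K) // Tc K M1 M2 A} ≤ A1.card + e1 + e2 := by
  classical
  choose IA i1 i2 i3 i4 using mn_spec K h2
  have hIA : ∀ A, ClassGroup.mk0 (IA A) = A ∧
      (Ideal.absNorm (IA A : Ideal (𝓞 K))) ^ 2 ≤ aD K ∧ MinI K (IA A) :=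
    fun A => ⟨i1 A, by rw [i2 A]; exact i4 A, i3 A⟩
  obtain ⟨s, hs, hsi⟩ := sqx K h2 him IA hIA
  have hex : ∀ A : ClassGroup (𝓞 K), ∃ Gq : ℕ × Pt,
      ((∃ Gq' : ℕ × Pt, Al1 K (IA A) (IA (A ^ 2)) Gq') → Al1 K (IA A) (IA (A ^ 2)) Gq) := by
    intro A
    by_cases h : ∃ Gq' : ℕ × Pt, Al1 K (IA A) (IA (A ^ 2)) Gq'
    · obtain ⟨Gq', h'⟩ := h
      exact ⟨Gq', fun _ => h'⟩
    · exact ⟨(0, (0, 0, 0, 0, 0, 0, 0, 0)), fun h' => absurd h' h⟩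
  choose f hf using hex
  set G1 : Finset (ClassGroup (𝓞 K)) := Finset.univ.filter fun A => Tc K M1 M2 A ∧
    ∃ Gq' : ℕ × Pt, Al1 K (IA A) (IA (A ^ 2)) Gq' with hG1
  set G2 : Finset (ClassGroup (𝓞 K)) := Finset.univ.filter fun A => Tc K M1 M2 A ∧
    ∃ k0 r : ℕ, Ideal.absNorm (IA (A ^ 2) : Ideal (𝓞 K)) = k0 ^ 2 ∧
      Ideal.absNorm (IA A : Ideal (𝓞 K)) = k0 * r ∧
      (IA A : Ideal (𝓞 K)) ^ 5 ≤ Ideal.span {(r : 𝓞 K) ^ 2} with hG2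
  set G3 : Finset (ClassGroup (𝓞 K)) := Finset.univ.filter fun A => Tc K M1 M2 A ∧
    ∃ n0 r : ℕ, Ideal.absNorm (IA A : Ideal (𝓞 K)) = n0 ^ 2 ∧
      Ideal.absNorm (IA (A ^ 2) : Ideal (𝓞 K)) = n0 * r ∧
      (IA (A ^ 2) : Ideal (𝓞 K)) ^ 5 ≤ Ideal.span {(r : 𝓞 K) ^ 2} with hG3
  have hsub : (Finset.univ.filter fun A => Tc K M1 M2 A) ⊆ (G1 ∪ G2) ∪ G3 := by
    intro A hA
    rw [Finset.mem_filter] at hA
    rw [Finset.mem_union, Finset.mem_union, hG1, hG2, hG3, Finset.mem_filter, Finset.mem_filter,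
      Finset.mem_filter]
    have hA5 : A ^ 5 = 1 := hA.2.1
    rcases cle K h2 him A hA5 (IA A) (IA (A ^ 2)) (i1 A) (i1 (A ^ 2)) (i3 A) (i3 (A ^ 2))
      (hIA A).2.1 (hIA (A ^ 2)).2.1 with h | h | h
    · refine Or.inl (Or.inl ⟨Finset.mem_univ _, hA.2, ?_⟩)
      obtain ⟨G, q, h1, h3, h4, h5⟩ := h
      exact ⟨(G, q), h1, h3, h4, h5⟩
    · exact Or.inl (Or.inr ⟨Finset.mem_univ _, hA.2, h⟩)
    · exact Or.inr ⟨Finset.mem_univ _, hA.2, h⟩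
  have hsq5 : ∀ A : ClassGroup (𝓞 K), A ^ 5 = 1 → (A ^ 2) ^ 5 = 1 := by
    intro A hA
    rw [← pow_mul, mul_comm, pow_mul, hA, one_pow]
  have hsq1 : ∀ A : ClassGroup (𝓞 K), A ^ 5 = 1 → A ≠ 1 → A ^ 2 ≠ 1 := by
    intro A hA hA1 h
    apply hA1
    calc A = A ^ 5 * (A ^ 2)⁻¹ * (A ^ 2)⁻¹ := by group
      _ = 1 := by rw [hA, h]; group
  have hsqi : ∀ A B : ClassGroup (𝓞 K), A ^ 5 = 1 → B ^ 5 = 1 → A ^ 2 = B ^ 2 → A = B := by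
    intro A B hA hB h
    calc A = (A ^ 2) ^ 3 * (A ^ 5)⁻¹ := by group
      _ = (B ^ 2) ^ 3 * (B ^ 5)⁻¹ := by rw [hA, hB, h]
      _ = B := by group
  have c1 : (G1.image f).card = G1.card := by
    apply Finset.card_image_of_injOn
    intro x hx y hy hxy
    rw [Finset.mem_coe, hG1, Finset.mem_filter] at hx hy
    have q1 := hf x hx.2.2
    have q2 := hf y hy.2.2
    rw [← hxy] at q2
    rw [← i1 x, al1_inj K _ _ _ _ _ q1 q2, i1 y]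
  have c2 : (G2.image s).card = G2.card := by
    apply Finset.card_image_of_injOn
    intro x hx y hy hxy
    rw [Finset.mem_coe, hG2, Finset.mem_filter] at hx hy
    exact hsi ⟨hx.2.1.1, hx.2.1.2.1⟩ ⟨hy.2.1.1, hy.2.1.2.1⟩ hxy
  have c3 : (G2.image fun A => s (A ^ 2)).card = G2.card := by
    apply Finset.card_image_of_injOn
    intro x hx y hy hxy
    rw [Finset.mem_coe, hG2, Finset.mem_filter] at hx hy
    exact hsqi x y hx.2.1.1 hy.2.1.1 (hsi ⟨hsq5 x hx.2.1.1, hsq1 x hx.2.1.1 hx.2.1.2.1⟩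
      ⟨hsq5 y hy.2.1.1, hsq1 y hy.2.1.1 hy.2.1.2.1⟩ hxy)
  have c4 : (G3.image fun A => s (A ^ 2)).card = G3.card := by
    apply Finset.card_image_of_injOn
    intro x hx y hy hxy
    rw [Finset.mem_coe, hG3, Finset.mem_filter] at hx hy
    exact hsqi x y hx.2.1.1 hy.2.1.1 (hsi ⟨hsq5 x hx.2.1.1, hsq1 x hx.2.1.1 hx.2.1.2.1⟩
      ⟨hsq5 y hy.2.1.1, hsq1 y hy.2.1.1 hy.2.1.2.1⟩ hxy)
  have c5 : (G3.image s).card = G3.card := by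
    apply Finset.card_image_of_injOn
    intro x hx y hy hxy
    rw [Finset.mem_coe, hG3, Finset.mem_filter] at hx hy
    exact hsi ⟨hx.2.1.1, hx.2.1.2.1⟩ ⟨hy.2.1.1, hy.2.1.2.1⟩ hxy
  refine ⟨G1.image f, G2.image s, G2.image fun A => s (A ^ 2), G3.image fun A => s (A ^ 2),
    G3.image s, G2.card, G3.card, ?_, ?_, ?_, ?_, ?_, c2.ge, c3.ge, c4.ge, c5.ge, ?_⟩
  · intro a ha
    obtain ⟨A, hA, rfl⟩ := Finset.mem_image.1 ha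
    rw [hG1, Finset.mem_filter] at hA
    obtain ⟨-, ⟨-, -, -, t2, -, t4⟩, hA2⟩ := hA
    obtain ⟨q1, q2, q3, -⟩ := hf A hA2
    refine ⟨q1, ?_, ?_⟩
    · rw [q2, i2]
      exact t2
    · rw [q3, i2]
      exact t4
  · intro a ha
    obtain ⟨A, hA, rfl⟩ := Finset.mem_image.1 ha
    rw [hG2, Finset.mem_filter] at hA
    obtain ⟨-, ⟨t5, t6, t1, t2, t3, t4⟩, k0, r, g1, g2, g3⟩ := hA
    obtain ⟨q1, q2, q3⟩ := hs A t5 t6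
    obtain ⟨q4, q5⟩ := q3 r g3
    rw [i2] at g1
    refine ⟨q1, by rw [q2, i2]; exact t1, by rw [q2, i2]; exact t2, k0, r, by rw [q2, g2], q4, q5,
      ?_, ?_⟩
    · have : ((mn K (A ^ 2) : ℕ) : ℝ) = (k0 : ℝ) ^ 2 := by
        rw [g1]
        push_cast
        rfl
      rw [← this]
      exact t4
    · have h5 := i4 (A ^ 2)
      rw [g1] at h5
      calc k0 ^ 4 = (k0 ^ 2) ^ 2 := by ring
        _ ≤ aD K := h5
  · intro a ha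
    obtain ⟨A, hA, rfl⟩ := Finset.mem_image.1 ha
    rw [hG2, Finset.mem_filter] at hA
    obtain ⟨-, ⟨t5, t6, t1, t2, t3, t4⟩, k0, r, g1, g2, g3⟩ := hA
    obtain ⟨q1, q2, -⟩ := hs (A ^ 2) (hsq5 A t5) (hsq1 A t5 t6)
    refine ⟨q1, ⟨k0, by rw [q2, g1]; ring⟩, ?_, ?_⟩
    · show M2 ≤ ((s (A ^ 2)).1 : ℝ)
      rw [q2, i2]
      exact t3
    · show ((s (A ^ 2)).1 : ℝ) < 2 * M2
      rw [q2, i2]
      exact t4
  · intro a ha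
    obtain ⟨A, hA, rfl⟩ := Finset.mem_image.1 ha
    rw [hG3, Finset.mem_filter] at hA
    obtain ⟨-, ⟨t5, t6, t1, t2, t3, t4⟩, k0, r, g1, g2, g3⟩ := hA
    obtain ⟨q1, q2, q3⟩ := hs (A ^ 2) (hsq5 A t5) (hsq1 A t5 t6)
    obtain ⟨q4, q5⟩ := q3 r g3
    rw [i2] at g1
    refine ⟨q1, ?_, ?_, k0, r, ?_, q4, q5, ?_, ?_⟩
    · show M2 ≤ ((s (A ^ 2)).1 : ℝ)
      rw [q2, i2]
      exact t3
    · show ((s (A ^ 2)).1 : ℝ) < 2 * M2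
      rw [q2, i2]
      exact t4
    · show (s (A ^ 2)).1 = k0 * r
      rw [q2, g2]
    · have : ((mn K A : ℕ) : ℝ) = (k0 : ℝ) ^ 2 := by
        rw [g1]
        push_cast
        rfl
      rw [← this]
      exact t2
    · have h5 := i4 A
      rw [g1] at h5
      calc k0 ^ 4 = (k0 ^ 2) ^ 2 := by ring
        _ ≤ aD K := h5
  · intro a ha
    obtain ⟨A, hA, rfl⟩ := Finset.mem_image.1 ha
    rw [hG3, Finset.mem_filter] at hA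
    obtain ⟨-, ⟨t5, t6, t1, t2, t3, t4⟩, k0, r, g1, g2, g3⟩ := hA
    obtain ⟨q1, q2, -⟩ := hs A t5 t6
    refine ⟨q1, ⟨k0, by rw [q2, g1]; ring⟩, ?_, ?_⟩
    · rw [q2, i2]
      exact t1
    · rw [q2, i2]
      exact t2
  · rw [c1, Nat.card_eq_fintype_card, Fintype.card_subtype]
    calc (Finset.univ.filter fun A => Tc K M1 M2 A).card ≤ ((G1 ∪ G2) ∪ G3).card :=
          Finset.card_le_card hsub
      _ ≤ (G1 ∪ G2).card + G3.card := Finset.card_union_le _ _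
      _ ≤ G1.card + G2.card + G3.card := Nat.add_le_add_right (Finset.card_union_le _ _) _

end Pool.Agent.PP5F
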