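import Pool.Agent.PP5F.Exn

/-!
# PP5F/Exc: the number of exceptional solutions

PROOF of `exa`.  Fibre over the pair `(N, k0)` (`fib_const`, `Pool/Agent/FTA/Fib.lean`, twice;
`k0` chosen for every `q ∈ S` by `choose`): `2 ≤ N < 2 M1`, at most `2 M1` values
(`Finset.Icc 2 ⌊2 M1⌋₊`); for given `N`, `k0` is a divisor of `N`, at most `T` values
(`1 ≤ N ≤ N ^ 2 ≤ 2 X ≤ Z`).  For given `N`, `k0` put `r = N / k0 ≥ 1`; `r ^ 2` divides `gcd (t, y)`,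
so `exn` applies (after the injective map `(D, N, t, y) ↦ (D, t, y)`) with `g0 = r ^ 2`
(`4 N ^ 5 ≤ 4 (2 X) ^ (5/2) ≤ 200 X ^ 3 ≤ Z`), and
`√(N ^ 5) / (r ^ 2 √X) = √N k0 ^ 2 / √X ≤ 2 √X`, since `N ^ 2 ≤ D ≤ 2 X` and `k0 ^ 4 ≤ D ≤ 2 X`
(so `√N * k0 ^ 2 ≤ (2 X) ^ (3/4) ≤ 2 X`).  Fibre: at most `8 T ^ 3 * 3 √X`.  Total
`≤ 2 M1 * T * 24 T ^ 3 √X = 48 T ^ 4 M1 √X`.

PROOF of `exs`.  As `sqC1` (Pool/Agent/FTB/SqC.lean).  If `S = ∅` trivial; otherwise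
`M ≤ N`, `N ^ 2 ≤ D ≤ 2 X` for some `N`, so `M ^ 2 ≤ 2 X`.  Fibre over `s = Nat.sqrt N`,
`N = s ^ 2`, `2 ≤ s`, `s ^ 2 < 2 M`: at most `√(2 M)` values of `s`.  For each `s`, `exn` with
`g0 = 1` (`gcd ≥ 1` as `y ≥ 1`): `8 T ^ 3 (√X + √(N ^ 5) / √X)`, and `√(N ^ 5) = s ^ 5 = s * N ^ 2 ≤
√(2 M) * (2 M) * √(2 X)` (`N < 2 M`, `N ≤ √(2 X)`), so `√(N ^ 5) / √X ≤ 4 M √M`.  Total
`≤ √(2 M) * 8 T ^ 3 (√X + 4 M √M)`, `√(2 M) √X ≤ 2 X ^ (3/4)` (as `M ^ 2 ≤ 2 X`),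
`√(2 M) * 4 M √M ≤ 6 M ^ 2`: total `≤ 48 T ^ 3 (M ^ 2 + X ^ (3/4))`.
(The constants in the statements are larger than needed.)
-/

set_option autoImplicit false

namespace Pool.Agent.PP5F

open Pool.Agent.FTA Pool.Agent.FTB

private theorem Exc_range (N : ℕ) (X : ℝ) (Z : ℕ) (hX : 1 ≤ X) (hZ : 200 * X ^ 3 ≤ (Z : ℝ))
    (hN : 2 ≤ N) (h : (N : ℝ) ^ 2 ≤ 2 * X) : 4 * N ^ 5 ≤ Z := by
  have hN2 : (2 : ℝ) ≤ N := by exact_mod_cast hN
  have h1 : (N : ℝ) ≤ 2 * X := by nlinarith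
  have h2 : (N : ℝ) ^ 5 ≤ 8 * X ^ 3 := by
    calc (N : ℝ) ^ 5 = (N : ℝ) * ((N : ℝ) ^ 2 * (N : ℝ) ^ 2) := by ring
      _ ≤ (2 * X) * ((2 * X) * (2 * X)) := by
          apply mul_le_mul h1 _ (by positivity) (by linarith)
          exact mul_le_mul h h (by positivity) (by linarith)
      _ = 8 * X ^ 3 := by ring
  have h3 : ((4 * N ^ 5 : ℕ) : ℝ) ≤ (Z : ℝ) := by
    push_cast
    have : 0 ≤ X ^ 3 := by positivity
    linarith
  exact_mod_cast h3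

private theorem Exc_inj (S : Finset (ℕ × ℕ × ℤ × ℤ)) (N : ℕ) (h : ∀ q ∈ S, q.2.1 = N) :
    (S.image (fun q => (q.1, q.2.2))).card = S.card := by
  apply Finset.card_image_of_injOn
  intro q hq q' hq' heq
  have h1 := h q hq
  have h2 := h q' hq'
  have h3 := congrArg Prod.fst heq
  have h4 := congrArg Prod.snd heq
  simp only at h3 h4
  exact Prod.ext h3 (Prod.ext (h1.trans h2.symm) h4)

theorem exa (Z : ℕ) (T X M1 M2 : ℝ) (hX : 1 ≤ X) (hM1 : 1 ≤ M1) (hT : TauB Z T)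
    (hZ : 200 * X ^ 3 ≤ (Z : ℝ)) (S : Finset (ℕ × ℕ × ℤ × ℤ))
    (hS : ∀ q ∈ S, X ≤ (q.1 : ℝ) ∧ (q.1 : ℝ) ≤ 2 * X ∧ Ea q.1 M1 M2 q.2) :
    (S.card : ℝ) ≤ 100 * T ^ 4 * (M1 * √X) := by
  classical
  have hT1 : 1 ≤ T := hT.1
  have hX0 : (0 : ℝ) < X := by linarith
  have hsX : 0 < √X := Real.sqrt_pos.2 hX0
  have hsX2 : √X * √X = X := Real.mul_self_sqrt hX0.le
  have hk : ∀ q ∈ S, ∃ k0 r : ℕ, q.2.1 = k0 * r ∧ (r : ℤ) ^ 2 ∣ q.2.2.1 ∧ (r : ℤ) ^ 2 ∣ q.2.2.2 ∧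
      k0 ^ 4 ≤ q.1 := by
    intro q hq
    obtain ⟨-, -, -, -, -, k0, r, h1, h2, h3, -, h4⟩ := hS q hq
    exact ⟨k0, r, h1, h2, h3, h4⟩
  choose! kk rr hkr hd1 hd2 hk4 using hk
  set b : ℝ := 24 * T ^ 3 * √X with hb
  have hb0 : 0 ≤ b := by positivity
  have hND : ∀ q ∈ S, (q.2.1 : ℝ) ^ 2 ≤ 2 * X := by
    intro q hq
    obtain ⟨-, h2, h3, -⟩ := hS q hq
    have h4 : q.2.1 ^ 2 ≤ q.1 := h3.2.1
    have h5 : ((q.2.1 ^ 2 : ℕ) : ℝ) ≤ (q.1 : ℝ) := by exact_mod_cast h4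
    push_cast at h5
    linarith
  have step1 : (S.card : ℝ) ≤ ((Finset.Icc 2 ⌊2 * M1⌋₊).card : ℝ) * (T * b) := by
    refine fib_const S (fun q => q.2.1) _ ?_ _ ?_
    · intro q hq
      obtain ⟨-, -, h3, -, h5, -⟩ := hS q hq
      rw [Finset.mem_Icc]
      exact ⟨h3.1, Nat.le_floor h5.le⟩
    intro N hN
    rw [Finset.mem_Icc] at hN
    set SN := S.filter (fun q => q.2.1 = N) with hSN
    rcases SN.eq_empty_or_nonempty with h0 | ⟨q0, hq0⟩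
    · rw [h0]; simp only [Finset.card_empty, Nat.cast_zero]; positivity
    have hSNm : ∀ q ∈ SN, q ∈ S ∧ q.2.1 = N := by
      intro q hq; rw [hSN, Finset.mem_filter] at hq; exact hq
    have hN2X : (N : ℝ) ^ 2 ≤ 2 * X := by
      have := hND q0 (hSNm q0 hq0).1
      rwa [(hSNm q0 hq0).2] at this
    have hZN := Exc_range N X Z hX hZ hN.1 hN2X
    have hNR : (2 : ℝ) ≤ N := by exact_mod_cast hN.1
    have hNX : (N : ℝ) ≤ 2 * X := by nlinarith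
    have hdiv : ((N.divisors).card : ℝ) ≤ T := by
      apply hT.2 N (by omega)
      have : N ≤ 4 * N ^ 5 := by
        calc N ≤ N ^ 5 := Nat.le_self_pow (by norm_num) N
          _ ≤ 4 * N ^ 5 := Nat.le_mul_of_pos_left _ (by norm_num)
      omega
    have step2 : (SN.card : ℝ) ≤ ((N.divisors).card : ℝ) * b := by
      refine fib_const SN kk _ ?_ _ ?_
      · intro q hq
        obtain ⟨h1, h2⟩ := hSNm q hq
        rw [Nat.mem_divisors]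
        refine ⟨⟨rr q, ?_⟩, by omega⟩
        rw [← hkr q h1]; exact h2.symm
      intro k0 hk0
      set SK := SN.filter (fun q => kk q = k0) with hSK
      rcases SK.eq_empty_or_nonempty with h0 | ⟨q1, hq1⟩
      · rw [h0]; simp only [Finset.card_empty, Nat.cast_zero]; exact hb0
      have hSKm : ∀ q ∈ SK, q ∈ S ∧ q.2.1 = N ∧ kk q = k0 := by
        intro q hq; rw [hSK, Finset.mem_filter] at hq
        exact ⟨(hSNm q hq.1).1, (hSNm q hq.1).2, hq.2⟩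
      obtain ⟨hq1S, hq1N, hq1k⟩ := hSKm q1 hq1
      obtain ⟨r, hr⟩ : ∃ r : ℕ, r = rr q1 := ⟨_, rfl⟩
      have hNkr : N = k0 * r := by rw [hr, ← hq1k, ← hkr q1 hq1S, hq1N]
      have hk0pos : 0 < k0 := by
        rcases Nat.eq_zero_or_pos k0 with h | h
        · rw [h, zero_mul] at hNkr; omega
        · exact h
      have hrpos : 0 < r := by
        rcases Nat.eq_zero_or_pos r with h | h
        · rw [h, mul_zero] at hNkr; omega
        · exact h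
      have hrr : ∀ q ∈ SK, rr q = r := by
        intro q hq
        obtain ⟨h1, h2, h3⟩ := hSKm q hq
        have h4 := hkr q h1
        rw [h2, h3, hNkr] at h4
        exact (Nat.eq_of_mul_eq_mul_left hk0pos h4).symm
      have hk4R : (k0 : ℝ) ^ 4 ≤ 2 * X := by
        have h1 := hk4 q1 hq1S
        rw [hq1k] at h1
        have h2 : ((k0 ^ 4 : ℕ) : ℝ) ≤ (q1.1 : ℝ) := by exact_mod_cast h1
        push_cast at h2
        linarith [(hS q1 hq1S).2.1]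
      have hrR : (1 : ℝ) ≤ (r : ℝ) := by exact_mod_cast hrpos
      rw [← Exc_inj SK N (fun q hq => (hSKm q hq).2.1)]
      refine (exn N Z T X ((r : ℝ) ^ 2) hN.1 hX (one_le_pow₀ hrR) hT hZN _ ?_).trans ?_
      · intro p hp
        rw [Finset.mem_image] at hp
        obtain ⟨q, hq, rfl⟩ := hp
        obtain ⟨h1, h2, h3⟩ := hSKm q hq
        obtain ⟨h4, h5, h6, -⟩ := hS q h1
        rw [h2] at h6
        refine ⟨h6, h4, h5, ?_⟩
        have hd1' := hd1 q h1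
        have hd2' := hd2 q h1
        rw [hrr q hq] at hd1' hd2'
        have hy : 1 ≤ q.2.2.2 := h6.2.2.1
        have hgpos : 0 < Int.gcd q.2.2.1 q.2.2.2 := Int.gcd_pos_of_ne_zero_right _ (by omega)
        have h7 : ((r ^ 2 : ℕ) : ℤ) ∣ (Int.gcd q.2.2.1 q.2.2.2 : ℤ) := by
          push_cast
          exact Int.dvd_coe_gcd hd1' hd2'
        have h8 : r ^ 2 ≤ Int.gcd q.2.2.1 q.2.2.2 :=
          Nat.le_of_dvd hgpos (Int.natCast_dvd_natCast.1 h7)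
        have h9 : ((r ^ 2 : ℕ) : ℝ) ≤ (Int.gcd q.2.2.1 q.2.2.2 : ℝ) := by exact_mod_cast h8
        push_cast at h9
        exact h9
      · have h1 : √((N : ℝ) ^ 5) ≤ 2 * (r : ℝ) ^ 2 * X := by
          apply Real.sqrt_le_iff.2
          refine ⟨by positivity, ?_⟩
          have h2 : (N : ℝ) = k0 * r := by exact_mod_cast hNkr
          calc (N : ℝ) ^ 5 = (N : ℝ) * (k0 : ℝ) ^ 4 * (r : ℝ) ^ 4 := by
                have : (N : ℝ) ^ 5 = (N : ℝ) * (N : ℝ) ^ 4 := by ring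
                rw [this, mul_assoc]
                congr 1
                rw [h2]; ring
            _ ≤ ((2 * X) * (2 * X)) * (r : ℝ) ^ 4 := by
                apply mul_le_mul_of_nonneg_right _ (by positivity)
                exact mul_le_mul hNX hk4R (by positivity) (by linarith)
            _ = (2 * (r : ℝ) ^ 2 * X) ^ 2 := by ring
        have h2 : √((N : ℝ) ^ 5) / ((r : ℝ) ^ 2 * √X) ≤ 2 * √X := by
          rw [div_le_iff₀ (by positivity)]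
          calc √((N : ℝ) ^ 5) ≤ 2 * (r : ℝ) ^ 2 * X := h1
            _ = 2 * (r : ℝ) ^ 2 * (√X * √X) := by rw [hsX2]
            _ = 2 * √X * ((r : ℝ) ^ 2 * √X) := by ring
        rw [hb]
        have h3 : 0 ≤ 8 * T ^ 3 := by positivity
        have h4 : 8 * T ^ 3 * (√X + √((N : ℝ) ^ 5) / ((r : ℝ) ^ 2 * √X)) ≤ 8 * T ^ 3 * (3 * √X) :=
          mul_le_mul_of_nonneg_left (by linarith) h3
        linarith
    exact step2.trans (mul_le_mul_of_nonneg_right hdiv hb0)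
  have hIcc : ((Finset.Icc 2 ⌊2 * M1⌋₊).card : ℝ) ≤ 2 * M1 := by
    rw [Nat.card_Icc]
    have h1 : ⌊2 * M1⌋₊ + 1 - 2 ≤ ⌊2 * M1⌋₊ := by omega
    exact (Nat.cast_le.2 h1).trans (Nat.floor_le (by linarith))
  refine step1.trans ?_
  have hTb : 0 ≤ T * b := by positivity
  refine (mul_le_mul_of_nonneg_right hIcc hTb).trans ?_
  rw [hb]
  have h1 : 0 ≤ T ^ 4 * (M1 * √X) := by positivity
  calc 2 * M1 * (T * (24 * T ^ 3 * √X)) = 48 * (T ^ 4 * (M1 * √X)) := by ring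
    _ ≤ 100 * (T ^ 4 * (M1 * √X)) := by linarith
    _ = _ := by ring

theorem exs (Z : ℕ) (T X M : ℝ) (hX : 1 ≤ X) (hM : 1 ≤ M) (hT : TauB Z T)
    (hZ : 200 * X ^ 3 ≤ (Z : ℝ)) (S : Finset (ℕ × ℕ × ℤ × ℤ))
    (hS : ∀ q ∈ S, X ≤ (q.1 : ℝ) ∧ (q.1 : ℝ) ≤ 2 * X ∧ Sb q.1 M q.2) :
    (S.card : ℝ) ≤ 1000 * T ^ 3 * (M ^ 2 + X ^ ((3 : ℝ) / 4)) := by
  classical
  have hT1 : 1 ≤ T := hT.1
  have hX0 : (0 : ℝ) < X := by linarith
  rcases S.eq_empty_or_nonempty with h0 | ⟨q0, hq0⟩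
  · rw [h0]; simp only [Finset.card_empty, Nat.cast_zero]; positivity
  have hsX : 0 < √X := Real.sqrt_pos.2 hX0
  obtain ⟨w, hw⟩ : ∃ w : ℝ, w = √(√X) := ⟨_, rfl⟩
  have hw0 : 0 < w := by rw [hw]; exact Real.sqrt_pos.2 hsX
  have hw2 : w ^ 2 = √X := by rw [hw]; exact Real.sq_sqrt hsX.le
  have hw4 : w ^ 4 = X := by
    calc w ^ 4 = (w ^ 2) ^ 2 := by ring
      _ = X := by rw [hw2]; exact Real.sq_sqrt hX0.le
  have hw3 : X ^ ((3 : ℝ) / 4) = w ^ 3 := by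
    rw [← hw4, ← Real.rpow_natCast w 4, ← Real.rpow_natCast w 3, ← Real.rpow_mul hw0.le]
    norm_num
  obtain ⟨m, hm⟩ : ∃ m : ℝ, m = √(2 * M) := ⟨_, rfl⟩
  have hm0 : 0 ≤ m := by rw [hm]; exact Real.sqrt_nonneg _
  have hm2 : m ^ 2 = 2 * M := by rw [hm]; exact Real.sq_sqrt (by linarith)
  have hND : ∀ q ∈ S, (q.2.1 : ℝ) ^ 2 ≤ 2 * X := by
    intro q hq
    obtain ⟨-, h2, h3, -⟩ := hS q hq
    have h4 : q.2.1 ^ 2 ≤ q.1 := h3.2.1
    have h5 : ((q.2.1 ^ 2 : ℕ) : ℝ) ≤ (q.1 : ℝ) := by exact_mod_cast h4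
    push_cast at h5
    linarith
  have hMX : M ^ 2 ≤ 2 * X := by
    have h1 := hND q0 hq0
    have h2 : M ≤ (q0.2.1 : ℝ) := (hS q0 hq0).2.2.2.2.1
    exact (pow_le_pow_left₀ (by linarith) h2 2).trans h1
  have hM2w : M ≤ 2 * w ^ 2 := by
    have h1 : M ^ 2 ≤ (2 * w ^ 2) ^ 2 := by
      have : (2 * w ^ 2) ^ 2 = 4 * w ^ 4 := by ring
      rw [this, hw4]; linarith
    exact le_of_sq_le_sq h1 (by positivity)
  have hmw : m ≤ 2 * w := by
    have h1 : m ^ 2 ≤ (2 * w) ^ 2 := by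
      rw [hm2]
      have : (2 * w) ^ 2 = 4 * w ^ 2 := by ring
      linarith
    exact le_of_sq_le_sq h1 (by positivity)
  have hsq : ∀ q ∈ S, q.2.1 = Nat.sqrt q.2.1 ^ 2 := by
    intro q hq
    obtain ⟨s, hs⟩ := (hS q hq).2.2.2.1
    have h1 : q.2.1 = s ^ 2 := by rw [hs]; ring
    conv_rhs => rw [h1, Nat.sqrt_eq']
    exact h1
  set b : ℝ := 8 * T ^ 3 * (√X + 2 * m ^ 3) with hb
  have hb0 : 0 ≤ b := by positivity
  have step1 : (S.card : ℝ) ≤ ((Finset.Icc 1 ⌊m⌋₊).card : ℝ) * b := by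
    refine fib_const S (fun q => Nat.sqrt q.2.1) _ ?_ _ ?_
    · intro q hq
      have h1 := hsq q hq
      have hN2 : 2 ≤ q.2.1 := (hS q hq).2.2.1.1
      have hlt : (q.2.1 : ℝ) < 2 * M := (hS q hq).2.2.2.2.2
      rw [Finset.mem_Icc]
      constructor
      · by_contra hcon
        have : Nat.sqrt q.2.1 = 0 := by omega
        rw [this] at h1
        simp at h1
        omega
      · apply Nat.le_floor
        have h2 : ((Nat.sqrt q.2.1 : ℝ)) ^ 2 ≤ m ^ 2 := by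
          rw [hm2]
          have h3 : ((q.2.1 : ℕ) : ℝ) = (Nat.sqrt q.2.1 : ℝ) ^ 2 := by exact_mod_cast h1
          rw [← h3]; exact hlt.le
        exact le_of_sq_le_sq h2 hm0
    intro s hs
    rw [Finset.mem_Icc] at hs
    have hsm : (s : ℝ) ≤ m := (Nat.cast_le.2 hs.2).trans (Nat.floor_le hm0)
    set SS := S.filter (fun q => Nat.sqrt q.2.1 = s) with hSS
    rcases SS.eq_empty_or_nonempty with h0 | ⟨q1, hq1⟩
    · rw [h0]; simp only [Finset.card_empty, Nat.cast_zero]; exact hb0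
    have hSSm : ∀ q ∈ SS, q ∈ S ∧ q.2.1 = s ^ 2 := by
      intro q hq
      rw [hSS, Finset.mem_filter] at hq
      refine ⟨hq.1, ?_⟩
      rw [hsq q hq.1, hq.2]
    obtain ⟨hq1S, hq1N⟩ := hSSm q1 hq1
    have hN2 : 2 ≤ s ^ 2 := by rw [← hq1N]; exact (hS q1 hq1S).2.2.1.1
    have hNX : (((s ^ 2 : ℕ)) : ℝ) ^ 2 ≤ 2 * X := by
      have := hND q1 hq1S
      rwa [hq1N] at this
    have hZN := Exc_range (s ^ 2) X Z hX hZ hN2 hNX
    rw [← Exc_inj SS (s ^ 2) (fun q hq => (hSSm q hq).2)]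
    refine (exn (s ^ 2) Z T X 1 hN2 hX le_rfl hT hZN _ ?_).trans ?_
    · intro p hp
      rw [Finset.mem_image] at hp
      obtain ⟨q, hq, rfl⟩ := hp
      obtain ⟨h1, h2⟩ := hSSm q hq
      obtain ⟨h4, h5, h6, -⟩ := hS q h1
      rw [h2] at h6
      refine ⟨h6, h4, h5, ?_⟩
      have hy : 1 ≤ q.2.2.2 := h6.2.2.1
      have hgpos : 0 < Int.gcd q.2.2.1 q.2.2.2 := Int.gcd_pos_of_ne_zero_right _ (by omega)
      have : 1 ≤ Int.gcd q.2.2.1 q.2.2.2 := hgpos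
      exact_mod_cast this
    · have hs0 : (0 : ℝ) ≤ s := Nat.cast_nonneg s
      have h7 : √(((s ^ 2 : ℕ) : ℝ) ^ 5) = (s : ℝ) ^ 5 := by
        have : ((s ^ 2 : ℕ) : ℝ) ^ 5 = ((s : ℝ) ^ 5) ^ 2 := by push_cast; ring
        rw [this, Real.sqrt_sq (by positivity)]
      rw [h7, one_mul, hb]
      apply mul_le_mul_of_nonneg_left _ (by positivity)
      have h8 : (s : ℝ) ^ 2 ≤ 2 * √X := by
        have h9 : ((s : ℝ) ^ 2) ^ 2 ≤ (2 * √X) ^ 2 := by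
          have h10 : (2 * √X) ^ 2 = 4 * X := by rw [mul_pow, Real.sq_sqrt hX0.le]; norm_num
          rw [h10]
          push_cast at hNX
          linarith
        exact le_of_sq_le_sq h9 (by positivity)
      have h9 : (s : ℝ) ^ 5 / √X ≤ 2 * m ^ 3 := by
        rw [div_le_iff₀ hsX]
        calc (s : ℝ) ^ 5 = (s : ℝ) ^ 3 * (s : ℝ) ^ 2 := by ring
          _ ≤ m ^ 3 * (2 * √X) := by
              apply mul_le_mul (pow_le_pow_left₀ hs0 hsm 3) h8 (by positivity) (by positivity)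
          _ = 2 * m ^ 3 * √X := by ring
      linarith
  have hIcc : ((Finset.Icc 1 ⌊m⌋₊).card : ℝ) ≤ m := by
    rw [Nat.card_Icc, Nat.add_sub_cancel]
    exact Nat.floor_le hm0
  refine step1.trans ((mul_le_mul_of_nonneg_right hIcc hb0).trans ?_)
  rw [hb, hw3]
  have h1 : m * (8 * T ^ 3 * (√X + 2 * m ^ 3)) = 8 * T ^ 3 * (m * √X + 2 * (m ^ 2) ^ 2) := by ring
  rw [h1, hm2]
  have h2 : m * √X ≤ 2 * w ^ 3 := by
    rw [← hw2]
    calc m * w ^ 2 ≤ (2 * w) * w ^ 2 := mul_le_mul_of_nonneg_right hmw (by positivity)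
      _ = 2 * w ^ 3 := by ring
  have h3 : 0 ≤ T ^ 3 := by positivity
  have h4 : 0 ≤ w ^ 3 := by positivity
  have h5 : 0 ≤ M ^ 2 := by positivity
  calc 8 * T ^ 3 * (m * √X + 2 * (2 * M) ^ 2) ≤ 8 * T ^ 3 * (2 * w ^ 3 + 2 * (2 * M) ^ 2) := by
        apply mul_le_mul_of_nonneg_left _ (by positivity)
        linarith
    _ = T ^ 3 * (16 * w ^ 3 + 64 * M ^ 2) := by ring
    _ ≤ T ^ 3 * (1000 * (M ^ 2 + w ^ 3)) := by
        apply mul_le_mul_of_nonneg_left _ h3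
        linarith
    _ = 1000 * T ^ 3 * (M ^ 2 + w ^ 3) := by ring

end Pool.Agent.PP5F
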