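import Pool.Agent.PP5F.Dcx
import Pool.Agent.PP5F.Exc
import Pool.Agent.PP5F.Clx

/-!
# PP5F/Fin: the classes with `mn K A ~ M1`, `mn K (A ^ 2) ~ M2`, over the fields with `|D| ~ X`

The bound `C X ^ ε (M1 M2 + X ^ (7/8) + X ^ (1/3) (M1 M2) ^ (2/3))`.
-/

set_option autoImplicit false

namespace Pool.Agent.PP5F

open NumberField Pool.Agent.FTA Pool.Agent.FTB Pool.Agent.PP5 nonZeroDivisors

theorem unS {α : Type} (F : Finset (IntermediateField ℚ ℂ))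
    (hF : ∀ K ∈ F, ∃ _ : NumberField K, Module.finrank ℚ K = 2 ∧ (∃ x : K, (x : ℂ).im ≠ 0))
    (A : IntermediateField ℚ ℂ → Finset α) (P : ℕ × α → Prop)
    (hA : ∀ K ∈ F, ∀ a ∈ A K, P (aD K, a)) (B : ℝ)
    (hB : ∀ S : Finset (ℕ × α), (∀ q ∈ S, P q) → (S.card : ℝ) ≤ B) :
    ∑ K ∈ F, ((A K).card : ℝ) ≤ B := by
  classical
  let S : IntermediateField ℚ ℂ → Finset (ℕ × α) := fun K => (A K).image (fun a => (aD K, a))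
  have hS : ∀ K, (S K).card = (A K).card := by
    intro K
    apply Finset.card_image_of_injective
    intro a a' h
    exact (Prod.ext_iff.1 h).2
  have h5 : ((F.biUnion S).card : ℝ) = ∑ K ∈ F, ((A K).card : ℝ) := by
    rw [Finset.card_biUnion]
    · push_cast
      exact Finset.sum_congr rfl fun K _ => by rw [hS K]
    · intro K hK K' hK' hne
      apply Finset.disjoint_left.2
      intro q hq hq'
      apply hne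
      obtain ⟨i1, i2, i3⟩ := hF K (Finset.mem_coe.1 hK)
      obtain ⟨j1, j2, j3⟩ := hF K' (Finset.mem_coe.1 hK')
      obtain ⟨a, _, rfl⟩ := Finset.mem_image.1 hq
      obtain ⟨a', _, h⟩ := Finset.mem_image.1 hq'
      exact uniq K K' i2 i3 j2 j3 (Prod.ext_iff.1 h).1.symm
  rw [← h5]
  apply hB
  intro q hq
  obtain ⟨K, hK, hqK⟩ := Finset.mem_biUnion.1 hq
  obtain ⟨a, ha, rfl⟩ := Finset.mem_image.1 hqK
  exact hA K hK a ha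

theorem mnl (s a b c : ℝ) (ha : 0 ≤ a) (hb : 0 ≤ b) (hc : 0 ≤ c) (h1 : s ≤ a) (h2 : s ≤ b + c) :
    s ≤ c + a ^ ((2 : ℝ) / 3) * b ^ ((1 : ℝ) / 3) := by
  rcases le_total s c with h | h
  · have : 0 ≤ a ^ ((2 : ℝ) / 3) * b ^ ((1 : ℝ) / 3) := by positivity
    linarith
  · have h3 : 0 ≤ s - c := by linarith
    have h4 : s - c ≤ a := by linarith
    have h5 : s - c ≤ b := by linarith
    have h6 : (s - c) ^ ((2 : ℝ) / 3) * (s - c) ^ ((1 : ℝ) / 3) = s - c := by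
      rw [← Real.rpow_add_of_nonneg h3 (by norm_num) (by norm_num)]
      norm_num
    have h7 : (s - c) ^ ((2 : ℝ) / 3) * (s - c) ^ ((1 : ℝ) / 3) ≤
        a ^ ((2 : ℝ) / 3) * b ^ ((1 : ℝ) / 3) := by
      gcongr
    linarith

theorem mnp (X M1 M2 : ℝ) (hX : 1 ≤ X) (hM1 : 1 ≤ M1) (hM2 : 1 ≤ M2) :
    (M1 * √X) ^ ((2 : ℝ) / 3) * (M2 ^ 2) ^ ((1 : ℝ) / 3) =
      X ^ ((1 : ℝ) / 3) * (M1 * M2) ^ ((2 : ℝ) / 3) := by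
  have h0 : 0 ≤ X := by linarith
  have h1 : 0 ≤ M1 := by linarith
  have h2 : 0 ≤ M2 := by linarith
  rw [Real.mul_rpow h1 (Real.sqrt_nonneg _), Real.mul_rpow h1 h2, Real.sqrt_eq_rpow,
    ← Real.rpow_mul h0, ← Real.rpow_natCast, ← Real.rpow_mul h2]
  have e1 : (1 : ℝ) / 2 * (2 / 3) = 1 / 3 := by norm_num
  have e2 : ((2 : ℕ) : ℝ) * (1 / 3) = 2 / 3 := by norm_num
  rw [e1, e2]
  ring

theorem ftp (ε : ℝ) (hε : 0 < ε) : ∃ C : ℝ, 0 < C ∧ ∀ (X M1 M2 : ℝ), 1 ≤ X → 1 ≤ M1 → 1 ≤ M2 →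
    ∀ (F : Finset (IntermediateField ℚ ℂ)) (n : IntermediateField ℚ ℂ → ℕ),
      (∀ K ∈ F, ∃ _ : NumberField K, Module.finrank ℚ K = 2 ∧ (∃ x : K, (x : ℂ).im ≠ 0) ∧
        X ≤ (aD K : ℝ) ∧ (aD K : ℝ) < 2 * X ∧
        n K ≤ Nat.card {A : ClassGroup (𝓞 K) // Tc K M1 M2 A}) →
      ∑ K ∈ F, (n K : ℝ) ≤ C * X ^ ε *
        (M1 * M2 + X ^ ((7 : ℝ) / 8) + X ^ ((1 : ℝ) / 3) * (M1 * M2) ^ ((2 : ℝ) / 3)) := by
  classical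
  obtain ⟨K1, hK1, h1⟩ := dcx ε hε
  obtain ⟨c, hc, hdiv⟩ := divisor_bound (ε := ε / 12) (by positivity)
  refine ⟨K1 + 2 * (1000 * (1 + c * (201 : ℝ) ^ (ε / 12)) ^ 4), by positivity, ?_⟩
  intro X M1 M2 hX hM1 hM2 F n hF
  have hX0 : 0 ≤ X := by linarith
  have hM10 : 0 ≤ M1 := by linarith
  have hM20 : 0 ≤ M2 := by linarith
  have hF' : ∀ K ∈ F, ∃ _ : NumberField K, Module.finrank ℚ K = 2 ∧
      (∃ x : K, (x : ℂ).im ≠ 0) := by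
    intro K hK
    obtain ⟨i1, i2, i3, -⟩ := hF K hK
    exact ⟨i1, i2, i3⟩
  have hloc : ∀ K : IntermediateField ℚ ℂ,
      ∃ (A1 : Finset (ℕ × Pt)) (A2 A3 A4 A5 : Finset (ℕ × ℤ × ℤ)) (e1 e2 : ℕ), K ∈ F →
      ((∀ a ∈ A1, Dat (aD K) a.1 a.2 ∧ (a.2.1 : ℝ) < 2 * M1 ∧ (a.2.2.1 : ℝ) < 2 * M2) ∧
      (∀ a ∈ A2, Ea (aD K) M1 M2 a) ∧ (∀ a ∈ A3, Sb (aD K) M2 a) ∧
      (∀ a ∈ A4, Ea (aD K) M2 M1 a) ∧ (∀ a ∈ A5, Sb (aD K) M1 a) ∧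
      e1 ≤ A2.card ∧ e1 ≤ A3.card ∧ e2 ≤ A4.card ∧ e2 ≤ A5.card ∧
      n K ≤ A1.card + e1 + e2) := by
    intro K
    by_cases hK : K ∈ F
    · obtain ⟨i1, i2, i3, i4, i5, i6⟩ := hF K hK
      obtain ⟨A1, A2, A3, A4, A5, e1, e2, g1, g2, g3, g4, g5, g6, g7, g8, g9, g10⟩ :=
        clx K i2 i3 M1 M2
      exact ⟨A1, A2, A3, A4, A5, e1, e2, fun _ => ⟨g1, g2, g3, g4, g5, g6, g7, g8, g9,
        i6.trans g10⟩⟩
    · exact ⟨∅, ∅, ∅, ∅, ∅, 0, 0, fun h => absurd h hK⟩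
  choose A1 A2 A3 A4 A5 e1 e2 hA using hloc
  have hD : ∀ K ∈ F, X ≤ (aD K : ℝ) ∧ (aD K : ℝ) < 2 * X := by
    intro K hK
    obtain ⟨-, -, -, i4, i5, -⟩ := hF K hK
    exact ⟨i4, i5⟩
  obtain ⟨y, hy⟩ : ∃ y : ℝ, y = X ^ ((1 : ℝ) / 4) := ⟨_, rfl⟩
  have hy1 : 1 ≤ y := by rw [hy]; exact Real.one_le_rpow hX (by norm_num)
  have hy4 : y ^ 4 = X := by
    rw [hy, ← Real.rpow_natCast, ← Real.rpow_mul hX0]
    norm_num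
  have hy7 : y ^ ((7 : ℝ) / 2) = X ^ ((7 : ℝ) / 8) := by
    rw [hy, ← Real.rpow_mul hX0]
    norm_num
  have B1 : ∑ K ∈ F, ((A1 K).card : ℝ) ≤ K1 * X ^ ε * (M1 * M2 + X ^ ((7 : ℝ) / 8)) := by
    refine unS F hF' A1 (fun q => y ^ 4 ≤ (q.1 : ℝ) ∧ (q.1 : ℝ) < 2 * y ^ 4 ∧
      Dat q.1 q.2.1 q.2.2 ∧ (q.2.2.1 : ℝ) < 2 * M1 ∧ (q.2.2.2.1 : ℝ) < 2 * M2) ?_ _ ?_
    · intro K hK a ha
      obtain ⟨g1, -⟩ := hA K hK
      obtain ⟨i1, i2, i3⟩ := g1 a ha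
      obtain ⟨j1, j2⟩ := hD K hK
      exact ⟨by rw [hy4]; exact j1, by rw [hy4]; exact j2, i1, i2, i3⟩
    · intro S hS
      have := h1 y M1 M2 hy1 hM10 hM20 S hS
      rwa [hy4, hy7] at this
  obtain ⟨Z, hZ⟩ : ∃ Z : ℕ, Z = ⌈200 * X ^ 3⌉₊ := ⟨_, rfl⟩
  have hX3 : 1 ≤ X ^ 3 := one_le_pow₀ hX
  have hZ1 : 200 * X ^ 3 ≤ (Z : ℝ) := by rw [hZ]; exact Nat.le_ceil _
  have hZ2 : (Z : ℝ) ≤ 201 * X ^ 3 := by
    have := Nat.ceil_lt_add_one (show (0 : ℝ) ≤ 200 * X ^ 3 by positivity)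
    rw [hZ]
    linarith
  obtain ⟨T, hTd⟩ : ∃ T : ℝ, T = 1 + c * (Z : ℝ) ^ (ε / 12) := ⟨_, rfl⟩
  have hT : TauB Z T := by
    refine ⟨by
      have : (0 : ℝ) ≤ c * (Z : ℝ) ^ (ε / 12) := by positivity
      rw [hTd]
      linarith, ?_⟩
    intro m hm1 hm2
    have hm3 : (m : ℝ) ≤ (Z : ℝ) := by exact_mod_cast hm2
    rw [hTd]
    calc (m.divisors.card : ℝ) ≤ c * (m : ℝ) ^ (ε / 12) := hdiv m (by omega)
      _ ≤ c * (Z : ℝ) ^ (ε / 12) := by gcongr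
      _ ≤ 1 + c * (Z : ℝ) ^ (ε / 12) := by linarith
  have hT1 : 1 ≤ T := hT.1
  have hT4 : T ^ 4 ≤ (1 + c * (201 : ℝ) ^ (ε / 12)) ^ 4 * X ^ ε := by
    have e0 : (1 : ℝ) ≤ X ^ (ε / 4) := Real.one_le_rpow hX (by positivity)
    have e1 : (Z : ℝ) ^ (ε / 12) ≤ (201 : ℝ) ^ (ε / 12) * X ^ (ε / 4) := by
      calc (Z : ℝ) ^ (ε / 12) ≤ (201 * X ^ 3) ^ (ε / 12) :=
            Real.rpow_le_rpow (Nat.cast_nonneg _) hZ2 (by positivity)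
        _ = _ := by
          rw [Real.mul_rpow (by norm_num) (by positivity), ← Real.rpow_natCast,
            ← Real.rpow_mul hX0]
          congr 2
          push_cast
          ring
    have e2 : T ≤ (1 + c * (201 : ℝ) ^ (ε / 12)) * X ^ (ε / 4) := by
      rw [hTd]
      have := mul_le_mul_of_nonneg_left e1 hc.le
      linarith
    calc T ^ 4 ≤ ((1 + c * (201 : ℝ) ^ (ε / 12)) * X ^ (ε / 4)) ^ 4 := by gcongr
      _ = (1 + c * (201 : ℝ) ^ (ε / 12)) ^ 4 * (X ^ (ε / 4)) ^ 4 := by ring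
      _ = _ := by
        congr 1
        rw [← Real.rpow_natCast, ← Real.rpow_mul hX0]
        congr 1
        push_cast
        ring
  -- the exceptional classes
  have key : ∀ (N1 N2 : ℝ) (hN1 : 1 ≤ N1) (hN2 : 1 ≤ N2)
      (E G : IntermediateField ℚ ℂ → Finset (ℕ × ℤ × ℤ)) (e : IntermediateField ℚ ℂ → ℕ)
      (hE : ∀ K ∈ F, ∀ a ∈ E K, Ea (aD K) N1 N2 a) (hG : ∀ K ∈ F, ∀ a ∈ G K, Sb (aD K) N2 a)
      (he1 : ∀ K ∈ F, e K ≤ (E K).card) (he2 : ∀ K ∈ F, e K ≤ (G K).card),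
      ∑ K ∈ F, (e K : ℝ) ≤ 1000 * T ^ 4 *
        (X ^ ((3 : ℝ) / 4) + X ^ ((1 : ℝ) / 3) * (N1 * N2) ^ ((2 : ℝ) / 3)) := by
    intro N1 N2 hN1 hN2 E G e hE hG he1 he2
    have b1 : ∑ K ∈ F, (e K : ℝ) ≤ 100 * T ^ 4 * (N1 * √X) := by
      refine le_trans (Finset.sum_le_sum fun K hK => Nat.cast_le.2 (he1 K hK)) ?_
      refine unS F hF' E (fun q => X ≤ (q.1 : ℝ) ∧ (q.1 : ℝ) ≤ 2 * X ∧ Ea q.1 N1 N2 q.2) ?_ _ ?_
      · intro K hK a ha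
        exact ⟨(hD K hK).1, (hD K hK).2.le, hE K hK a ha⟩
      · intro S hS
        exact exa Z T X N1 N2 hX hN1 hT hZ1 S hS
    have b2 : ∑ K ∈ F, (e K : ℝ) ≤ 1000 * T ^ 3 * (N2 ^ 2 + X ^ ((3 : ℝ) / 4)) := by
      refine le_trans (Finset.sum_le_sum fun K hK => Nat.cast_le.2 (he2 K hK)) ?_
      refine unS F hF' G (fun q => X ≤ (q.1 : ℝ) ∧ (q.1 : ℝ) ≤ 2 * X ∧ Sb q.1 N2 q.2) ?_ _ ?_
      · intro K hK a ha
        exact ⟨(hD K hK).1, (hD K hK).2.le, hG K hK a ha⟩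
      · intro S hS
        exact exs Z T X N2 hX hN2 hT hZ1 S hS
    have hT40 : 0 < 1000 * T ^ 4 := by positivity
    have hN10 : 0 ≤ N1 := by linarith
    have h34 : 0 ≤ X ^ ((3 : ℝ) / 4) := by positivity
    have b3 := mnl ((∑ K ∈ F, (e K : ℝ)) / (1000 * T ^ 4)) (N1 * √X) (N2 ^ 2)
      (X ^ ((3 : ℝ) / 4)) (by positivity) (by positivity) h34 (by
        rw [div_le_iff₀ hT40]
        refine b1.trans ?_
        have : 0 ≤ T ^ 4 * (N1 * √X) := by positivity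
        linarith) (by
        rw [div_le_iff₀ hT40]
        refine b2.trans ?_
        have h5 : T ^ 3 ≤ T ^ 4 := pow_le_pow_right₀ hT1 (by norm_num)
        have h6 : 0 ≤ N2 ^ 2 + X ^ ((3 : ℝ) / 4) := by positivity
        have h7 := mul_le_mul_of_nonneg_right h5 h6
        linarith)
    rw [mnp X N1 N2 hX hN1 hN2, div_le_iff₀ hT40] at b3
    linarith
  have k1 := key M1 M2 hM1 hM2 A2 A3 e1 (fun K hK => (hA K hK).2.1)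
    (fun K hK => (hA K hK).2.2.1) (fun K hK => (hA K hK).2.2.2.2.2.1)
    (fun K hK => (hA K hK).2.2.2.2.2.2.1)
  have k2 := key M2 M1 hM2 hM1 A4 A5 e2 (fun K hK => (hA K hK).2.2.2.1)
    (fun K hK => (hA K hK).2.2.2.2.1) (fun K hK => (hA K hK).2.2.2.2.2.2.2.1)
    (fun K hK => (hA K hK).2.2.2.2.2.2.2.2.1)
  rw [mul_comm M2 M1] at k2
  have h0 : ∑ K ∈ F, (n K : ℝ) ≤ ∑ K ∈ F, (((A1 K).card : ℝ) + (e1 K : ℝ) + (e2 K : ℝ)) := by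
    apply Finset.sum_le_sum
    intro K hK
    have := (hA K hK).2.2.2.2.2.2.2.2.2
    exact_mod_cast this
  rw [Finset.sum_add_distrib, Finset.sum_add_distrib] at h0
  obtain ⟨W, hW⟩ : ∃ W : ℝ, W = M1 * M2 + X ^ ((7 : ℝ) / 8) +
    X ^ ((1 : ℝ) / 3) * (M1 * M2) ^ ((2 : ℝ) / 3) := ⟨_, rfl⟩
  rw [← hW]
  have w1 : M1 * M2 + X ^ ((7 : ℝ) / 8) ≤ W := by
    have : 0 ≤ X ^ ((1 : ℝ) / 3) * (M1 * M2) ^ ((2 : ℝ) / 3) := by positivity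
    rw [hW]
    linarith
  have w2 : X ^ ((3 : ℝ) / 4) + X ^ ((1 : ℝ) / 3) * (M1 * M2) ^ ((2 : ℝ) / 3) ≤ W := by
    have h8 : X ^ ((3 : ℝ) / 4) ≤ X ^ ((7 : ℝ) / 8) :=
      Real.rpow_le_rpow_of_exponent_le hX (by norm_num)
    have h9 : 0 ≤ M1 * M2 := by positivity
    rw [hW]
    linarith
  have hXe : 0 ≤ X ^ ε := by positivity
  have hW0 : 0 ≤ W := by
    rw [hW]
    positivity
  have l1 : K1 * X ^ ε * (M1 * M2 + X ^ ((7 : ℝ) / 8)) ≤ K1 * X ^ ε * W :=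
    mul_le_mul_of_nonneg_left w1 (by positivity)
  have l2 : 1000 * T ^ 4 *
      (X ^ ((3 : ℝ) / 4) + X ^ ((1 : ℝ) / 3) * (M1 * M2) ^ ((2 : ℝ) / 3)) ≤
        1000 * ((1 + c * (201 : ℝ) ^ (ε / 12)) ^ 4 * X ^ ε) * W := by
    gcongr
  calc ∑ K ∈ F, (n K : ℝ) ≤ K1 * X ^ ε * W +
        2 * (1000 * ((1 + c * (201 : ℝ) ^ (ε / 12)) ^ 4 * X ^ ε) * W) := by linarith
    _ = _ := by ring

/-- the form used in the final sum: a power saving as soon as `M1 M2 ≤ X ^ (1 - δ)` -/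
theorem ftpE (δ : ℝ) (hδ : 0 < δ) : ∃ η C : ℝ, 0 < η ∧ 0 < C ∧ ∀ (X M1 M2 : ℝ), 1 ≤ X →
    1 ≤ M1 → 1 ≤ M2 → M1 * M2 ≤ X ^ (1 - δ) →
    ∀ (F : Finset (IntermediateField ℚ ℂ)) (n : IntermediateField ℚ ℂ → ℕ),
      (∀ K ∈ F, ∃ _ : NumberField K, Module.finrank ℚ K = 2 ∧ (∃ x : K, (x : ℂ).im ≠ 0) ∧
        X ≤ (aD K : ℝ) ∧ (aD K : ℝ) < 2 * X ∧
        n K ≤ Nat.card {A : ClassGroup (𝓞 K) // Tc K M1 M2 A}) →
      ∑ K ∈ F, (n K : ℝ) ≤ C * X ^ (1 - η) := by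
  obtain ⟨η, hη⟩ : ∃ η : ℝ, η = min (δ / 3) (1 / 16) := ⟨_, rfl⟩
  have hη0 : 0 < η := by rw [hη]; exact lt_min (by positivity) (by norm_num)
  have hη1 : η ≤ δ / 3 := by rw [hη]; exact min_le_left _ _
  have hη2 : η ≤ 1 / 16 := by rw [hη]; exact min_le_right _ _
  obtain ⟨C, hC, h⟩ := ftp η hη0
  refine ⟨η, 3 * C, hη0, by positivity, ?_⟩
  intro X M1 M2 hX hM1 hM2 hMM F n hF
  have hX0 : 0 < X := by linarith
  have h1 := h X M1 M2 hX hM1 hM2 F n hF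
  have hM0 : 0 ≤ M1 * M2 := by positivity
  have g1 : M1 * M2 ≤ X ^ (1 - 2 * η) :=
    hMM.trans (Real.rpow_le_rpow_of_exponent_le hX (by linarith))
  have g2 : X ^ ((7 : ℝ) / 8) ≤ X ^ (1 - 2 * η) :=
    Real.rpow_le_rpow_of_exponent_le hX (by linarith)
  have g3 : X ^ ((1 : ℝ) / 3) * (M1 * M2) ^ ((2 : ℝ) / 3) ≤ X ^ (1 - 2 * η) := by
    calc X ^ ((1 : ℝ) / 3) * (M1 * M2) ^ ((2 : ℝ) / 3) ≤
          X ^ ((1 : ℝ) / 3) * (X ^ (1 - δ)) ^ ((2 : ℝ) / 3) := by gcongr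
      _ = X ^ ((1 : ℝ) / 3 + (1 - δ) * (2 / 3)) := by
        rw [← Real.rpow_mul hX0.le, ← Real.rpow_add hX0]
      _ ≤ X ^ (1 - 2 * η) := Real.rpow_le_rpow_of_exponent_le hX (by linarith)
  calc ∑ K ∈ F, (n K : ℝ) ≤ C * X ^ η *
        (M1 * M2 + X ^ ((7 : ℝ) / 8) + X ^ ((1 : ℝ) / 3) * (M1 * M2) ^ ((2 : ℝ) / 3)) := h1
    _ ≤ C * X ^ η * (X ^ (1 - 2 * η) + X ^ (1 - 2 * η) + X ^ (1 - 2 * η)) := by gcongr
    _ = 3 * C * (X ^ η * X ^ (1 - 2 * η)) := by ring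
    _ = 3 * C * X ^ (1 - η) := by
      rw [← Real.rpow_add hX0]
      congr 2
      ring

end Pool.Agent.PP5F
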