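import Pool.Agent.FTB.Defs

/-!
# PP5F/Dfa: anisotropic boxes of quadruples

The argument of `Pool/Agent/FTB` with the box `|A| ≤ sA`, `|B| ≤ sB`, `|J| ≤ sJ`, `|K| ≤ sK`
instead of the cube of side `s`.
-/

set_option autoImplicit false

namespace Pool.Agent.PP5F

open Pool.Agent.FTB

/-- the non-zero quadruples of the box -/
noncomputable def Qa (s : ℕ) (sA sB sJ sK : ℝ) : Finset (ℤ × ℤ × ℤ × ℤ) :=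
  (Q4 s).filter fun b => |(b.1 : ℝ)| ≤ sA ∧ |(b.2.1 : ℝ)| ≤ sB ∧ |(b.2.2.1 : ℝ)| ≤ sJ ∧
    |(b.2.2.2 : ℝ)| ≤ sK

theorem mem_Qa (s : ℕ) (sA sB sJ sK : ℝ) (b : ℤ × ℤ × ℤ × ℤ) : b ∈ Qa s sA sB sJ sK ↔
    b ∈ Q4 s ∧ |(b.1 : ℝ)| ≤ sA ∧ |(b.2.1 : ℝ)| ≤ sB ∧ |(b.2.2.1 : ℝ)| ≤ sJ ∧
      |(b.2.2.2 : ℝ)| ≤ sK := by
  unfold Qa
  rw [Finset.mem_filter]

open Classical in
/-- the quadruples of `B` for given `n` and `(c, v)` -/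
noncomputable def Bs (B : Finset (ℤ × ℤ × ℤ × ℤ)) (n c v : ℕ) : Finset (ℤ × ℤ × ℤ × ℤ) :=
  B.filter fun b => DvF n b c v

open Classical in
theorem mem_Bs (B : Finset (ℤ × ℤ × ℤ × ℤ)) (n c v : ℕ) (b : ℤ × ℤ × ℤ × ℤ) :
    b ∈ Bs B n c v ↔ b ∈ B ∧ DvF n b c v := by
  unfold Bs
  exact Finset.mem_filter

end Pool.Agent.PP5F
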