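import Pool.Agent.FTB.Jsm
import Pool.Agent.FTB.Cau
import Pool.Agent.FTB.Swp
import Pool.Agent.FTB.Non
import Pool.Agent.FTB.Dgb
import Pool.Agent.FTB.Dgf
import Pool.Agent.FTB.Gsm
import Pool.Agent.FTB.Avg
import Pool.Agent.PP5F.Dfa

/-! # PP5F/Ava: the average over `(c, v)` for a set of quadruples `B` -/

set_option autoImplicit false

namespace Pool.Agent.PP5F

open Pool.Agent.FTB

theorem sws (C V m : ℕ) (B : Finset (ℤ × ℤ × ℤ × ℤ)) :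
    ∑ x ∈ Cv C V, ∑ n ∈ Nn m x.1 x.2, (n : ℝ) * ((Bs B n x.1 x.2).card : ℝ) =
      ∑ b ∈ B, ∑ n ∈ Finset.Ico 1 m, (n : ℝ) * ((Ac C V n b).card : ℝ) := by
  classical
  have h1 : ∀ x ∈ Cv C V, ∑ n ∈ Nn m x.1 x.2, (n : ℝ) * ((Bs B n x.1 x.2).card : ℝ) =
      ∑ b ∈ B, ∑ n ∈ Finset.Ico 1 m,
        if Nat.Coprime n (10 * x.1 * x.2) ∧ DvF n b x.1 x.2 then (n : ℝ) else 0 := by
    intro x _
    unfold Nn Bs
    rw [Finset.sum_filter, Finset.sum_comm]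
    refine Finset.sum_congr rfl fun n _ => ?_
    split_ifs with h
    · rw [Finset.card_filter]
      push_cast
      rw [Finset.mul_sum]
      refine Finset.sum_congr rfl fun b _ => ?_
      by_cases hd : DvF n b x.1 x.2
      · rw [if_pos hd, if_pos ⟨h, hd⟩, mul_one]
      · rw [if_neg hd, if_neg (fun hh => hd hh.2), mul_zero]
    · symm
      exact Finset.sum_eq_zero fun b _ => if_neg fun hh => h hh.1
  have h2 : ∀ b ∈ B, ∑ n ∈ Finset.Ico 1 m, (n : ℝ) * ((Ac C V n b).card : ℝ) =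
      ∑ x ∈ Cv C V, ∑ n ∈ Finset.Ico 1 m,
        if Nat.Coprime n (10 * x.1 * x.2) ∧ DvF n b x.1 x.2 then (n : ℝ) else 0 := by
    intro b _
    rw [Finset.sum_comm]
    refine Finset.sum_congr rfl fun n _ => ?_
    unfold Ac
    rw [Finset.card_filter]
    push_cast
    rw [Finset.mul_sum]
    refine Finset.sum_congr rfl fun x _ => ?_
    split_ifs <;> simp
  rw [Finset.sum_congr rfl h1, Finset.sum_congr rfl h2, Finset.sum_comm]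

private theorem Avg_Z (Y Z : ℕ) (hZ : (20 * Y) ^ 8 ≤ Z) :
    378 * Y ^ 6 ≤ Z ∧ Y ≤ Z ∧ 8 * Y ^ 4 ≤ Z ∧ 5 * Y ≤ Z ∧ 10 * Y ^ 2 ≤ Z := by
  rcases Nat.eq_zero_or_pos Y with rfl | hY
  · simp
  · have h1 : ∀ k, k ≤ 8 → Y ^ k ≤ Y ^ 8 := fun k hk => Nat.pow_le_pow_right hY hk
    have h2 : (20 * Y) ^ 8 = 25600000000 * Y ^ 8 := by ring
    have h6 := h1 6 (by norm_num)
    have h4 := h1 4 (by norm_num)
    have h3 := h1 2 (by norm_num)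
    have h5 := h1 1 (by norm_num)
    rw [pow_one] at h5
    rw [h2] at hZ
    refine ⟨by linarith, by linarith, by linarith, by linarith, by linarith⟩

private theorem Avg_mul {s x y : ℤ} {i j : ℕ} (hx : |x| ≤ s ^ i) (hy : |y| ≤ s ^ j) :
    |x * y| ≤ s ^ (i + j) := by
  rw [abs_mul, pow_add]
  exact mul_le_mul hx hy (abs_nonneg _) ((abs_nonneg _).trans hx)

private theorem Avg_pow {s x : ℤ} (hx : |x| ≤ s) (k : ℕ) : |x ^ k| ≤ s ^ k := by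
  rw [abs_pow]
  exact pow_le_pow_left₀ (abs_nonneg _) hx k

private theorem Avg_one {s x : ℤ} (hx : |x| ≤ s) : |x| ≤ s ^ 1 := by rwa [pow_one]

private theorem Avg_nat {z : ℤ} {n : ℕ} (h : |z| ≤ (n : ℤ)) : z.natAbs ≤ n := by
  rw [Int.abs_eq_natAbs] at h
  exact_mod_cast h

private theorem Avg_RF (s : ℕ) (A B J K : ℤ) (hA : |A| ≤ s) (hB : |B| ≤ s) (hJ : |J| ≤ s)
    (hK : |K| ≤ s) : (RF A B J K).natAbs ≤ 378 * s ^ 6 := by
  apply Avg_nat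
  have m1 := abs_le.1 (Avg_mul (Avg_pow hA 3) (Avg_pow hK 3))
  have m2 := abs_le.1 (Avg_mul (Avg_mul (Avg_mul (Avg_pow hA 2) (Avg_one hB)) (Avg_one hJ))
    (Avg_pow hK 2))
  have m3 := abs_le.1 (Avg_mul (Avg_mul (Avg_mul (Avg_one hA) (Avg_pow hB 2)) (Avg_pow hJ 2))
    (Avg_one hK))
  have m4 := abs_le.1 (Avg_mul (Avg_one hA) (Avg_pow hJ 5))
  have m5 := abs_le.1 (Avg_mul (Avg_pow hB 5) (Avg_one hK))
  have m6 := abs_le.1 (Avg_mul (Avg_pow hB 3) (Avg_pow hJ 3))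
  norm_num at m1 m2 m3 m4 m5 m6
  unfold RF
  push_cast
  rw [abs_le]
  constructor
  · nlinarith [m1.1, m1.2, m2.1, m2.2, m3.1, m3.2, m4.1, m4.2, m5.1, m5.2, m6.1, m6.2]
  · nlinarith [m1.1, m1.2, m2.1, m2.2, m3.1, m3.2, m4.1, m4.2, m5.1, m5.2, m6.1, m6.2]

private theorem Avg_fF (Y : ℕ) (A B J c v : ℤ) (hA : |A| ≤ Y) (hB : |B| ≤ Y) (hJ : |J| ≤ Y)
    (hc : |c| ≤ Y) (hv : |v| ≤ Y) : (fF A B J c v).natAbs ≤ 8 * Y ^ 4 := by
  apply Avg_nat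
  have m1 := abs_le.1 (Avg_mul (Avg_one hA) (Avg_pow hc 3))
  have m2 := abs_le.1 (Avg_mul (Avg_mul (Avg_one hB) (Avg_one hc)) (Avg_pow hv 2))
  have m3 := abs_le.1 (Avg_mul (Avg_one hJ) (Avg_pow hv 3))
  norm_num at m1 m2 m3
  unfold fF
  push_cast
  rw [abs_le]
  constructor
  · nlinarith [m1.1, m1.2, m2.1, m2.2, m3.1, m3.2]
  · nlinarith [m1.1, m1.2, m2.1, m2.2, m3.1, m3.2]

private theorem Avg_gF (Y : ℕ) (B J K c v : ℤ) (hB : |B| ≤ Y) (hJ : |J| ≤ Y) (hK : |K| ≤ Y)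
    (hc : |c| ≤ Y) (hv : |v| ≤ Y) : (gF B J K c v).natAbs ≤ 8 * Y ^ 4 := by
  apply Avg_nat
  have m0 := pow_nonneg (Int.natCast_nonneg Y) 4
  have m1 := abs_le.1 (Avg_mul (Avg_one hB) (Avg_pow hc 3))
  have m2 := abs_le.1 (Avg_mul (Avg_mul (Avg_one hJ) (Avg_pow hc 2)) (Avg_one hv))
  have m3 := abs_le.1 (Avg_mul (Avg_one hK) (Avg_pow hv 3))
  norm_num at m1 m2 m3
  unfold gF
  push_cast
  rw [abs_le]
  constructor
  · nlinarith [m1.1, m1.2, m2.1, m2.2, m3.1, m3.2]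
  · nlinarith [m1.1, m1.2, m2.1, m2.2, m3.1, m3.2]

private theorem Avg_dv {n j : ℕ} (h : n ∣ j) {b : ℤ × ℤ × ℤ × ℤ} {c v : ℕ} (hj : DvF j b c v) :
    DvF n b c v :=
  ⟨(Int.natCast_dvd_natCast.2 h).trans hj.1, (Int.natCast_dvd_natCast.2 h).trans hj.2⟩

private theorem Avg_mono (B : Finset (ℤ × ℤ × ℤ × ℤ)) (c v : ℕ) {n j : ℕ} (h : n ∣ j) :
    √((Bs B j c v).card : ℝ) ≤ √((Bs B n c v).card : ℝ) := by
  apply Real.sqrt_le_sqrt
  have h1 : (Bs B j c v).card ≤ (Bs B n c v).card := by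
    refine Finset.card_le_card fun b hb => ?_
    rw [mem_Bs] at hb ⊢
    exact ⟨hb.1, Avg_dv h hb.2⟩
  exact_mod_cast h1

theorem avb1 (C V m s Y Z : ℕ) (T β γ : ℝ) (B : Finset (ℤ × ℤ × ℤ × ℤ)) (hB : B ⊆ Q4 s)
    (hβ : (B.card : ℝ) ≤ β)
    (hγ : ∑ b ∈ B.filter (fun b => ¬ RF b.1 b.2.1 b.2.2.1 b.2.2.2 = 0), (gB b : ℝ) ≤ γ)
    (hV : 1 ≤ V) (hT : TauB Z T) (hZ : (20 * Y) ^ 8 ≤ Z)
    (hs : s ≤ Y) (hC : C ≤ Y) (hV2 : 2 * V ≤ Y) (hm : m ≤ Y) :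
    ∑ b ∈ B, ∑ n ∈ Finset.Ico 1 m, (n : ℝ) * ((Ac C V n b).card : ℝ) ≤
      T ^ 4 * (β * m + 4 * (C * V) * γ) +
        72 * T ^ 2 * (s : ℝ) ^ 2 * (T * (C * V) * m + 3 * (m : ℝ) ^ 2) := by
  classical
  obtain ⟨z1, z2, z3, z4, z5⟩ := Avg_Z Y Z hZ
  have hT1 : 1 ≤ T := hT.1
  have hT0 : 0 ≤ T := by linarith
  rw [← Finset.sum_filter_add_sum_filter_not B
    (fun b => RF b.1 b.2.1 b.2.2.1 b.2.2.2 = 0), add_comm]
  refine add_le_add ?_ ?_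
  · have h1 : ∀ b ∈ B.filter (fun b => ¬ RF b.1 b.2.1 b.2.2.1 b.2.2.2 = 0),
        ∑ n ∈ Finset.Ico 1 m, (n : ℝ) * ((Ac C V n b).card : ℝ) ≤
          T ^ 4 * ((m : ℝ) + 4 * (C : ℝ) * V * (gB b : ℝ)) := by
      intro b hb
      rw [Finset.mem_filter] at hb
      have hb0 := hB hb.1
      have hb1 := hb0
      rw [mem_Q4] at hb1
      refine non C V m Z T hV hT b hb.2 ?_ ?_ (hm.trans z2)
      · refine (Avg_RF s _ _ _ _ hb1.2.1 hb1.2.2.1 hb1.2.2.2.1 hb1.2.2.2.2).trans ?_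
        exact (Nat.mul_le_mul_left _ (Nat.pow_le_pow_left hs 6)).trans z1
      · exact (gB_pos s b hb0).2.trans (hs.trans z2)
    refine (Finset.sum_le_sum h1).trans ?_
    rw [← Finset.mul_sum, Finset.sum_add_distrib, Finset.sum_const, nsmul_eq_mul,
      ← Finset.mul_sum]
    refine mul_le_mul_of_nonneg_left ?_ (by positivity)
    have h4 : ((B.filter (fun b => ¬ RF b.1 b.2.1 b.2.2.1 b.2.2.2 = 0)).card : ℝ) ≤ B.card := by
      exact_mod_cast Finset.card_filter_le _ _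
    have h5 : ((B.filter (fun b => ¬ RF b.1 b.2.1 b.2.2.1 b.2.2.2 = 0)).card : ℝ) * m ≤ β * m :=
      mul_le_mul_of_nonneg_right (h4.trans hβ) (Nat.cast_nonneg _)
    have h6 := mul_le_mul_of_nonneg_left hγ (by positivity : (0 : ℝ) ≤ 4 * (C : ℝ) * V)
    have h7 : 4 * (C : ℝ) * V * γ = 4 * (C * V) * γ := by ring
    linarith
  · have h1 : ∀ b ∈ B.filter (fun b => RF b.1 b.2.1 b.2.2.1 b.2.2.2 = 0),
        ∑ n ∈ Finset.Ico 1 m, (n : ℝ) * ((Ac C V n b).card : ℝ) ≤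
          T * C * V * m + 3 * (m : ℝ) ^ 2 := by
      intro b hb
      rw [Finset.mem_filter] at hb
      have hb1 := hB hb.1
      rw [mem_Q4] at hb1
      have hsY : (s : ℤ) ≤ (Y : ℤ) := by exact_mod_cast hs
      refine dgb C V m Z T hV hT b hb1.1 fun x hx => ?_
      rw [mem_Cv] at hx
      have hc : |((x.1 : ℕ) : ℤ)| ≤ (Y : ℤ) := by
        rw [abs_of_nonneg (Int.natCast_nonneg _)]
        exact_mod_cast hx.1.2.trans hC
      have hv : |((x.2 : ℕ) : ℤ)| ≤ (Y : ℤ) := by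
        rw [abs_of_nonneg (Int.natCast_nonneg _)]
        exact_mod_cast hx.2.1.2.le.trans hV2
      refine ⟨(Avg_fF Y _ _ _ _ _ (hb1.2.1.trans hsY) (hb1.2.2.1.trans hsY)
        (hb1.2.2.2.1.trans hsY) hc hv).trans z3, (Avg_gF Y _ _ _ _ _ (hb1.2.2.1.trans hsY)
        (hb1.2.2.2.1.trans hsY) (hb1.2.2.2.2.trans hsY) hc hv).trans z3⟩
    refine (Finset.sum_le_sum h1).trans ?_
    rw [Finset.sum_const, nsmul_eq_mul]
    have h2 := dgf s Z T hT ((Nat.mul_le_mul_left 5 hs).trans z4)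
    have h2' : ((B.filter (fun b => RF b.1 b.2.1 b.2.2.1 b.2.2.2 = 0)).card : ℝ) ≤
        (((Q4 s).filter (fun b => RF b.1 b.2.1 b.2.2.1 b.2.2.2 = 0)).card : ℝ) := by
      exact_mod_cast Finset.card_le_card (Finset.filter_subset_filter _ hB)
    have h3 : (0 : ℝ) ≤ T * C * V * m + 3 * (m : ℝ) ^ 2 := by positivity
    refine (mul_le_mul_of_nonneg_right (h2'.trans h2) h3).trans (le_of_eq ?_)
    ring

theorem avb (C V m s Y Z : ℕ) (T Q β γ : ℝ) (B : Finset (ℤ × ℤ × ℤ × ℤ)) (hB : B ⊆ Q4 s)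
    (hβ : (B.card : ℝ) ≤ β)
    (hγ : ∑ b ∈ B.filter (fun b => ¬ RF b.1 b.2.1 b.2.2.1 b.2.2.2 = 0), (gB b : ℝ) ≤ γ)
    (hV : 1 ≤ V) (hT : TauB Z T)
    (hQ : UniB Z Q) (hZ : (20 * Y) ^ 8 ≤ Z)
    (hs : s ≤ Y) (hC : C ≤ Y) (hV2 : 2 * V ≤ Y) (hm : m ≤ Y) :
    ∑ x ∈ Cv C V, ∑ j ∈ Finset.Ico 1 m, √((Bs B (5 * j) x.1 x.2).card : ℝ) ≤
      Q * √(C * V * (1 + Real.log m)) *
        √(T ^ 4 * (β * m + 4 * (C * V) * γ) +
          72 * T ^ 2 * (s : ℝ) ^ 2 * (T * (C * V) * m + 3 * (m : ℝ) ^ 2)) := by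
  classical
  obtain ⟨z1, z2, z3, z4, z5⟩ := Avg_Z Y Z hZ
  have hQ1 : 1 ≤ Q := hQ.1
  have hQ0 : 0 ≤ Q := by linarith
  have hlog : (0 : ℝ) ≤ 1 + Real.log m := by
    have := Real.log_natCast_nonneg m
    linarith
  have h1 : ∀ x ∈ Cv C V, ∑ j ∈ Finset.Ico 1 m, √((Bs B (5 * j) x.1 x.2).card : ℝ) ≤
      Q * ∑ n ∈ Nn m x.1 x.2, √((Bs B n x.1 x.2).card : ℝ) := by
    intro x hx
    rw [mem_Cv] at hx
    have hc1 : 1 ≤ x.1 := hx.1.1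
    have hv1 : 1 ≤ x.2 := hV.trans hx.2.1.1
    have hr1 : 1 ≤ 10 * x.1 * x.2 := by
      have := Nat.mul_pos (Nat.mul_pos (by norm_num : 0 < 10) hc1) hv1
      exact this
    have hrZ : 10 * x.1 * x.2 ≤ Z := by
      refine le_trans ?_ z5
      have h2 : x.1 ≤ Y := hx.1.2.trans hC
      have h3 : x.2 ≤ Y := hx.2.1.2.le.trans hV2
      calc 10 * x.1 * x.2 ≤ 10 * Y * Y := Nat.mul_le_mul (Nat.mul_le_mul_left _ h2) h3
        _ = 10 * Y ^ 2 := by ring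
    have h2 := jsm m (10 * x.1 * x.2) hr1 (fun n => √((Bs B n x.1 x.2).card : ℝ))
      (fun n => Real.sqrt_nonneg _) (fun j n _ hnj => Avg_mono B x.1 x.2 hnj)
    have h3 : ∑ j ∈ Finset.Ico 1 m, √((Bs B (5 * j) x.1 x.2).card : ℝ) ≤
        ∑ j ∈ Finset.Ico 1 m, √((Bs B j x.1 x.2).card : ℝ) :=
      Finset.sum_le_sum fun j _ => Avg_mono B x.1 x.2 (Dvd.intro_left 5 rfl)
    refine h3.trans (h2.trans ?_)
    have h4 : (((Finset.Icc 1 m).filter fun q =>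
        q.primeFactors ⊆ (10 * x.1 * x.2).primeFactors).card : ℝ) ≤ Q := by
      refine le_trans ?_ (hQ.2 _ hr1 hrZ)
      have h5 : ((Finset.Icc 1 m).filter fun q =>
          q.primeFactors ⊆ (10 * x.1 * x.2).primeFactors).card ≤
          ((Finset.Icc 1 Z).filter fun q =>
          q.primeFactors ⊆ (10 * x.1 * x.2).primeFactors).card := by
        refine Finset.card_le_card fun q hq => ?_
        rw [Finset.mem_filter, Finset.mem_Icc] at hq ⊢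
        exact ⟨⟨hq.1.1, hq.1.2.trans (hm.trans z2)⟩, hq.2⟩
      exact_mod_cast h5
    exact mul_le_mul_of_nonneg_right h4 (Finset.sum_nonneg fun _ _ => Real.sqrt_nonneg _)
  refine (Finset.sum_le_sum h1).trans ?_
  rw [← Finset.mul_sum, mul_assoc]
  refine mul_le_mul_of_nonneg_left ?_ hQ0
  have h2 := cau (Cv C V) m (fun x => Nn m x.1 x.2)
    (fun x n => ((Bs B n x.1 x.2).card : ℝ)) (fun x _ n hn => by
      rw [mem_Nn] at hn
      exact Finset.mem_Ico.2 hn.1) (fun _ _ => Nat.cast_nonneg _)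
  rw [sws] at h2
  refine h2.trans ?_
  have h3 := avb1 C V m s Y Z T β γ B hB hβ hγ hV hT hZ hs hC hV2 hm
  refine mul_le_mul ?_ (Real.sqrt_le_sqrt h3) (Real.sqrt_nonneg _) (Real.sqrt_nonneg _)
  apply Real.sqrt_le_sqrt
  have h4 : ((Cv C V).card : ℝ) ≤ C * V := by exact_mod_cast card_Cv C V
  exact mul_le_mul_of_nonneg_right h4 hlog

end Pool.Agent.PP5F
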