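import Pool.Agent.FTB.Gsm
import Pool.Agent.PP5F.Dfa

/-!
# PP5F/Gsa: the number of quadruples of a box and the sum of the greatest common divisors
-/

set_option autoImplicit false

namespace Pool.Agent.PP5F

open Pool.Agent.FTB

/-- the integers of absolute value at most `x` -/
noncomputable def Ix (x : ℝ) : Finset ℤ := Finset.Icc (-(⌊x⌋₊ : ℤ)) ⌊x⌋₊

theorem mem_Ix {x : ℝ} (hx : 0 ≤ x) (a : ℤ) : a ∈ Ix x ↔ |(a : ℝ)| ≤ x := by
  unfold Ix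
  rw [Finset.mem_Icc, ← abs_le]
  constructor
  · intro h
    have h1 : ((|a| : ℤ) : ℝ) ≤ ((⌊x⌋₊ : ℕ) : ℤ) := by exact_mod_cast h
    push_cast at h1
    exact h1.trans (Nat.floor_le hx)
  · intro h
    have h1 : a.natAbs ≤ ⌊x⌋₊ := by
      apply Nat.le_floor
      rw [Nat.cast_natAbs]
      push_cast
      exact h
    rw [Int.abs_eq_natAbs]
    exact_mod_cast h1

theorem card_Ix (x : ℝ) : (Ix x).card = 2 * ⌊x⌋₊ + 1 := by
  unfold Ix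
  rw [Int.card_Icc]
  omega

theorem zero_mem_Ix (x : ℝ) : (0 : ℤ) ∈ Ix x := by
  unfold Ix
  rw [Finset.mem_Icc]
  omega

/-- pairs of an anisotropic box -/
theorem pair_card {x y d : ℝ} (hx : 0 ≤ x) (hy : 0 ≤ y) (hd : 1 ≤ d) :
    (((Ix (x / d) ×ˢ Ix (y / d)).erase (0, 0)).card : ℝ) ≤ (2 * x + 1) * (2 * y + 1) / d := by
  have h0 : (0, 0) ∈ Ix (x / d) ×ˢ Ix (y / d) := by
    rw [Finset.mem_product]
    exact ⟨zero_mem_Ix _, zero_mem_Ix _⟩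
  have hd0 : 0 < d := by linarith
  rw [Finset.card_erase_of_mem h0, Finset.card_product, card_Ix, card_Ix]
  have h1 : ((2 * ⌊x / d⌋₊ + 1) * (2 * ⌊y / d⌋₊ + 1) - 1 : ℕ) =
      4 * ⌊x / d⌋₊ * ⌊y / d⌋₊ + 2 * ⌊x / d⌋₊ + 2 * ⌊y / d⌋₊ := by
    have : (2 * ⌊x / d⌋₊ + 1) * (2 * ⌊y / d⌋₊ + 1) =
      4 * ⌊x / d⌋₊ * ⌊y / d⌋₊ + 2 * ⌊x / d⌋₊ + 2 * ⌊y / d⌋₊ + 1 := by ring
    omega
  rw [h1]
  push_cast
  have f1 : (⌊x / d⌋₊ : ℝ) ≤ x / d := Nat.floor_le (by positivity)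
  have f2 : (⌊y / d⌋₊ : ℝ) ≤ y / d := Nat.floor_le (by positivity)
  have g1 : (0 : ℝ) ≤ (⌊x / d⌋₊ : ℝ) := Nat.cast_nonneg _
  have g2 : (0 : ℝ) ≤ (⌊y / d⌋₊ : ℝ) := Nat.cast_nonneg _
  have h2 : (⌊x / d⌋₊ : ℝ) * ⌊y / d⌋₊ ≤ x / d * (y / d) := mul_le_mul f1 f2 g2 (by positivity)
  have h3 : x / d * (y / d) ≤ x * y / d := by
    rw [div_mul_div_comm, div_le_div_iff₀ (by positivity) hd0]
    have : x * y * d ≤ x * y * (d * d) := by
      apply mul_le_mul_of_nonneg_left _ (by positivity)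
      nlinarith
    exact this
  have h4 : (2 * x + 1) * (2 * y + 1) / d = 4 * (x * y / d) + 2 * (x / d) + 2 * (y / d) + 1 / d := by
    field_simp
    ring
  have h5 : 0 ≤ 1 / d := by positivity
  rw [h4]
  nlinarith

theorem gsa1 (s : ℕ) (sA sB sJ sK : ℝ) (hA : 0 ≤ sA) (hB : 0 ≤ sB) (hJ : 0 ≤ sJ) (hK : 0 ≤ sK) :
    ((Qa s sA sB sJ sK).card : ℝ) ≤
      (2 * sA + 1) * (2 * sB + 1) * ((2 * sJ + 1) * (2 * sK + 1)) := by
  have h1 : Qa s sA sB sJ sK ⊆ Ix sA ×ˢ Ix sB ×ˢ Ix sJ ×ˢ Ix sK := by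
    intro b hb
    rw [mem_Qa] at hb
    obtain ⟨-, h1, h2, h3, h4⟩ := hb
    simp only [Finset.mem_product]
    exact ⟨(mem_Ix hA _).2 h1, (mem_Ix hB _).2 h2, (mem_Ix hJ _).2 h3, (mem_Ix hK _).2 h4⟩
  have h2 := Finset.card_le_card h1
  rw [Finset.card_product, Finset.card_product, Finset.card_product, card_Ix, card_Ix, card_Ix,
    card_Ix] at h2
  have h3 : ((Qa s sA sB sJ sK).card : ℝ) ≤ (((2 * ⌊sA⌋₊ + 1) * ((2 * ⌊sB⌋₊ + 1) *
      ((2 * ⌊sJ⌋₊ + 1) * (2 * ⌊sK⌋₊ + 1))) : ℕ) : ℝ) := by exact_mod_cast h2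
  refine h3.trans ?_
  push_cast
  have a1 := Nat.floor_le hA
  have a2 := Nat.floor_le hB
  have a3 := Nat.floor_le hJ
  have a4 := Nat.floor_le hK
  rw [mul_assoc ((2 * sA + 1)) (2 * sB + 1)]
  gcongr

private theorem gsa_div (s d : ℕ) (hd : 1 ≤ d) (sA sB sJ sK : ℝ) (hA : 0 ≤ sA) (hB : 0 ≤ sB)
    (hJ : 0 ≤ sJ) (hK : 0 ≤ sK) :
    (((Qa s sA sB sJ sK).filter fun b => RF b.1 b.2.1 b.2.2.1 b.2.2.2 ≠ 0 ∧ d ∣ gB b).card : ℝ) ≤
      (2 * sA + 1) * (2 * sB + 1) * ((2 * sJ + 1) * (2 * sK + 1)) / (d : ℝ) ^ 2 := by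
  classical
  have hd0 : (0 : ℝ) < d := by exact_mod_cast hd
  have hd1 : (1 : ℝ) ≤ d := by exact_mod_cast hd
  have h1 : ((Qa s sA sB sJ sK).filter fun b =>
      RF b.1 b.2.1 b.2.2.1 b.2.2.2 ≠ 0 ∧ d ∣ gB b).card ≤
      (((Ix (sA / d) ×ˢ Ix (sB / d)).erase (0, 0)) ×ˢ
        ((Ix (sJ / d) ×ˢ Ix (sK / d)).erase (0, 0))).card := by
    apply Finset.card_le_card_of_injOn
      (fun b : ℤ × ℤ × ℤ × ℤ => ((b.1 / (d : ℤ), b.2.1 / (d : ℤ)), (b.2.2.1 / (d : ℤ),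
        b.2.2.2 / (d : ℤ))))
    · intro b hb
      have hb' := Finset.mem_filter.1 (Finset.mem_coe.1 hb)
      obtain ⟨hbQ, hR, hbd⟩ := hb'
      rw [mem_Qa] at hbQ
      obtain ⟨-, h2, h3, h4, h5⟩ := hbQ
      obtain ⟨d1, d2, d3, d4⟩ := gB_dvd b
      have hdz : (d : ℤ) ∣ (gB b : ℤ) := Int.natCast_dvd_natCast.2 hbd
      have dz0 : (d : ℤ) ≠ 0 := by exact_mod_cast (by omega : d ≠ 0)
      have key : ∀ (a : ℤ) (x : ℝ), 0 ≤ x → |(a : ℝ)| ≤ x → (d : ℤ) ∣ a →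
          a / (d : ℤ) ∈ Ix (x / d) := by
        intro a x hx ha hda
        obtain ⟨q, rfl⟩ := hda
        rw [Int.mul_ediv_cancel_left _ dz0, mem_Ix (by positivity), le_div_iff₀ hd0]
        push_cast at ha
        rw [abs_mul, abs_of_pos hd0] at ha
        linarith
      have key0 : ∀ a : ℤ, (d : ℤ) ∣ a → a / (d : ℤ) = 0 → a = 0 := by
        intro a hda h0
        rw [← Int.mul_ediv_cancel' hda, h0, mul_zero]
      simp only [Finset.mem_coe, Finset.mem_product, Finset.mem_erase, ne_eq, Prod.mk.injEq]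
      refine ⟨⟨?_, key _ _ hA h2 (hdz.trans d1), key _ _ hB h3 (hdz.trans d2)⟩,
        ⟨?_, key _ _ hJ h4 (hdz.trans d3), key _ _ hK h5 (hdz.trans d4)⟩⟩
      · rintro ⟨e1, e2⟩
        apply hR
        rw [key0 _ (hdz.trans d1) e1, key0 _ (hdz.trans d2) e2]
        unfold RF
        ring
      · rintro ⟨e1, e2⟩
        apply hR
        rw [key0 _ (hdz.trans d3) e1, key0 _ (hdz.trans d4) e2]
        unfold RF
        ring
    · intro b hb b' hb' e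
      have hbd := (Finset.mem_filter.1 (Finset.mem_coe.1 hb)).2.2
      have hbd' := (Finset.mem_filter.1 (Finset.mem_coe.1 hb')).2.2
      obtain ⟨d1, d2, d3, d4⟩ := gB_dvd b
      obtain ⟨d1', d2', d3', d4'⟩ := gB_dvd b'
      have hdz : (d : ℤ) ∣ (gB b : ℤ) := Int.natCast_dvd_natCast.2 hbd
      have hdz' : (d : ℤ) ∣ (gB b' : ℤ) := Int.natCast_dvd_natCast.2 hbd'
      simp only [Prod.mk.injEq] at e
      obtain ⟨⟨e1, e2⟩, e3, e4⟩ := e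
      have key : ∀ a a' : ℤ, (d : ℤ) ∣ a → (d : ℤ) ∣ a' → a / (d : ℤ) = a' / (d : ℤ) → a = a' := by
        intro a a' h1 h2 h3
        rw [← Int.mul_ediv_cancel' h1, ← Int.mul_ediv_cancel' h2, h3]
      exact Prod.ext (key _ _ (hdz.trans d1) (hdz'.trans d1') e1)
        (Prod.ext (key _ _ (hdz.trans d2) (hdz'.trans d2') e2)
          (Prod.ext (key _ _ (hdz.trans d3) (hdz'.trans d3') e3)
            (key _ _ (hdz.trans d4) (hdz'.trans d4') e4)))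
  rw [Finset.card_product] at h1
  have p1 := pair_card hA hB hd1
  have p2 := pair_card hJ hK hd1
  calc (((Qa s sA sB sJ sK).filter fun b =>
      RF b.1 b.2.1 b.2.2.1 b.2.2.2 ≠ 0 ∧ d ∣ gB b).card : ℝ)
      ≤ (((Ix (sA / d) ×ˢ Ix (sB / d)).erase (0, 0)).card : ℝ) *
        (((Ix (sJ / d) ×ˢ Ix (sK / d)).erase (0, 0)).card : ℝ) := by exact_mod_cast h1
    _ ≤ ((2 * sA + 1) * (2 * sB + 1) / d) * ((2 * sJ + 1) * (2 * sK + 1) / d) :=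
        mul_le_mul p1 p2 (Nat.cast_nonneg _) (by positivity)
    _ = _ := by
        field_simp

private theorem gsa_log (s : ℕ) :
    ∑ d ∈ Finset.Icc 1 s, 1 / (d : ℝ) ≤ 1 + Real.log s := by
  have h1 := harmonic_le_one_add_log s
  have h2 : ((harmonic s : ℚ) : ℝ) = ∑ d ∈ Finset.Icc 1 s, 1 / (d : ℝ) := by
    rw [harmonic_eq_sum_Icc]
    push_cast
    exact Finset.sum_congr rfl fun d _ => by rw [one_div]
  rw [← h2]
  exact h1

theorem gsa2 (s : ℕ) (sA sB sJ sK : ℝ) (hA : 0 ≤ sA) (hB : 0 ≤ sB) (hJ : 0 ≤ sJ)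
    (hK : 0 ≤ sK) :
    ∑ b ∈ (Qa s sA sB sJ sK).filter (fun b => ¬ RF b.1 b.2.1 b.2.2.1 b.2.2.2 = 0), (gB b : ℝ) ≤
      (2 * sA + 1) * (2 * sB + 1) * ((2 * sJ + 1) * (2 * sK + 1)) * (1 + Real.log s) := by
  classical
  set Q := (Qa s sA sB sJ sK).filter (fun b => ¬ RF b.1 b.2.1 b.2.2.1 b.2.2.2 = 0) with hQ
  set P : ℝ := (2 * sA + 1) * (2 * sB + 1) * ((2 * sJ + 1) * (2 * sK + 1)) with hP
  have hP0 : 0 ≤ P := by positivity
  have h1 : ∑ b ∈ Q, (gB b : ℝ) ≤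
      ∑ b ∈ Q, ∑ d ∈ Finset.Icc 1 s, if d ∣ gB b then (d : ℝ) else 0 := by
    apply Finset.sum_le_sum
    intro b hb
    rw [hQ, Finset.mem_filter, mem_Qa] at hb
    obtain ⟨g1, g2⟩ := gB_pos s b hb.1.1
    have h2 : (if gB b ∣ gB b then ((gB b : ℕ) : ℝ) else 0) ≤
        ∑ d ∈ Finset.Icc 1 s, if d ∣ gB b then (d : ℝ) else 0 := by
      apply Finset.single_le_sum (f := fun d : ℕ => if d ∣ gB b then (d : ℝ) else 0)
      · intro d _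
        split_ifs
        · exact Nat.cast_nonneg d
        · exact le_refl 0
      · rw [Finset.mem_Icc]
        exact ⟨g1, g2⟩
    rwa [if_pos (dvd_refl _)] at h2
  refine h1.trans ?_
  rw [Finset.sum_comm]
  have h2 : ∀ d ∈ Finset.Icc 1 s, (∑ b ∈ Q, if d ∣ gB b then (d : ℝ) else 0) ≤
      P * (1 / (d : ℝ)) := by
    intro d hd
    rw [Finset.mem_Icc] at hd
    obtain ⟨hd1, hd2⟩ := hd
    have hd0 : (0 : ℝ) < d := by exact_mod_cast hd1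
    rw [← Finset.sum_filter, Finset.sum_const, nsmul_eq_mul]
    have h3 := mul_le_mul_of_nonneg_right (gsa_div s d hd1 sA sB sJ sK hA hB hJ hK) hd0.le
    have h4 : Q.filter (fun b => d ∣ gB b) = (Qa s sA sB sJ sK).filter fun b =>
        RF b.1 b.2.1 b.2.2.1 b.2.2.2 ≠ 0 ∧ d ∣ gB b := by
      rw [hQ, Finset.filter_filter]
    rw [h4]
    refine h3.trans (le_of_eq ?_)
    rw [hP]
    field_simp
  refine (Finset.sum_le_sum h2).trans ?_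
  rw [← Finset.mul_sum]
  exact mul_le_mul_of_nonneg_left (gsa_log s) hP0

end Pool.Agent.PP5F
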