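import Pool.Agent.FTB.Defs

/-!
# PP5F/PrX: the parameter inequalities of an anisotropic box

`a1 = √M1`, `a2 = √M2`, `y ^ 4 = X`, `V y ^ 2 ≤ 6 a1 a2 ^ 2`, `R ≥ a1 ^ 2 a2 ^ 2`, `R ^ 2 ≥ y ^ 7`.
-/

set_option autoImplicit false

namespace Pool.Agent.PP5F

open Pool.Agent.FTB

theorem lsq {x y : ℝ} (h : x ^ 2 ≤ y ^ 2) (hy : 0 ≤ y) : x ≤ y := by
  by_contra hc
  push Not at hc
  nlinarith [sq_nonneg (x - y)]

theorem prX1 (p q r y : ℝ) (hp : 0 < p) (hp2 : p ≤ 3 / 2) (hq : 0 < q) (hq2 : q ≤ 3 / 2)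
    (hr : 0 < r) (hr2 : r ≤ 6) (hy : 1 ≤ y) (hV : 1 ≤ r * y * p * q ^ 2) :
    y ^ 4 / r ^ 2 * ((2 * (y * r ^ 2 * q ^ 5) + 1) * (2 * (6 * (y * r ^ 2) * p ^ 2 * q ^ 3) + 1) *
      ((2 * (300 * (y * r ^ 2) * p ^ 3 * q ^ 2) + 1) *
        (2 * (11000 * (y * r ^ 2) * p ^ 5) + 1))) ≤
      10 ^ 16 * (y ^ 7 + y ^ 8 * p ^ 4 * q ^ 4) := by
  have hy0 : 0 < y := by linarith
  obtain ⟨x, hx⟩ : ∃ x : ℝ, x = y * r ^ 2 := ⟨_, rfl⟩
  have hx0 : 0 < x := by rw [hx]; positivity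
  have hr36 : r ^ 2 ≤ 36 := by nlinarith
  have hx36 : x ≤ 36 * y := by
    rw [hx]
    nlinarith
  rw [← hx]
  obtain ⟨α, hα⟩ : ∃ α : ℝ, α = 2 * q ^ 5 := ⟨_, rfl⟩
  obtain ⟨β, hβ⟩ : ∃ β : ℝ, β = 12 * p ^ 2 * q ^ 3 := ⟨_, rfl⟩
  obtain ⟨γ, hγ⟩ : ∃ γ : ℝ, γ = 600 * p ^ 3 * q ^ 2 := ⟨_, rfl⟩
  obtain ⟨δ, hδ⟩ : ∃ δ : ℝ, δ = 22000 * p ^ 5 := ⟨_, rfl⟩
  have pw : ∀ (t : ℝ) (n : ℕ), 0 < t → t ≤ 3 / 2 → t ^ n ≤ (3 / 2) ^ n := fun t n h0 h1 =>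
    pow_le_pow_left₀ h0.le h1 n
  have bα : α ≤ 16 := by
    rw [hα]
    have := pw q 5 hq hq2
    norm_num at this
    linarith
  have bβ : β ≤ 92 := by
    rw [hβ]
    have h1 := mul_le_mul (pw p 2 hp hp2) (pw q 3 hq hq2) (by positivity) (by positivity)
    norm_num at h1
    linarith
  have bγ : γ ≤ 4560 := by
    rw [hγ]
    have h1 := mul_le_mul (pw p 3 hp hp2) (pw q 2 hq hq2) (by positivity) (by positivity)
    norm_num at h1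
    linarith
  have bδ : δ ≤ 170000 := by
    rw [hδ]
    have := pw p 5 hp hp2
    norm_num at this
    linarith
  have a0 : 0 < α := by rw [hα]; positivity
  have b0 : 0 < β := by rw [hβ]; positivity
  have c0 : 0 < γ := by rw [hγ]; positivity
  have d0 : 0 < δ := by rw [hδ]; positivity
  have hyr : y ^ 4 / r ^ 2 = y ^ 5 / x := by
    rw [hx]
    field_simp
  have hF : (2 * (x * q ^ 5) + 1) * (2 * (6 * x * p ^ 2 * q ^ 3) + 1) *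
      ((2 * (300 * x * p ^ 3 * q ^ 2) + 1) * (2 * (11000 * x * p ^ 5) + 1)) =
      (α * x + 1) * (β * x + 1) * ((γ * x + 1) * (δ * x + 1)) := by
    rw [hα, hβ, hγ, hδ]
    ring
  rw [hyr, hF]
  have e4 : α * β * γ * δ = 316800000 * (p ^ 10 * q ^ 10) := by
    rw [hα, hβ, hγ, hδ]
    ring
  have hexp : y ^ 5 / x * ((α * x + 1) * (β * x + 1) * ((γ * x + 1) * (δ * x + 1))) =
      y ^ 5 / x + (α + β + γ + δ) * y ^ 5 +
      (α * β + α * γ + α * δ + β * γ + β * δ + γ * δ) * (y ^ 5 * x) +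
      (α * β * γ + α * β * δ + α * γ * δ + β * γ * δ) * (y ^ 5 * x ^ 2) +
      (α * β * γ * δ) * (y ^ 5 * x ^ 3) := by
    field_simp
    ring
  rw [hexp]
  have y67 : y ^ 6 ≤ y ^ 7 := pow_le_pow_right₀ hy (by norm_num)
  have y57 : y ^ 5 ≤ y ^ 7 := pow_le_pow_right₀ hy (by norm_num)
  have t0 : y ^ 5 / x ≤ 12 * y ^ 7 := by
    have h1 : (1 : ℝ) ≤ (r * y * p * q ^ 2) ^ 2 := one_le_pow₀ hV
    have h2 : y ^ 5 / x ≤ y ^ 6 * (p ^ 2 * q ^ 4) := by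
      rw [hx, div_le_iff₀ (by positivity)]
      have h3 : y ^ 5 ≤ y ^ 5 * (r * y * p * q ^ 2) ^ 2 := le_mul_of_one_le_right (by positivity) h1
      refine h3.trans (le_of_eq ?_)
      ring
    have h4 : p ^ 2 * q ^ 4 ≤ 12 := by
      have h1 := mul_le_mul (pw p 2 hp hp2) (pw q 4 hq hq2) (by positivity) (by positivity)
      norm_num at h1
      linarith
    calc y ^ 5 / x ≤ y ^ 6 * (p ^ 2 * q ^ 4) := h2
      _ ≤ y ^ 6 * 12 := mul_le_mul_of_nonneg_left h4 (by positivity)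
      _ ≤ 12 * y ^ 7 := by linarith
  have t1 : (α + β + γ + δ) * y ^ 5 ≤ 175000 * y ^ 7 :=
    mul_le_mul (by linarith) y57 (by positivity) (by norm_num)
  have g1 : α * β ≤ 16 * 92 := mul_le_mul bα bβ b0.le (by norm_num)
  have g2 : α * γ ≤ 16 * 4560 := mul_le_mul bα bγ c0.le (by norm_num)
  have g3 : α * δ ≤ 16 * 170000 := mul_le_mul bα bδ d0.le (by norm_num)
  have g4 : β * γ ≤ 92 * 4560 := mul_le_mul bβ bγ c0.le (by norm_num)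
  have g5 : β * δ ≤ 92 * 170000 := mul_le_mul bβ bδ d0.le (by norm_num)
  have g6 : γ * δ ≤ 4560 * 170000 := mul_le_mul bγ bδ d0.le (by norm_num)
  have t2 : (α * β + α * γ + α * δ + β * γ + β * δ + γ * δ) * (y ^ 5 * x) ≤
      10 ^ 9 * (36 * y ^ 7) := by
    apply mul_le_mul (by linarith) _ (by positivity) (by norm_num)
    calc y ^ 5 * x ≤ y ^ 5 * (36 * y) := mul_le_mul_of_nonneg_left hx36 (by positivity)
      _ = 36 * y ^ 6 := by ring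
      _ ≤ 36 * y ^ 7 := by linarith
  have f1 : α * β * γ ≤ 16 * 92 * 4560 := mul_le_mul g1 bγ c0.le (by norm_num)
  have f2 : α * β * δ ≤ 16 * 92 * 170000 := mul_le_mul g1 bδ d0.le (by norm_num)
  have f3 : α * γ * δ ≤ 16 * 4560 * 170000 := mul_le_mul g2 bδ d0.le (by norm_num)
  have f4 : β * γ * δ ≤ 92 * 4560 * 170000 := mul_le_mul g4 bδ d0.le (by norm_num)
  have x2 : x ^ 2 ≤ 1296 * y ^ 2 := by
    calc x ^ 2 ≤ (36 * y) ^ 2 := pow_le_pow_left₀ hx0.le hx36 2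
      _ = 1296 * y ^ 2 := by ring
  have x3 : x ^ 3 ≤ 46656 * y ^ 3 := by
    calc x ^ 3 ≤ (36 * y) ^ 3 := pow_le_pow_left₀ hx0.le hx36 3
      _ = 46656 * y ^ 3 := by ring
  have t3 : (α * β * γ + α * β * δ + α * γ * δ + β * γ * δ) * (y ^ 5 * x ^ 2) ≤
      10 ^ 11 * (1296 * y ^ 7) := by
    apply mul_le_mul (by linarith) _ (by positivity) (by norm_num)
    calc y ^ 5 * x ^ 2 ≤ y ^ 5 * (1296 * y ^ 2) := mul_le_mul_of_nonneg_left x2 (by positivity)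
      _ = 1296 * y ^ 7 := by ring
  have t4 : (α * β * γ * δ) * (y ^ 5 * x ^ 3) ≤ 5 * 10 ^ 15 * (y ^ 8 * p ^ 4 * q ^ 4) := by
    rw [e4]
    have h1 := mul_le_mul (pw p 6 hp hp2) (pw q 6 hq hq2) (by positivity) (by positivity)
    norm_num at h1
    have h2 : p ^ 10 * q ^ 10 ≤ 130 * (p ^ 4 * q ^ 4) := by
      calc p ^ 10 * q ^ 10 = (p ^ 6 * q ^ 6) * (p ^ 4 * q ^ 4) := by ring
        _ ≤ 130 * (p ^ 4 * q ^ 4) := mul_le_mul_of_nonneg_right (by linarith) (by positivity)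
    calc 316800000 * (p ^ 10 * q ^ 10) * (y ^ 5 * x ^ 3)
        ≤ 316800000 * (130 * (p ^ 4 * q ^ 4)) * (y ^ 5 * (46656 * y ^ 3)) := by
          apply mul_le_mul _ _ (by positivity) (by positivity)
          · linarith
          · exact mul_le_mul_of_nonneg_left x3 (by positivity)
      _ = 316800000 * 130 * 46656 * (y ^ 8 * p ^ 4 * q ^ 4) := by ring
      _ ≤ 5 * 10 ^ 15 * (y ^ 8 * p ^ 4 * q ^ 4) :=
          mul_le_mul_of_nonneg_right (by norm_num) (by positivity)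
  have hz : 0 ≤ y ^ 8 * p ^ 4 * q ^ 4 := by positivity
  have hz7 : 0 ≤ y ^ 7 := by positivity
  linarith

theorem prX (V a1 a2 y C U E s m R : ℝ) (hV : 1 ≤ V) (h1 : 1 ≤ a1) (h2 : 1 ≤ a2) (hy : 1 ≤ y)
    (hs0 : 0 ≤ s) (hC1 : V * a1 / a2 ≤ C) (hC2 : C ≤ 3 * V * a1 / a2) (hU0 : 0 ≤ U)
    (hU2 : U ≤ 12 * V * a1 ^ 2 / a2) (hE0 : 0 ≤ E) (hE2 : E ≤ 8 * V * a2)
    (hs : s ≤ 11000 * V ^ 2 * (a2 / a1 ^ 2 + a1 ^ 3 / a2 ^ 4)) (hVx : V * y ^ 2 ≤ 6 * a1 * a2 ^ 2)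
    (k1 : a1 ≤ 3 / 2 * y) (k2 : a2 ≤ 3 / 2 * y) (hm : V ^ 4 * a1 / (136 * a2 ^ 3) ≤ m)
    (hR1 : a1 ^ 2 * a2 ^ 2 ≤ R) (hR2 : y ^ 7 ≤ R ^ 2) :
    C * V * √(U * E) ≤ 10 ^ 13 * R ∧
    C * V * √(U * E) * √((2 * (V ^ 2 * a2 / a1 ^ 2) + 1) * (2 * (6 * V ^ 2 / a2) + 1) *
      ((2 * (300 * V ^ 2 * a1 / a2 ^ 2) + 1) * (2 * (11000 * V ^ 2 * a1 ^ 3 / a2 ^ 4) + 1))) ≤
        10 ^ 13 * R * m ∧
    C * V * √(U * E) * s ≤ 10 ^ 13 * R * √m ∧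
    C * V * (U * E) ≤ 10 ^ 13 * R * m ∧
    C * V * (U * E) * (17 * V * a2 ^ 3 / a1) ≤ 10 ^ 4 * R * V ^ 5 := by
  have hV0 : 0 < V := by linarith
  have ha1 : 0 < a1 := by linarith
  have ha2 : 0 < a2 := by linarith
  have hy0 : 0 < y := by linarith
  have hR0 : 0 < R := lt_of_lt_of_le (by positivity) hR1
  have hC0 : 0 ≤ C := le_trans (by positivity) hC1
  have hCV0 : 0 ≤ C * V := by positivity
  have hCV : C * V ≤ 3 * V ^ 2 * a1 / a2 := by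
    calc C * V ≤ (3 * V * a1 / a2) * V := mul_le_mul_of_nonneg_right hC2 hV0.le
      _ = 3 * V ^ 2 * a1 / a2 := by ring
  have hUE0 : 0 ≤ U * E := by positivity
  have hUE : U * E ≤ 96 * V ^ 2 * a1 ^ 2 := by
    calc U * E ≤ (12 * V * a1 ^ 2 / a2) * (8 * V * a2) :=
          mul_le_mul hU2 hE2 hE0 (by positivity)
      _ = 96 * V ^ 2 * a1 ^ 2 := by field_simp; ring
  have hsq : √(U * E) ≤ 10 * V * a1 := by
    rw [show 10 * V * a1 = √((10 * V * a1) ^ 2) from (Real.sqrt_sq (by positivity)).symm]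
    apply Real.sqrt_le_sqrt
    have h3 := mul_pos (pow_pos hV0 2) (pow_pos ha1 2)
    have h4 : (10 * V * a1) ^ 2 = 96 * V ^ 2 * a1 ^ 2 + 4 * (V ^ 2 * a1 ^ 2) := by ring
    rw [h4]
    linarith only [hUE, h3]
  obtain ⟨T, hT⟩ : ∃ T : ℝ, T = C * V * √(U * E) := ⟨_, rfl⟩
  rw [← hT]
  have hT0 : 0 ≤ T := by rw [hT]; positivity
  have hTle : T ≤ 30 * V ^ 3 * a1 ^ 2 / a2 := by
    calc T ≤ (3 * V ^ 2 * a1 / a2) * (10 * V * a1) := by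
          rw [hT]
          exact mul_le_mul hCV hsq (Real.sqrt_nonneg _) (by positivity)
      _ = 30 * V ^ 3 * a1 ^ 2 / a2 := by ring
  have hVy : V ≤ 6 * a1 * a2 ^ 2 / y ^ 2 := by
    rw [le_div_iff₀ (by positivity)]
    exact hVx
  have hs2 : s ^ 2 ≤ 242000000 * V ^ 4 * (a2 ^ 2 / a1 ^ 4 + a1 ^ 6 / a2 ^ 8) := by
    have e1 : s ^ 2 ≤ (11000 * V ^ 2 * (a2 / a1 ^ 2 + a1 ^ 3 / a2 ^ 4)) ^ 2 :=
      pow_le_pow_left₀ hs0 hs 2
    have e2 : (a2 / a1 ^ 2 + a1 ^ 3 / a2 ^ 4) ^ 2 ≤ 2 * (a2 ^ 2 / a1 ^ 4 + a1 ^ 6 / a2 ^ 8) := by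
      have e3 : a2 ^ 2 / a1 ^ 4 = (a2 / a1 ^ 2) ^ 2 := by rw [div_pow]; ring
      have e4 : a1 ^ 6 / a2 ^ 8 = (a1 ^ 3 / a2 ^ 4) ^ 2 := by rw [div_pow]; ring
      rw [e3, e4]
      have e5 : (a2 / a1 ^ 2 + a1 ^ 3 / a2 ^ 4) ^ 2 =
          2 * ((a2 / a1 ^ 2) ^ 2 + (a1 ^ 3 / a2 ^ 4) ^ 2) -
            (a2 / a1 ^ 2 - a1 ^ 3 / a2 ^ 4) ^ 2 := by ring
      rw [e5]
      exact sub_le_self _ (sq_nonneg _)
    calc s ^ 2 ≤ (11000 * V ^ 2 * (a2 / a1 ^ 2 + a1 ^ 3 / a2 ^ 4)) ^ 2 := e1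
      _ = 121000000 * V ^ 4 * (a2 / a1 ^ 2 + a1 ^ 3 / a2 ^ 4) ^ 2 := by ring
      _ ≤ 121000000 * V ^ 4 * (2 * (a2 ^ 2 / a1 ^ 4 + a1 ^ 6 / a2 ^ 8)) :=
          mul_le_mul_of_nonneg_left e2 (by positivity)
      _ = _ := by ring
  refine ⟨?_, ?_, ?_, ?_, ?_⟩
  · -- (a)
    have e1 : V ^ 3 ≤ 216 * (a1 ^ 3 * a2 ^ 6) / y ^ 6 := by
      calc V ^ 3 ≤ (6 * a1 * a2 ^ 2 / y ^ 2) ^ 3 := pow_le_pow_left₀ hV0.le hVy 3
        _ = 216 * (a1 ^ 3 * a2 ^ 6) / y ^ 6 := by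
          rw [div_pow]
          ring
    have e2 : (a1 * a2) ^ 3 ≤ 12 * y ^ 6 := by
      have h3 : a1 * a2 ≤ 9 / 4 * y ^ 2 := by
        calc a1 * a2 ≤ (3 / 2 * y) * (3 / 2 * y) := mul_le_mul k1 k2 ha2.le (by positivity)
          _ = 9 / 4 * y ^ 2 := by ring
      calc (a1 * a2) ^ 3 ≤ (9 / 4 * y ^ 2) ^ 3 := pow_le_pow_left₀ (by positivity) h3 3
        _ = (729 / 64) * y ^ 6 := by ring
        _ ≤ 12 * y ^ 6 := mul_le_mul_of_nonneg_right (by norm_num) (by positivity)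
    calc T ≤ 30 * V ^ 3 * a1 ^ 2 / a2 := hTle
      _ = 30 * V ^ 3 * (a1 ^ 2 / a2) := by ring
      _ ≤ 30 * (216 * (a1 ^ 3 * a2 ^ 6) / y ^ 6) * (a1 ^ 2 / a2) := by gcongr
      _ = 6480 * (a1 ^ 2 * a2 ^ 2) * ((a1 * a2) ^ 3 / y ^ 6) := by
          field_simp
          ring
      _ ≤ 6480 * (a1 ^ 2 * a2 ^ 2) * 12 := by
          apply mul_le_mul_of_nonneg_left _ (by positivity)
          rw [div_le_iff₀ (by positivity)]
          exact e2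
      _ ≤ 10 ^ 13 * R := by linarith only [hR1, hR0]
  · -- (b)
    obtain ⟨B, hB⟩ : ∃ B : ℝ, B = (2 * (V ^ 2 * a2 / a1 ^ 2) + 1) * (2 * (6 * V ^ 2 / a2) + 1) *
      ((2 * (300 * V ^ 2 * a1 / a2 ^ 2) + 1) * (2 * (11000 * V ^ 2 * a1 ^ 3 / a2 ^ 4) + 1)) :=
      ⟨_, rfl⟩
    rw [← hB]
    have hB0 : 0 ≤ B := by rw [hB]; positivity
    obtain ⟨p, hp⟩ : ∃ p : ℝ, p = a1 / y := ⟨_, rfl⟩
    obtain ⟨q, hq⟩ : ∃ q : ℝ, q = a2 / y := ⟨_, rfl⟩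
    obtain ⟨r, hr⟩ : ∃ r : ℝ, r = V * y ^ 2 / (a1 * a2 ^ 2) := ⟨_, rfl⟩
    have hx := prX1 p q r y (by rw [hp]; positivity)
      (by rw [hp, div_le_iff₀ hy0]; exact k1) (by rw [hq]; positivity)
      (by rw [hq, div_le_iff₀ hy0]; exact k2) (by rw [hr]; positivity)
      (by rw [hr, div_le_iff₀ (by positivity)]; linarith) hy
      (by
        have : r * y * p * q ^ 2 = V := by
          rw [hr, hp, hq]
          field_simp
        rw [this]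
        exact hV)
    have e1 : y ^ 4 / r ^ 2 = (a1 * a2 ^ 2 / V) ^ 2 := by
      rw [hr]
      field_simp
    have e2 : (2 * (y * r ^ 2 * q ^ 5) + 1) * (2 * (6 * (y * r ^ 2) * p ^ 2 * q ^ 3) + 1) *
      ((2 * (300 * (y * r ^ 2) * p ^ 3 * q ^ 2) + 1) *
        (2 * (11000 * (y * r ^ 2) * p ^ 5) + 1)) = B := by
      have f1 : y * r ^ 2 * q ^ 5 = V ^ 2 * a2 / a1 ^ 2 := by
        rw [hr, hq]
        field_simp
      have f2 : 6 * (y * r ^ 2) * p ^ 2 * q ^ 3 = 6 * V ^ 2 / a2 := by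
        rw [hr, hp, hq]
        field_simp
      have f3 : 300 * (y * r ^ 2) * p ^ 3 * q ^ 2 = 300 * V ^ 2 * a1 / a2 ^ 2 := by
        rw [hr, hp, hq]
        field_simp
      have f4 : 11000 * (y * r ^ 2) * p ^ 5 = 11000 * V ^ 2 * a1 ^ 3 / a2 ^ 4 := by
        rw [hr, hp]
        field_simp
      rw [f1, f2, f3, f4, hB]
    have e3 : y ^ 8 * p ^ 4 * q ^ 4 = (a1 ^ 2 * a2 ^ 2) ^ 2 := by
      rw [hp, hq]
      field_simp
    rw [e1, e2, e3] at hx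
    have e4 : (a1 ^ 2 * a2 ^ 2) ^ 2 ≤ R ^ 2 := pow_le_pow_left₀ (by positivity) hR1 2
    have e5 : (a1 * a2 ^ 2 / V * √B) ^ 2 ≤ (2 * 10 ^ 8 * R) ^ 2 := by
      rw [mul_pow, Real.sq_sqrt hB0]
      refine hx.trans ?_
      have : (2 * 10 ^ 8 * R) ^ 2 = 4 * 10 ^ 16 * R ^ 2 := by ring
      rw [this]
      have h6 := sq_nonneg R
      linarith only [h6, e4, hR2]
    have e6 : a1 * a2 ^ 2 / V * √B ≤ 2 * 10 ^ 8 * R := lsq e5 (by positivity)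
    have hm0 : 0 ≤ m := le_trans (by positivity) hm
    calc T * √B ≤ 30 * V ^ 3 * a1 ^ 2 / a2 * √B :=
          mul_le_mul_of_nonneg_right hTle (Real.sqrt_nonneg _)
      _ = 4080 * (V ^ 4 * a1 / (136 * a2 ^ 3)) * (a1 * a2 ^ 2 / V * √B) := by
          field_simp
          ring
      _ ≤ 4080 * m * (2 * 10 ^ 8 * R) := by
          apply mul_le_mul _ e6 (by positivity) (by positivity)
          linarith
      _ ≤ 10 ^ 13 * R * m := by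
          have : 0 ≤ R * m := by positivity
          linarith only [this]
  · -- (c)
    have hm0 : 0 ≤ m := le_trans (by positivity) hm
    have e1 : V ^ 6 ≤ 46656 * (a1 ^ 6 * a2 ^ 12) / y ^ 12 := by
      calc V ^ 6 ≤ (6 * a1 * a2 ^ 2 / y ^ 2) ^ 6 := pow_le_pow_left₀ hV0.le hVy 6
        _ = 46656 * (a1 ^ 6 * a2 ^ 12) / y ^ 12 := by
          rw [div_pow]
          ring
    have w1 : a1 * a2 ^ 11 ≤ 130 * y ^ 12 := by
      calc a1 * a2 ^ 11 ≤ (3 / 2 * y) * (3 / 2 * y) ^ 11 :=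
            mul_le_mul k1 (pow_le_pow_left₀ ha2.le k2 11) (by positivity) (by positivity)
        _ = (3 / 2) ^ 12 * y ^ 12 := by ring
        _ ≤ 130 * y ^ 12 := mul_le_mul_of_nonneg_right (by norm_num) (by positivity)
    have w2 : a1 ^ 11 * a2 ≤ 130 * y ^ 12 := by
      calc a1 ^ 11 * a2 ≤ (3 / 2 * y) ^ 11 * (3 / 2 * y) :=
            mul_le_mul (pow_le_pow_left₀ ha1.le k1 11) k2 ha2.le (by positivity)
        _ = (3 / 2) ^ 12 * y ^ 12 := by ring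
        _ ≤ 130 * y ^ 12 := mul_le_mul_of_nonneg_right (by norm_num) (by positivity)
    have m1 : V ^ 6 ≤ 46656 * 130 * (a1 ^ 2 * a2 ^ 2) ^ 2 * (a1 / a2 ^ 3) := by
      calc V ^ 6 ≤ 46656 * (a1 ^ 6 * a2 ^ 12) / y ^ 12 := e1
        _ = 46656 * (a1 ^ 5 * a2) * (a1 * a2 ^ 11 / y ^ 12) := by
          field_simp
        _ ≤ 46656 * (a1 ^ 5 * a2) * 130 := by
          apply mul_le_mul_of_nonneg_left _ (by positivity)
          rw [div_le_iff₀ (by positivity)]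
          exact w1
        _ = 46656 * 130 * (a1 ^ 2 * a2 ^ 2) ^ 2 * (a1 / a2 ^ 3) := by
          field_simp
    have m2 : V ^ 6 * (a1 ^ 10 / a2 ^ 10) ≤ 46656 * 130 * (a1 ^ 2 * a2 ^ 2) ^ 2 * (a1 / a2 ^ 3) := by
      calc V ^ 6 * (a1 ^ 10 / a2 ^ 10) ≤
            (46656 * (a1 ^ 6 * a2 ^ 12) / y ^ 12) * (a1 ^ 10 / a2 ^ 10) :=
            mul_le_mul_of_nonneg_right e1 (by positivity)
        _ = 46656 * (a1 ^ 5 * a2) * (a1 ^ 11 * a2 / y ^ 12) := by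
          field_simp
        _ ≤ 46656 * (a1 ^ 5 * a2) * 130 := by
          apply mul_le_mul_of_nonneg_left _ (by positivity)
          rw [div_le_iff₀ (by positivity)]
          exact w2
        _ = 46656 * 130 * (a1 ^ 2 * a2 ^ 2) ^ 2 * (a1 / a2 ^ 3) := by
          field_simp
    have hT2 : T ^ 2 ≤ (30 * V ^ 3 * a1 ^ 2 / a2) ^ 2 := pow_le_pow_left₀ hT0 hTle 2
    have e4 : (a1 ^ 2 * a2 ^ 2) ^ 2 ≤ R ^ 2 := pow_le_pow_left₀ (by positivity) hR1 2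
    have main : (T * s) ^ 2 ≤ (10 ^ 13 * R * √m) ^ 2 := by
      calc (T * s) ^ 2 = T ^ 2 * s ^ 2 := by ring
        _ ≤ (30 * V ^ 3 * a1 ^ 2 / a2) ^ 2 *
            (242000000 * V ^ 4 * (a2 ^ 2 / a1 ^ 4 + a1 ^ 6 / a2 ^ 8)) :=
            mul_le_mul hT2 hs2 (by positivity) (by positivity)
        _ = 217800000000 * V ^ 4 * (V ^ 6 + V ^ 6 * (a1 ^ 10 / a2 ^ 10)) := by
            field_simp; ring
        _ ≤ 217800000000 * V ^ 4 * (46656 * 130 * (a1 ^ 2 * a2 ^ 2) ^ 2 * (a1 / a2 ^ 3) +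
              46656 * 130 * (a1 ^ 2 * a2 ^ 2) ^ 2 * (a1 / a2 ^ 3)) := by
            apply mul_le_mul_of_nonneg_left (add_le_add m1 m2) (by positivity)
        _ = 217800000000 * 2 * 46656 * 130 * 136 * (a1 ^ 2 * a2 ^ 2) ^ 2 *
              (V ^ 4 * a1 / (136 * a2 ^ 3)) := by
            field_simp; ring
        _ ≤ 217800000000 * 2 * 46656 * 130 * 136 * R ^ 2 * m := by
            apply mul_le_mul _ hm (by positivity) (by positivity)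
            linarith
        _ ≤ (10 ^ 13) ^ 2 * R ^ 2 * m := by
            have : 0 ≤ R ^ 2 * m := by positivity
            linarith only [this]
        _ = (10 ^ 13 * R * √m) ^ 2 := by
            rw [mul_pow, mul_pow, Real.sq_sqrt hm0]
    exact lsq main (by positivity)
  · -- (d)
    have hm0 : 0 ≤ m := le_trans (by positivity) hm
    calc C * V * (U * E) ≤ (3 * V ^ 2 * a1 / a2) * (96 * V ^ 2 * a1 ^ 2) :=
          mul_le_mul hCV hUE hUE0 (by positivity)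
      _ = 39168 * (a1 ^ 2 * a2 ^ 2) * (V ^ 4 * a1 / (136 * a2 ^ 3)) := by field_simp; ring
      _ ≤ 39168 * R * m := by
          apply mul_le_mul _ hm (by positivity) (by positivity)
          linarith
      _ ≤ 10 ^ 13 * R * m := by
          have : 0 ≤ R * m := by positivity
          linarith only [this]
  · -- (e)
    calc C * V * (U * E) * (17 * V * a2 ^ 3 / a1)
        ≤ (3 * V ^ 2 * a1 / a2) * (96 * V ^ 2 * a1 ^ 2) * (17 * V * a2 ^ 3 / a1) := by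
          apply mul_le_mul_of_nonneg_right _ (by positivity)
          exact mul_le_mul hCV hUE hUE0 (by positivity)
      _ = 4896 * (a1 ^ 2 * a2 ^ 2) * V ^ 5 := by field_simp; ring
      _ ≤ 10 ^ 4 * R * V ^ 5 := by
          apply mul_le_mul_of_nonneg_right _ (by positivity)
          linarith only [hR1, hR0]

end Pool.Agent.PP5F
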