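import Pool.Agent.FTB.Defs

/-! # PP5F/PrY: the final inequality for an anisotropic box -/

set_option autoImplicit false

namespace Pool.Agent.PP5F

open Pool.Agent.FTB

theorem prY (P UE s m R L T Q B S1 : ℝ) (hP : 0 ≤ P) (hUE : 0 ≤ UE) (hs : 0 ≤ s) (hm : 1 ≤ m)
    (hR : 0 ≤ R) (hL : 1 ≤ L) (hT : 1 ≤ T) (hQ : 1 ≤ Q) (hB : 0 ≤ B) (hmP : m ≤ P)
    (h0 : P * √UE ≤ 10 ^ 13 * R) (h1 : P * √UE * √B ≤ 10 ^ 13 * R * m)
    (h2 : P * √UE * s ≤ 10 ^ 13 * R * √m) (h3 : P * UE ≤ 10 ^ 13 * R * m)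
    (hS : S1 ≤ Q * √(P * L) * √(T ^ 4 * (B * m + 4 * P * (B * L)) +
      72 * T ^ 2 * s ^ 2 * (T * P * m + 3 * m ^ 2))) :
    2 / m * (9 * UE * P + 14 * (L * √UE) * (m * P + S1)) ≤ 10 ^ 16 * Q * T ^ 2 * L ^ 2 * R := by
  obtain ⟨a, ha⟩ : ∃ a : ℝ, a = √UE := ⟨_, rfl⟩
  rw [← ha] at h0 h1 h2 ⊢
  have ha0 : 0 ≤ a := by rw [ha]; exact Real.sqrt_nonneg _
  have hr0 : 0 ≤ √m := Real.sqrt_nonneg _
  have hm0 : (0 : ℝ) < m := by linarith
  have hrm : √m * √m = m := Real.mul_self_sqrt hm0.le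
  have hL0 : (0 : ℝ) ≤ L := by linarith
  have hQ0 : (0 : ℝ) ≤ Q := by linarith
  have hT0 : (0 : ℝ) ≤ T := by linarith
  have hPP : √P * √P = P := Real.mul_self_sqrt hP
  have hLL' : √L * √L = L := Real.mul_self_sqrt hL0
  have hBB : √B * √B = B := Real.mul_self_sqrt hB
  have hb0 := Real.sqrt_nonneg B
  have hl0 := Real.sqrt_nonneg L
  have hp0 := Real.sqrt_nonneg P
  -- the radicand
  have hrad : T ^ 4 * (B * m + 4 * P * (B * L)) +
      72 * T ^ 2 * s ^ 2 * (T * P * m + 3 * m ^ 2) ≤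
      (T ^ 2 * (√P * (3 * (√L * √B) + 17 * s * √m))) ^ 2 := by
    have e1 : (T ^ 2 * (√P * (3 * (√L * √B) + 17 * s * √m))) ^ 2 =
        T ^ 4 * (P * (9 * (L * B) + 102 * (s * √m * (√L * √B)) + 289 * s ^ 2 * m)) := by
      calc (T ^ 2 * (√P * (3 * (√L * √B) + 17 * s * √m))) ^ 2
          = T ^ 4 * ((√P * √P) * (9 * ((√L * √L) * (√B * √B)) +
            102 * (s * √m * (√L * √B)) + 289 * s ^ 2 * (√m * √m))) := by
            ring
        _ = _ := by rw [hPP, hLL', hBB, hrm]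
    rw [e1]
    have a1 : B * m ≤ P * (L * B) := by
      calc B * m ≤ B * P := mul_le_mul_of_nonneg_left hmP hB
        _ = 1 * (B * P) := (one_mul _).symm
        _ ≤ L * (B * P) := mul_le_mul_of_nonneg_right hL (by positivity)
        _ = _ := by ring
    have a2 : 3 * m ^ 2 ≤ 3 * T * P * m := by
      have : m ≤ T * P := hmP.trans (le_mul_of_one_le_left hP hT)
      calc 3 * m ^ 2 = 3 * (m * m) := by ring
        _ ≤ 3 * ((T * P) * m) :=
            mul_le_mul_of_nonneg_left (mul_le_mul_of_nonneg_right this hm0.le) (by norm_num)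
        _ = _ := by ring
    have a3 : T * P * m + 3 * m ^ 2 ≤ 4 * T * P * m := by linarith
    have a4 : 72 * T ^ 2 * s ^ 2 * (T * P * m + 3 * m ^ 2) ≤ 72 * T ^ 2 * s ^ 2 * (4 * T * P * m) :=
      mul_le_mul_of_nonneg_left a3 (by positivity)
    have a5 : 72 * T ^ 2 * s ^ 2 * (4 * T * P * m) ≤ T ^ 4 * (P * (288 * s ^ 2 * m)) := by
      have : T ^ 3 ≤ T ^ 4 := pow_le_pow_right₀ hT (by norm_num)
      have h0 : 0 ≤ 288 * s ^ 2 * P * m := by positivity
      calc 72 * T ^ 2 * s ^ 2 * (4 * T * P * m) = T ^ 3 * (288 * s ^ 2 * P * m) := by ring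
        _ ≤ T ^ 4 * (288 * s ^ 2 * P * m) := mul_le_mul_of_nonneg_right this h0
        _ = _ := by ring
    have a6 : T ^ 4 * (B * m + 4 * P * (B * L)) ≤ T ^ 4 * (P * (9 * (L * B))) := by
      apply mul_le_mul_of_nonneg_left _ (by positivity)
      have : 0 ≤ P * (L * B) := by positivity
      linarith
    have a7 : 0 ≤ T ^ 4 * (P * (102 * (s * √m * (√L * √B)) + s ^ 2 * m)) := by positivity
    calc T ^ 4 * (B * m + 4 * P * (B * L)) + 72 * T ^ 2 * s ^ 2 * (T * P * m + 3 * m ^ 2)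
        ≤ T ^ 4 * (P * (9 * (L * B))) + T ^ 4 * (P * (288 * s ^ 2 * m)) := by linarith
      _ ≤ T ^ 4 * (P * (9 * (L * B))) + T ^ 4 * (P * (288 * s ^ 2 * m)) +
          T ^ 4 * (P * (102 * (s * √m * (√L * √B)) + s ^ 2 * m)) := by linarith
      _ = _ := by ring
  have hsq : √(T ^ 4 * (B * m + 4 * P * (B * L)) +
      72 * T ^ 2 * s ^ 2 * (T * P * m + 3 * m ^ 2)) ≤
      T ^ 2 * (√P * (3 * (√L * √B) + 17 * s * √m)) := by
    apply Real.sqrt_le_iff.2
    exact ⟨by positivity, hrad⟩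
  have hsL : √L ≤ L := by
    apply Real.sqrt_le_iff.2
    exact ⟨hL0, le_self_pow₀ hL (by norm_num)⟩
  have hS2 : S1 ≤ Q * L * T ^ 2 * P * (3 * √B + 17 * s * √m) := by
    refine hS.trans ?_
    calc Q * √(P * L) * √(T ^ 4 * (B * m + 4 * P * (B * L)) +
          72 * T ^ 2 * s ^ 2 * (T * P * m + 3 * m ^ 2))
        ≤ Q * √(P * L) * (T ^ 2 * (√P * (3 * (√L * √B) + 17 * s * √m))) :=
          mul_le_mul_of_nonneg_left hsq (by positivity)
      _ = Q * T ^ 2 * (√P * √P) * (3 * ((√L * √L) * √B) + √L * (17 * s * √m)) := by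
          rw [Real.sqrt_mul hP]
          ring
      _ = Q * T ^ 2 * P * (3 * (L * √B) + √L * (17 * s * √m)) := by rw [hPP, hLL']
      _ ≤ Q * T ^ 2 * P * (3 * (L * √B) + L * (17 * s * √m)) := by
          apply mul_le_mul_of_nonneg_left _ (by positivity)
          have : √L * (17 * s * √m) ≤ L * (17 * s * √m) :=
            mul_le_mul_of_nonneg_right hsL (by positivity)
          linarith
      _ = _ := by ring
  -- the three terms
  obtain ⟨W, hW⟩ : ∃ W : ℝ, W = Q * T ^ 2 * L ^ 2 := ⟨_, rfl⟩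
  have hQT : 1 ≤ Q * T ^ 2 := one_le_mul_of_one_le_of_one_le hQ (one_le_pow₀ hT)
  have hLL : L ≤ L ^ 2 := le_self_pow₀ hL (by norm_num)
  have hWL : L ≤ W := by
    calc L ≤ L ^ 2 := hLL
      _ = 1 * L ^ 2 := (one_mul _).symm
      _ ≤ Q * T ^ 2 * L ^ 2 := mul_le_mul_of_nonneg_right hQT (by positivity)
      _ = W := hW.symm
  have hW1 : 1 ≤ W := hL.trans hWL
  have hXm : 0 ≤ R * m := mul_nonneg hR hm0.le
  have t1 : 18 * (UE * P) ≤ 18 * 10 ^ 13 * (W * (R * m)) := by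
    have : R * m ≤ W * (R * m) := le_mul_of_one_le_left hXm hW1
    linarith
  have t2 : 28 * (L * a * (m * P)) ≤ 28 * 10 ^ 13 * (W * (R * m)) := by
    have b1 : L * a * (m * P) ≤ L * m * (10 ^ 13 * R) := by
      calc L * a * (m * P) = L * m * (P * a) := by ring
        _ ≤ L * m * (10 ^ 13 * R) := mul_le_mul_of_nonneg_left h0 (by positivity)
    have b2 : L * (R * m) ≤ W * (R * m) := mul_le_mul_of_nonneg_right hWL hXm
    linarith
  have t3 : 28 * (L * a * S1) ≤ 28 * (20 * 10 ^ 13) * (W * (R * m)) := by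
    have b1 : L * a * S1 ≤ L * a * (Q * L * T ^ 2 * P * (3 * √B + 17 * s * √m)) :=
      mul_le_mul_of_nonneg_left hS2 (by positivity)
    have b2 : L * a * (Q * L * T ^ 2 * P * (3 * √B + 17 * s * √m)) =
        W * (3 * (P * a * √B) + 17 * (P * a * s * √m)) := by
      rw [hW]
      ring
    have b3 : P * a * s * √m ≤ 10 ^ 13 * R * m := by
      calc P * a * s * √m ≤ 10 ^ 13 * R * √m * √m := mul_le_mul_of_nonneg_right h2 hr0
        _ = 10 ^ 13 * R * (√m * √m) := by ring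
        _ = _ := by rw [hrm]
    have b4 : W * (3 * (P * a * √B) + 17 * (P * a * s * √m)) ≤
        W * (3 * (10 ^ 13 * R * m) + 17 * (10 ^ 13 * R * m)) := by
      apply mul_le_mul_of_nonneg_left _ (by linarith)
      linarith
    calc 28 * (L * a * S1) ≤ 28 * (W * (3 * (P * a * √B) + 17 * (P * a * s * √m))) := by
          rw [← b2]
          linarith
      _ ≤ 28 * (W * (3 * (10 ^ 13 * R * m) + 17 * (10 ^ 13 * R * m))) := by linarith
      _ = _ := by ring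
  have hfin : 2 * (9 * UE * P + 14 * (L * a) * (m * P + S1)) ≤ 10 ^ 16 * (W * (R * m)) := by
    have e : 2 * (9 * UE * P + 14 * (L * a) * (m * P + S1)) =
        18 * (UE * P) + 28 * (L * a * (m * P)) + 28 * (L * a * S1) := by ring
    rw [e]
    have hWX : 0 ≤ W * (R * m) := by positivity
    linarith
  have e2 : 2 / m * (9 * UE * P + 14 * (L * a) * (m * P + S1)) =
      2 * (9 * UE * P + 14 * (L * a) * (m * P + S1)) / m := by ring
  rw [e2, div_le_iff₀ hm0]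
  refine hfin.trans (le_of_eq ?_)
  rw [hW]
  ring

end Pool.Agent.PP5F
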