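import Pool.Agent.FTB.BxI
import Pool.Agent.FTB.BxF
import Pool.Agent.FTB.BxP
import Pool.Agent.FTB.PrA
import Pool.Agent.FTB.PrB
import Pool.Agent.PP5F.Bna
import Pool.Agent.PP5F.Tca
import Pool.Agent.PP5F.Ava
import Pool.Agent.PP5F.Gsa
import Pool.Agent.PP5F.PrX
import Pool.Agent.PP5F.PrY

/-! # PP5F/Bxb: anisotropic boxes with `m ≥ 2` -/

set_option autoImplicit false

namespace Pool.Agent.PP5F

open Pool.Agent.FTB

/-- the quadruples of the box with parameters `M1, M2, V` -/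
noncomputable def QV (M1 M2 V s : ℕ) : Finset (ℤ × ℤ × ℤ × ℤ) :=
  Qa s ((V : ℝ) ^ 2 * √(M2 : ℝ) / (√(M1 : ℝ)) ^ 2) (6 * (V : ℝ) ^ 2 / √(M2 : ℝ))
    (300 * (V : ℝ) ^ 2 * √(M1 : ℝ) / (√(M2 : ℝ)) ^ 2)
    (11000 * (V : ℝ) ^ 2 * (√(M1 : ℝ)) ^ 3 / (√(M2 : ℝ)) ^ 4)

theorem bxc' (M1 M2 V X U E C s m : ℕ) (h : PB M1 M2 V X U E C s m) (x : ℕ × ℕ)
    (hx : x ∈ Cv C V) (cb : ℤ) (hcb : (x.2 : ℤ) ^ 5 ∣ cb * x.1 - 1) (j : ℕ)
    (hj : j ∈ Finset.Ico 1 m) :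
    ((H0 ((j : ℝ) * ((cb : ℝ) ^ 5 / x.2)) ((j : ℝ) * (-(cb : ℝ) ^ 5 * x.1 ^ 2 / x.2 ^ 3))
      ((j : ℝ) * (-(cb : ℝ) ^ 5 * x.1 ^ 4 / x.2 ^ 5)) U E).card : ℝ) ≤
      1 + ((Bs (QV M1 M2 V s) (5 * j) x.1 x.2).card : ℝ) := by
  obtain ⟨hx1, hx2, hx3⟩ := (mem_Cv C V x).1 hx
  obtain ⟨hj1, hj2⟩ := Finset.mem_Ico.1 hj
  have h1 : (1 : ℝ) ≤ √(M1 : ℝ) := by
    rw [Real.one_le_sqrt]
    exact_mod_cast h.hM1
  have h2 : (1 : ℝ) ≤ √(M2 : ℝ) := by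
    rw [Real.one_le_sqrt]
    exact_mod_cast h.hM2
  have hc : (x.1 : ℝ) ≤ 3 * (V : ℝ) * √(M1 : ℝ) / √(M2 : ℝ) := by
    refine le_trans ?_ h.hC1
    exact_mod_cast hx1.2
  have hjm : (j : ℝ) ≤ (V : ℝ) ^ 4 * √(M1 : ℝ) / (68 * (√(M2 : ℝ)) ^ 3) := by
    refine le_trans ?_ h.hm1
    exact_mod_cast hj2.le
  obtain ⟨p1, p2, p3, p4, p5, p6, p7, p8⟩ := prA (V : ℝ) (√(M1 : ℝ)) (√(M2 : ℝ)) (x.1 : ℝ) (x.2 : ℝ)
    (j : ℝ) (U : ℝ) (E : ℝ) (by exact_mod_cast h.hV) h1 h2 (Nat.cast_nonneg _) hc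
    (by exact_mod_cast hx2.1) (by exact_mod_cast hx2.2.le) (Nat.cast_nonneg _) hjm
    h.hU1 h.hU2 h.hE1 h.hE2
  have hs := h.hs2
  unfold sig at hs
  exact bna x.1 x.2 j U E s cb hx1.1 (h.hV.trans hx2.1) hj1 h.hU h.hE hx3 hcb _ _ _ _ p1 p2 p3 p4
    ⟨p5.trans_lt hs, p6.trans_lt hs, p7.trans_lt hs, p8.trans_lt hs⟩

private theorem bxb_log (X n : ℕ) (L : ℝ) (hX : 1 ≤ X) (hn : 1 ≤ n) (hnX : n ≤ 10 ^ 6 * X)
    (hL : 20 + Real.log X ≤ L) : 1 + Real.log n ≤ L := by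
  have h1 : Real.log (n : ℝ) ≤ Real.log (10 ^ 6 * (X : ℝ)) := by
    apply Real.log_le_log
    · exact_mod_cast hn
    · exact_mod_cast hnX
  have hX0 : (X : ℝ) ≠ 0 := by
    have : (0 : ℝ) < X := by exact_mod_cast hX
    exact this.ne'
  rw [Real.log_mul (by norm_num) hX0] at h1
  have h2 : Real.log (10 ^ 6) ≤ 19 := by
    rw [Real.log_le_iff_le_exp (by norm_num)]
    have h3 := Real.exp_one_gt_d9
    have h4 : Real.exp 19 = (Real.exp 1) ^ 19 := by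
      rw [← Real.exp_nat_mul]
      norm_num
    rw [h4]
    have h5 : (2.7 : ℝ) ^ 19 ≤ (Real.exp 1) ^ 19 := by
      apply pow_le_pow_left₀ (by norm_num)
      linarith
    norm_num at h5 ⊢
    linarith
  linarith

private theorem bxb_sum (I : Finset (ℕ × ℕ)) (m : ℕ) (f : ℕ × ℕ → ℕ → ℝ) :
    ∑ x ∈ I, ∑ j ∈ Finset.Ico 1 m, (1 + f x j) =
      (I.card : ℝ) * ((m - 1 : ℕ) : ℝ) + ∑ x ∈ I, ∑ j ∈ Finset.Ico 1 m, f x j := by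
  have h : ∀ x ∈ I, ∑ j ∈ Finset.Ico 1 m, (1 + f x j) =
      ((m - 1 : ℕ) : ℝ) + ∑ j ∈ Finset.Ico 1 m, f x j := by
    intro x _
    rw [Finset.sum_add_distrib, Finset.sum_const, Nat.card_Ico, nsmul_eq_mul, mul_one]
  rw [Finset.sum_congr rfl h, Finset.sum_add_distrib, Finset.sum_const, nsmul_eq_mul]

theorem bxb' (M1 M2 V X U E C s m Z : ℕ) (T Q L y R : ℝ) (h : PB M1 M2 V X U E C s m)
    (hm : 2 ≤ m) (hT : TauB Z T) (hQ : UniB Z Q) (hZ : (2 * 10 ^ 7 * X) ^ 8 ≤ Z)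
    (hL : 20 + Real.log X ≤ L) (hy : 1 ≤ y)
    (hVx : (V : ℝ) * y ^ 2 ≤ 6 * √(M1 : ℝ) * √(M2 : ℝ) ^ 2) (k1 : √(M1 : ℝ) ≤ 3 / 2 * y)
    (k2 : √(M2 : ℝ) ≤ 3 / 2 * y) (hR1 : (M1 : ℝ) * M2 ≤ R) (hR2 : y ^ 7 ≤ R ^ 2)
    (S : Finset Pt) (hS : ∀ q ∈ S, InB M1 M2 V q) :
    (S.card : ℝ) ≤ 10 ^ 16 * Q * T ^ 2 * L ^ 2 * R := by
  have hM1 := h.hM1
  have hM2 := h.hM2
  have hX : 1 ≤ X := (Nat.one_le_pow 2 _ hM1).trans h.hX1
  have hXR : (1 : ℝ) ≤ X := by exact_mod_cast hX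
  have hVR : (1 : ℝ) ≤ V := by exact_mod_cast h.hV
  have hCR : (1 : ℝ) ≤ C := by exact_mod_cast h.hC
  have hmR : (2 : ℝ) ≤ m := by exact_mod_cast hm
  have hUR : (1 : ℝ) ≤ U := by exact_mod_cast h.hU
  have hER : (1 : ℝ) ≤ E := by exact_mod_cast h.hE
  have hL1 : 1 ≤ L := by
    have := Real.log_nonneg hXR
    linarith
  have ha1 : (1 : ℝ) ≤ √(M1 : ℝ) := by
    rw [Real.one_le_sqrt]
    exact_mod_cast hM1
  have ha2 : (1 : ℝ) ≤ √(M2 : ℝ) := by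
    rw [Real.one_le_sqrt]
    exact_mod_cast hM2
  have ha1p : 0 < √(M1 : ℝ) := by linarith
  have ha2p : 0 < √(M2 : ℝ) := by linarith
  have q1 : (√(M1 : ℝ)) ^ 4 ≤ X := by
    have e : (√(M1 : ℝ)) ^ 4 = ((√(M1 : ℝ)) ^ 2) ^ 2 := by ring
    rw [e, Real.sq_sqrt (Nat.cast_nonneg _)]
    exact_mod_cast h.hX1
  have q2 : (√(M2 : ℝ)) ^ 4 ≤ X := by
    have e : (√(M2 : ℝ)) ^ 4 = ((√(M2 : ℝ)) ^ 2) ^ 2 := by ring
    rw [e, Real.sq_sqrt (Nat.cast_nonneg _)]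
    exact_mod_cast h.hX2
  have hC1 : (V : ℝ) * √(M1 : ℝ) / √(M2 : ℝ) ≤ C := by
    have h1 := h.hC2
    have e : 3 * (V : ℝ) * √(M1 : ℝ) / √(M2 : ℝ) = 3 * ((V : ℝ) * √(M1 : ℝ) / √(M2 : ℝ)) := by ring
    rw [e] at h1
    linarith
  have b5 := (prB V (√(M1 : ℝ)) (√(M2 : ℝ)) C U E s m X hVR ha1 ha2
    (Nat.cast_nonneg _) hC1 h.hC1 (Nat.cast_nonneg _) h.hU2 (Nat.cast_nonneg _) h.hE2
    (by have := h.hs1; unfold sig at this; exact this) q1 q2 h.hV1 h.hV2).2.2.2.2.1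
  have hmu : (V : ℝ) ^ 4 * √(M1 : ℝ) / (136 * (√(M2 : ℝ)) ^ 3) ≤ m := by
    have h1 := h.hm2
    unfold mu at h1
    have e : (V : ℝ) ^ 4 * √(M1 : ℝ) / (68 * (√(M2 : ℝ)) ^ 3) =
        2 * ((V : ℝ) ^ 4 * √(M1 : ℝ) / (136 * (√(M2 : ℝ)) ^ 3)) := by
      field_simp
      ring
    rw [e] at h1
    linarith
  have hm1 : (m : ℝ) ≤ (V : ℝ) ^ 4 * √(M1 : ℝ) / (68 * (√(M2 : ℝ)) ^ 3) := by
    have := h.hm1
    unfold mu at this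
    exact this
  have hR0 : 0 ≤ R := le_trans (by positivity) hR1
  have hR1' : √(M1 : ℝ) ^ 2 * √(M2 : ℝ) ^ 2 ≤ R := by
    rw [Real.sq_sqrt (Nat.cast_nonneg _), Real.sq_sqrt (Nat.cast_nonneg _)]
    exact hR1
  obtain ⟨b1, b2, b3, b4, -⟩ := prX V (√(M1 : ℝ)) (√(M2 : ℝ)) y C U E s m R hVR ha1 ha2 hy
    (Nat.cast_nonneg _) hC1 h.hC1 (Nat.cast_nonneg _) h.hU2 (Nat.cast_nonneg _) h.hE2
    (by have := h.hs1; unfold sig at this; exact this) hVx k1 k2 hmu hR1' hR2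
  have b5 := b5 hm1
  set B : ℝ := (2 * ((V : ℝ) ^ 2 * √(M2 : ℝ) / (√(M1 : ℝ)) ^ 2) + 1) *
    (2 * (6 * (V : ℝ) ^ 2 / √(M2 : ℝ)) + 1) *
    ((2 * (300 * (V : ℝ) ^ 2 * √(M1 : ℝ) / (√(M2 : ℝ)) ^ 2) + 1) *
      (2 * (11000 * (V : ℝ) ^ 2 * (√(M1 : ℝ)) ^ 3 / (√(M2 : ℝ)) ^ 4) + 1)) with hBdef
  have hB0 : 0 ≤ B := by positivity
  set W : ℝ := 17 * V * (√(M2 : ℝ)) ^ 3 / √(M1 : ℝ) with hWdef
  have hW0 : 0 < W := by positivity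
  have hW : 4 * (m : ℝ) * W ≤ (V : ℝ) ^ 5 := by
    have e : (V : ℝ) ^ 5 = 4 * ((V : ℝ) ^ 4 * √(M1 : ℝ) / (68 * (√(M2 : ℝ)) ^ 3)) * W := by
      rw [hWdef]
      field_simp
      ring
    rw [e]
    gcongr
  -- the coordinates
  have hq : ∀ q ∈ S, |(q.2.2.2.2.1 : ℤ)| ≤ U ∧ |(q.2.2.2.2.2.1 : ℤ)| ≤ E ∧
      |(q.2.2.2.2.2.2.2 : ℝ)| ≤ W ∧ q.2.2.1 ≤ C := by
    intro q hqS
    obtain ⟨i1, i2, i3, i4, -⟩ := bxi M1 M2 V q (hS q hqS) hM1 hM2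
    refine ⟨?_, ?_, i3, ?_⟩
    · have : |(q.2.2.2.2.1 : ℝ)| ≤ U := i1.trans h.hU1
      exact_mod_cast this
    · have : |(q.2.2.2.2.2.1 : ℝ)| ≤ E := i2.trans h.hE1
      exact_mod_cast this
    · have : (q.2.2.1 : ℝ) < C + 1 := i4.trans_lt h.hC2
      have h3 : q.2.2.1 < C + 1 := by exact_mod_cast this
      omega
  obtain ⟨G, hG1, hG2⟩ := bxf C V S (fun q hqS =>
    ⟨(hS q hqS).1, (hq q hqS).2.2.2, (hS q hqS).2.2.2.1.1, (hS q hqS).2.2.2.1.2⟩)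
  have hlU : 1 + Real.log U ≤ L := bxb_log X U L hX h.hU (h.hUX.trans (by omega)) hL
  have hlE : 1 + Real.log E ≤ L := bxb_log X E L hX h.hE (h.hEX.trans (by omega)) hL
  have hlm : 1 + Real.log m ≤ L := bxb_log X m L hX (by omega) (h.hmX.trans (by omega)) hL
  have hlU0 : 0 ≤ 1 + Real.log U := by
    have := Real.log_nonneg hUR
    linarith
  have hlE0 : 0 ≤ 1 + Real.log E := by
    have := Real.log_nonneg hER
    linarith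
  have hsq : √((U : ℝ) * (E : ℝ) * (1 + Real.log U) * (1 + Real.log E)) ≤
      L * √((U : ℝ) * E) := by
    have e : L * √((U : ℝ) * E) = √((U : ℝ) * E * L * L) := by
      have h2 : (U : ℝ) * E * L * L = L ^ 2 * ((U : ℝ) * E) := by ring
      rw [h2, Real.sqrt_mul (sq_nonneg L), Real.sqrt_sq (by linarith)]
    rw [e]
    apply Real.sqrt_le_sqrt
    gcongr
  have hm2 : (0 : ℝ) ≤ 2 / (m : ℝ) := by positivity
  -- the fibres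
  have hfib : ∀ x ∈ Cv C V, ((G x).card : ℝ) ≤ 2 / (m : ℝ) * (9 * U * E +
      14 * (L * √((U : ℝ) * E)) *
        ∑ j ∈ Finset.Ico 1 m, (1 + √((Bs (QV M1 M2 V s) (5 * j) x.1 x.2).card : ℝ))) := by
    intro x hx
    obtain ⟨⟨hx1, hx2⟩, ⟨hx3, hx4⟩, hx5⟩ := (mem_Cv C V x).1 hx
    have hvV : (V : ℝ) ≤ x.2 := by exact_mod_cast hx3
    refine (tca x.1 x.2 U E m W (fun j => ((Bs (QV M1 M2 V s) (5 * j) x.1 x.2).card : ℝ))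
      (fun j => Nat.cast_nonneg _) hx1 (h.hV.trans hx3) h.hU h.hE (by omega) hx5
      (hW.trans (by gcongr)) (fun cb hcb j hj => bxc' M1 M2 V X U E C s m h x hx cb hcb j hj)
      (G x) ?_).trans ?_
    · intro p hp
      obtain ⟨⟨q, hqS, -, -, e1, e2, e3⟩, hd⟩ := hG2 x hx p hp
      obtain ⟨c1, c2, c3, -⟩ := hq q hqS
      rw [e1] at c1
      rw [e2] at c2
      rw [e3] at c3
      exact ⟨c1, c2, c3, hd⟩
    · have h0 : 0 ≤ ∑ j ∈ Finset.Ico 1 m, (1 + √((Bs (QV M1 M2 V s) (5 * j) x.1 x.2).card : ℝ)) :=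
        Finset.sum_nonneg fun j _ => add_nonneg zero_le_one (Real.sqrt_nonneg _)
      exact mul_le_mul_of_nonneg_left (add_le_add le_rfl (mul_le_mul_of_nonneg_right
        (mul_le_mul_of_nonneg_left hsq (by norm_num)) h0)) hm2
  -- the sum
  set S1 : ℝ := ∑ x ∈ Cv C V, ∑ j ∈ Finset.Ico 1 m, √((Bs (QV M1 M2 V s) (5 * j) x.1 x.2).card : ℝ) with hS1
  have hcv : ((Cv C V).card : ℝ) ≤ C * V := by exact_mod_cast card_Cv C V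
  have hsum : (S.card : ℝ) ≤ 2 / (m : ℝ) * (9 * (U * E) * (C * V) +
      14 * (L * √((U : ℝ) * E)) * (m * (C * V) + S1)) := by
    rw [hG1]
    push_cast
    refine (Finset.sum_le_sum hfib).trans ?_
    rw [← Finset.mul_sum, Finset.sum_add_distrib, Finset.sum_const, nsmul_eq_mul,
      ← Finset.mul_sum]
    rw [bxb_sum (Cv C V) m (fun x j => √((Bs (QV M1 M2 V s) (5 * j) x.1 x.2).card : ℝ)), ← hS1]
    have hm' : ((m - 1 : ℕ) : ℝ) ≤ m := by exact_mod_cast Nat.sub_le m 1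
    have hS10 : 0 ≤ S1 := Finset.sum_nonneg fun x _ => Finset.sum_nonneg fun j _ => Real.sqrt_nonneg _
    have k1 : ((Cv C V).card : ℝ) * (9 * U * E) ≤ 9 * (U * E) * (C * V) := by
      have : ((Cv C V).card : ℝ) * (9 * U * E) ≤ (C * V) * (9 * U * E) := by gcongr
      linarith
    have k2 : ((Cv C V).card : ℝ) * ((m - 1 : ℕ) : ℝ) + S1 ≤ m * (C * V) + S1 := by
      have : ((Cv C V).card : ℝ) * ((m - 1 : ℕ) : ℝ) ≤ (C * V) * m := by gcongr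
      linarith
    gcongr
  refine hsum.trans (prY (C * V) (U * E) s m R L T Q B S1 (by positivity) (by positivity)
    (Nat.cast_nonneg _) (by linarith) hR0 hL1 hT.1 hQ.1 hB0 b5 b1 b2 b3 b4 ?_)
  have hls : 1 + Real.log s ≤ L := by
    rcases Nat.eq_zero_or_pos s with h0 | h0
    · rw [h0, Nat.cast_zero, Real.log_zero]
      linarith
    · exact bxb_log X s L hX h0 h.hsX hL
  have hQsub : QV M1 M2 V s ⊆ Q4 s := by
    intro b hb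
    unfold QV at hb
    rw [mem_Qa] at hb
    exact hb.1
  have hβ : ((QV M1 M2 V s).card : ℝ) ≤ B := by
    unfold QV
    exact gsa1 s _ _ _ _ (by positivity) (by positivity) (by positivity) (by positivity)
  have hγ : ∑ b ∈ (QV M1 M2 V s).filter (fun b => ¬ RF b.1 b.2.1 b.2.2.1 b.2.2.2 = 0),
      (gB b : ℝ) ≤ B * L := by
    unfold QV
    refine (gsa2 s _ _ _ _ (by positivity) (by positivity) (by positivity)
      (by positivity)).trans ?_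
    exact mul_le_mul_of_nonneg_left hls hB0
  have hav := avb C V m s (10 ^ 6 * X) Z T Q B (B * L) (QV M1 M2 V s) hQsub hβ hγ h.hV hT hQ
    (by
      have e : 20 * (10 ^ 6 * X) = 2 * 10 ^ 7 * X := by ring
      rw [e]
      exact hZ) h.hsX h.hCX h.hVX (h.hmX.trans (by omega))
  refine hav.trans ?_
  have hQ0 : 0 ≤ Q := by linarith [hQ.1]
  gcongr

end Pool.Agent.PP5F
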