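import Pool.Agent.FTB.DefsP
import Pool.Agent.FTB.BxI
import Pool.Agent.FTB.BxF
import Pool.Agent.FTB.Bx1
import Pool.Agent.FTB.PrB
import Pool.Agent.PP5F.PrX

/-! # PP5F/Bxa: anisotropic boxes with `m ≤ 1` -/

set_option autoImplicit false

namespace Pool.Agent.PP5F

open Pool.Agent.FTB

theorem bxa' (M1 M2 V X U E C s m : ℕ) (y R : ℝ) (h : PB M1 M2 V X U E C s m) (hm : m ≤ 1)
    (hy : 1 ≤ y) (hVx : (V : ℝ) * y ^ 2 ≤ 6 * √(M1 : ℝ) * √(M2 : ℝ) ^ 2)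
    (k1 : √(M1 : ℝ) ≤ 3 / 2 * y) (k2 : √(M2 : ℝ) ≤ 3 / 2 * y) (hR1 : (M1 : ℝ) * M2 ≤ R)
    (hR2 : y ^ 7 ≤ R ^ 2) (S : Finset Pt) (hS : ∀ q ∈ S, InB M1 M2 V q) :
    (S.card : ℝ) ≤ 10 ^ 6 * R := by
  set a1 : ℝ := √(M1 : ℝ) with ha1
  set a2 : ℝ := √(M2 : ℝ) with ha2
  have hM1' : (1 : ℝ) ≤ M1 := by exact_mod_cast h.hM1
  have hM2' : (1 : ℝ) ≤ M2 := by exact_mod_cast h.hM2
  have h1 : 1 ≤ a1 := by
    rw [ha1]
    exact Real.one_le_sqrt.2 hM1'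
  have h2 : 1 ≤ a2 := by
    rw [ha2]
    exact Real.one_le_sqrt.2 hM2'
  have h1p : 0 < a1 := by linarith
  have h2p : 0 < a2 := by linarith
  have hV : (1 : ℝ) ≤ V := by exact_mod_cast h.hV
  have hVp : (0 : ℝ) < V := by linarith
  have hC : (1 : ℝ) ≤ C := by exact_mod_cast h.hC
  have hU : (1 : ℝ) ≤ U := by exact_mod_cast h.hU
  have hE : (1 : ℝ) ≤ E := by exact_mod_cast h.hE
  have ha1sq : a1 ^ 2 = M1 := by
    rw [ha1]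
    exact Real.sq_sqrt (by positivity)
  have ha2sq : a2 ^ 2 = M2 := by
    rw [ha2]
    exact Real.sq_sqrt (by positivity)
  set W : ℝ := 17 * V * a2 ^ 3 / a1 with hW
  have hWp : 0 < W := by
    rw [hW]
    positivity
  have hV5p : (0 : ℝ) < (V : ℝ) ^ 5 := by positivity
  -- V ^ 5 < 8 W
  have hVW : (V : ℝ) ^ 5 ≤ 8 * W := by
    have hm' : (m : ℝ) ≤ 1 := by exact_mod_cast hm
    have h3 : (V : ℝ) ^ 4 * a1 / (68 * a2 ^ 3) < 2 := by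
      have h4 := h.hm2
      unfold mu at h4
      rw [← ha1, ← ha2] at h4
      linarith
    rw [div_lt_iff₀ (by positivity)] at h3
    have h4 : (V : ℝ) ^ 4 * a1 * V ≤ 2 * (68 * a2 ^ 3) * V :=
      mul_le_mul_of_nonneg_right h3.le hVp.le
    have h5 : 8 * W = 2 * (68 * a2 ^ 3) * V / a1 := by
      rw [hW]
      ring
    rw [h5, le_div_iff₀ h1p]
    calc (V : ℝ) ^ 5 * a1 = (V : ℝ) ^ 4 * a1 * V := by ring
      _ ≤ _ := h4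
  have hbx : ∀ q ∈ S, |(q.2.2.2.2.1 : ℝ)| ≤ U ∧ |(q.2.2.2.2.2.1 : ℝ)| ≤ E ∧
      |(q.2.2.2.2.2.2.2 : ℝ)| ≤ W ∧ q.2.2.1 ≤ C := by
    intro q hq
    obtain ⟨b1, b2, b3, b4, -⟩ := bxi M1 M2 V q (hS q hq) h.hM1 h.hM2
    refine ⟨b1.trans h.hU1, b2.trans h.hE1, b3, ?_⟩
    have h6 : (q.2.2.1 : ℝ) < C + 1 := lt_of_le_of_lt b4 h.hC2
    have h7 : q.2.2.1 < C + 1 := by exact_mod_cast h6
    omega
  obtain ⟨G, hG, hG2⟩ := bxf C V S (fun q hq => by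
    have h3 := hS q hq
    exact ⟨h3.1, (hbx q hq).2.2.2, h3.2.2.2.1.1, h3.2.2.2.1.2⟩)
  have hfib : ∀ x ∈ Cv C V, ((G x).card : ℝ) ≤ 90 * (U * E) * W / (V : ℝ) ^ 5 := by
    intro x hx
    obtain ⟨⟨hc1, hc2⟩, ⟨hv1, hv2⟩, hcop⟩ := (mem_Cv C V x).1 hx
    have hv0 : 1 ≤ x.2 := h.hV.trans hv1
    have h3 := bx1 x.1 x.2 U E W hc1 hv0 h.hU h.hE hcop hWp.le (G x) (by
      intro p hp
      obtain ⟨⟨q, hq, e1, e2, e3, e4, e5⟩, hcong⟩ := hG2 x hx p hp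
      obtain ⟨b1, b2, b3, -⟩ := hbx q hq
      rw [e3] at b1
      rw [e4] at b2
      rw [e5] at b3
      refine ⟨by exact_mod_cast b1, by exact_mod_cast b2, b3, hcong⟩)
    have hv5 : (V : ℝ) ^ 5 ≤ (x.2 : ℝ) ^ 5 := by
      have : (V : ℝ) ≤ x.2 := by exact_mod_cast hv1
      gcongr
    have h4 : 2 * W / (x.2 : ℝ) ^ 5 ≤ 2 * W / (V : ℝ) ^ 5 := by
      gcongr
    have h5 : 1 ≤ 8 * W / (V : ℝ) ^ 5 := by
      rw [le_div_iff₀ hV5p]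
      linarith
    calc ((G x).card : ℝ) ≤ 9 * U * E * (1 + 2 * W / (x.2 : ℝ) ^ 5) := h3
      _ ≤ 9 * U * E * (8 * W / (V : ℝ) ^ 5 + 2 * W / (V : ℝ) ^ 5) := by gcongr
      _ = 90 * (U * E) * W / (V : ℝ) ^ 5 := by ring
  have hR0 : 0 ≤ R := le_trans (by positivity) hR1
  have hC1 : (V : ℝ) * a1 / a2 ≤ C := by
    have h3 := h.hC2
    rw [← ha1, ← ha2] at h3
    have h4 : 3 * (V : ℝ) * a1 / a2 = 3 * ((V : ℝ) * a1 / a2) := by ring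
    rw [h4] at h3
    linarith
  have hprb := (prX (V : ℝ) a1 a2 y C U E 0 ((V : ℝ) ^ 4 * a1 / (136 * a2 ^ 3)) R hV h1 h2 hy
    le_rfl hC1 h.hC1 (by linarith) h.hU2 (by linarith) h.hE2 (by positivity) hVx k1 k2 le_rfl
    (by rw [ha1sq, ha2sq]; exact hR1) hR2).2.2.2.2
  have hcard : ((Cv C V).card : ℝ) ≤ C * V := by exact_mod_cast card_Cv C V
  calc (S.card : ℝ) = ∑ x ∈ Cv C V, ((G x).card : ℝ) := by
        rw [hG]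
        push_cast
        rfl
    _ ≤ ∑ _x ∈ Cv C V, 90 * (U * E) * W / (V : ℝ) ^ 5 := Finset.sum_le_sum hfib
    _ = ((Cv C V).card : ℝ) * (90 * (U * E) * W / (V : ℝ) ^ 5) := by
        rw [Finset.sum_const, nsmul_eq_mul]
    _ ≤ (C * V) * (90 * (U * E) * W / (V : ℝ) ^ 5) := by gcongr
    _ = 90 * ((C : ℝ) * V * (U * E) * W) / (V : ℝ) ^ 5 := by ring
    _ ≤ 90 * (10 ^ 4 * R * (V : ℝ) ^ 5) / (V : ℝ) ^ 5 := by gcongr
    _ = 900000 * R := by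
        field_simp
        ring
    _ ≤ 10 ^ 6 * R := by nlinarith

end Pool.Agent.PP5F
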