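import Pool.Agent.FTA.DivB
import Pool.Agent.FTB.SUn
import Pool.Agent.PP5F.Dya

/-!
# PP5F/PtX: the number of points, final form

As `Pool/Agent/FTB/PtB.lean`.
-/

set_option autoImplicit false

namespace Pool.Agent.PP5F

open Pool.Agent.FTB

theorem ptx (ε : ℝ) (hε : 0 < ε) : ∃ K : ℝ, 0 < K ∧ ∀ (y M1 M2 : ℝ), 1 ≤ y → 0 ≤ M1 → 0 ≤ M2 →
    ∀ S : Finset Pt, (∀ q ∈ S, Cd ⌈2 * y ^ 4⌉₊ y M1 M2 q) →
      (S.card : ℝ) ≤ K * (y ^ 4) ^ ε * (M1 * M2 + y ^ ((7 : ℝ) / 2)) := by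
  obtain ⟨δ, hδ⟩ : ∃ δ : ℝ, δ = ε / 100 := ⟨_, rfl⟩
  have hδ0 : 0 < δ := by rw [hδ]; positivity
  obtain ⟨c, hc0, hc⟩ := Pool.Agent.FTA.divisor_bound hδ0
  obtain ⟨C, hC0, hC⟩ := sun δ hδ0
  obtain ⟨A, hA⟩ : ∃ A : ℝ, A = (((2 : ℝ) * 10 ^ 7) ^ 8) ^ δ := ⟨_, rfl⟩
  have hA0 : 0 < A := by rw [hA]; positivity
  refine ⟨16 * 10 ^ 16 * (1 + C * A ^ 2) * (1 + c * A) ^ 2 * (20 + 1 / δ) ^ 5 * 3 ^ ε * 4,
    by positivity, ?_⟩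
  intro y M1 M2 hy hM1 hM2 S hS
  have hy4 : 1 ≤ y ^ 4 := one_le_pow₀ hy
  obtain ⟨X, hXd⟩ : ∃ X : ℕ, X = ⌈2 * y ^ 4⌉₊ := ⟨_, rfl⟩
  rw [← hXd] at hS
  have hX : 1 ≤ X := by
    rw [hXd]
    exact Nat.one_le_iff_ne_zero.2 (Nat.ceil_pos.2 (by positivity)).ne'
  have hX3 : (X : ℝ) ≤ 3 * y ^ 4 := by
    have := Nat.ceil_lt_add_one (show (0 : ℝ) ≤ 2 * y ^ 4 by positivity)
    rw [hXd]
    linarith
  have hXr : (1 : ℝ) ≤ X := by exact_mod_cast hX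
  have hX0 : (0 : ℝ) ≤ X := by linarith
  obtain ⟨w, hw⟩ : ∃ w : ℝ, w = (X : ℝ) ^ δ := ⟨_, rfl⟩
  have hw1 : 1 ≤ w := by rw [hw]; exact Real.one_le_rpow hXr hδ0.le
  have hw0 : 0 ≤ w := by linarith
  obtain ⟨Z, hZ⟩ : ∃ Z : ℕ, Z = (2 * 10 ^ 7 * X) ^ 8 := ⟨_, rfl⟩
  have hZ1 : 1 ≤ Z := by
    rw [hZ]
    exact Nat.one_le_pow _ _ (by positivity)
  have hZd : (Z : ℝ) ^ δ = A * w ^ 8 := by
    have h1 : (Z : ℝ) = ((2 : ℝ) * 10 ^ 7) ^ 8 * (X : ℝ) ^ 8 := by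
      rw [hZ]; push_cast; ring
    have h2 : ((X : ℝ) ^ 8) ^ δ = ((X : ℝ) ^ δ) ^ 8 := by
      rw [← Real.rpow_natCast, ← Real.rpow_mul hX0, ← Real.rpow_natCast, ← Real.rpow_mul hX0]
      congr 1
      ring
    rw [h1, hA, hw, Real.mul_rpow (by positivity) (by positivity), h2]
  have hT : TauB Z (1 + c * (Z : ℝ) ^ δ) := by
    refine ⟨by nlinarith [Real.rpow_nonneg (Nat.cast_nonneg Z) δ], ?_⟩
    intro n hn1 hn2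
    have h1 := hc n (by omega)
    have h2 : (n : ℝ) ^ δ ≤ (Z : ℝ) ^ δ :=
      Real.rpow_le_rpow (Nat.cast_nonneg _) (by exact_mod_cast hn2) hδ0.le
    have h3 := mul_le_mul_of_nonneg_left h2 hc0.le
    linarith
  have hQ : UniB Z (1 + C * (Z : ℝ) ^ δ * (Z : ℝ) ^ δ) := by
    have hz := Real.rpow_nonneg (Nat.cast_nonneg (α := ℝ) Z) δ
    refine ⟨by linarith [mul_nonneg (mul_nonneg hC0.le hz) hz], ?_⟩
    intro r hr1 hr2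
    have h1 := hC Z r hZ1 hr1
    have h2 : (r : ℝ) ^ δ ≤ (Z : ℝ) ^ δ :=
      Real.rpow_le_rpow (Nat.cast_nonneg _) (by exact_mod_cast hr2) hδ0.le
    have h3 := mul_le_mul_of_nonneg_left h2 (mul_nonneg hC0.le hz)
    linarith
  have hL : 20 + Real.log X ≤ (20 + 1 / δ) * w := by
    have h1 : Real.log X ≤ (X : ℝ) ^ δ / δ := Real.log_le_rpow_div hX0 hδ0
    rw [← hw] at h1
    have h2 : (20 + 1 / δ) * w = 20 * w + w / δ := by ring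
    rw [h2]
    linarith
  have hp0 : 0 ≤ y ^ ((7 : ℝ) / 2) := by positivity
  have hp2 : (y ^ ((7 : ℝ) / 2)) ^ 2 = y ^ 7 := by
    rw [← Real.rpow_natCast, ← Real.rpow_mul (by linarith), ← Real.rpow_natCast]
    congr 1
    norm_num
  have hMM : 0 ≤ M1 * M2 := mul_nonneg hM1 hM2
  have hmain := sym' X Z _ _ _ y M1 M2 (4 * (M1 * M2) + y ^ ((7 : ℝ) / 2)) hX hT hQ
    (le_of_eq hZ.symm) hL hy (by positivity) (by linarith) (by rw [← hp2]; gcongr; linarith) S hS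
  have hT1 : 1 + c * (Z : ℝ) ^ δ ≤ (1 + c * A) * w ^ 8 := by
    rw [hZd]
    have : 1 ≤ w ^ 8 := one_le_pow₀ hw1
    linarith
  have hQ1 : 1 + C * (Z : ℝ) ^ δ * (Z : ℝ) ^ δ ≤ (1 + C * A ^ 2) * w ^ 16 := by
    rw [hZd]
    have : 1 ≤ w ^ 16 := one_le_pow₀ hw1
    linarith
  have hQ0 := hQ.1
  have hT0 := hT.1
  have hlog : 0 ≤ Real.log X := Real.log_nonneg hXr
  have hR : 4 * (M1 * M2) + y ^ ((7 : ℝ) / 2) ≤ 4 * (M1 * M2 + y ^ ((7 : ℝ) / 2)) := by linarith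
  have h37 : w ^ 37 ≤ 3 ^ ε * (y ^ 4) ^ ε := by
    have h1 : w ^ 37 = (X : ℝ) ^ (37 * δ) := by
      rw [hw, ← Real.rpow_natCast, ← Real.rpow_mul hX0]
      congr 1
      push_cast
      ring
    rw [h1, ← Real.mul_rpow (by norm_num) (by positivity)]
    calc (X : ℝ) ^ (37 * δ) ≤ (X : ℝ) ^ ε := by
          apply Real.rpow_le_rpow_of_exponent_le hXr
          rw [hδ]
          linarith
      _ ≤ (3 * y ^ 4) ^ ε := Real.rpow_le_rpow hX0 hX3 hε.le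
  calc (S.card : ℝ) ≤ 16 * 10 ^ 16 * (1 + C * (Z : ℝ) ^ δ * (Z : ℝ) ^ δ) *
        (1 + c * (Z : ℝ) ^ δ) ^ 2 * ((20 + 1 / δ) * w) ^ 5 *
          (4 * (M1 * M2) + y ^ ((7 : ℝ) / 2)) := hmain
    _ ≤ 16 * 10 ^ 16 * ((1 + C * A ^ 2) * w ^ 16) * ((1 + c * A) * w ^ 8) ^ 2 *
        ((20 + 1 / δ) * w) ^ 5 * (4 * (M1 * M2 + y ^ ((7 : ℝ) / 2))) := by
        gcongr
    _ = 16 * 10 ^ 16 * (1 + C * A ^ 2) * (1 + c * A) ^ 2 * (20 + 1 / δ) ^ 5 * 4 *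
          (M1 * M2 + y ^ ((7 : ℝ) / 2)) * w ^ 37 := by
        ring
    _ ≤ 16 * 10 ^ 16 * (1 + C * A ^ 2) * (1 + c * A) ^ 2 * (20 + 1 / δ) ^ 5 * 4 *
          (M1 * M2 + y ^ ((7 : ℝ) / 2)) * (3 ^ ε * (y ^ 4) ^ ε) := by
        gcongr
    _ = _ := by ring

end Pool.Agent.PP5F
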