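import Pool.Agent.FTB.DCt
import Pool.Agent.PP5F.PtX

/-! # PP5F/Dcx: from the data to the points -/

set_option autoImplicit false

namespace Pool.Agent.PP5F

open Pool.Agent.FTA Pool.Agent.FTB

theorem dcxC (y M1 M2 : ℝ) (D G : ℕ) (q : Pt) (h : Dat D G q)
    (hD1 : y ^ 4 ≤ (D : ℝ)) (hD2 : (D : ℝ) < 2 * y ^ 4) (hN : (q.1 : ℝ) < 2 * M1)
    (hk : (q.2.1 : ℝ) < 2 * M2) : Cd ⌈2 * y ^ 4⌉₊ y M1 M2 q := by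
  obtain ⟨hT, hG, hND, hkD, b, hb1, hb2⟩ := h
  have hT' := hT
  obtain ⟨h1, h2, hc, hv, -, hue, -⟩ := hT'
  have hDX : D ≤ ⌈2 * y ^ 4⌉₊ := by
    have h3 : ((D : ℕ) : ℝ) ≤ (⌈2 * y ^ 4⌉₊ : ℝ) := hD2.le.trans (Nat.le_ceil _)
    exact_mod_cast h3
  have hNr : (q.1 : ℝ) ^ 2 ≤ D := by exact_mod_cast hND
  have hkr : (q.2.1 : ℝ) ^ 2 ≤ D := by exact_mod_cast hkD
  have hG1 : (1 : ℤ) ≤ (G : ℤ) ^ 2 := by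
    have : (1 : ℤ) ≤ G := by exact_mod_cast hG
    nlinarith
  have e1 : (D : ℤ) * (q.2.2.1 : ℤ) ^ 2 ≤ 4 * (q.1 : ℤ) ^ 2 * q.2.1 := by
    have h3 : (D : ℤ) * (q.2.2.1 : ℤ) ^ 2 * 1 ≤ (D : ℤ) * (q.2.2.1 : ℤ) ^ 2 * (G : ℤ) ^ 2 :=
      mul_le_mul_of_nonneg_left hG1 (by positivity)
    nlinarith [sq_nonneg b]
  have e2 : (D : ℤ) * (q.2.2.2.1 : ℤ) ^ 2 ≤ 4 * (q.2.1 : ℤ) ^ 2 * q.1 := by
    have hc2 : (0 : ℤ) < (q.2.2.1 : ℤ) ^ 2 := by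
      have : (1 : ℤ) ≤ q.2.2.1 := by exact_mod_cast hc
      positivity
    have h3 : ((q.2.1 : ℤ) * q.2.2.2.2.1 - q.1 * q.2.2.2.2.2.1) ^ 2 +
        (D : ℤ) * (q.2.2.2.1 : ℤ) ^ 2 * (G : ℤ) ^ 2 * (q.2.2.1 : ℤ) ^ 2 =
          4 * (q.2.1 : ℤ) ^ 2 * q.1 * (q.2.2.1 : ℤ) ^ 2 := by
      have h5 : (b * (q.2.2.2.1 : ℤ)) ^ 2 =
          ((q.2.1 : ℤ) * q.2.2.2.2.1 + q.1 * q.2.2.2.2.2.1) ^ 2 := by rw [hb1]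
      linear_combination (q.2.2.2.1 : ℤ) ^ 2 * hb2 - h5 - 4 * (q.2.1 : ℤ) * q.1 * hue
    have h4 : (D : ℤ) * (q.2.2.2.1 : ℤ) ^ 2 * 1 ≤ (D : ℤ) * (q.2.2.2.1 : ℤ) ^ 2 * (G : ℤ) ^ 2 :=
      mul_le_mul_of_nonneg_left hG1 (by positivity)
    have h6 : (D : ℤ) * (q.2.2.2.1 : ℤ) ^ 2 * (G : ℤ) ^ 2 * (q.2.2.1 : ℤ) ^ 2 ≤
        4 * (q.2.1 : ℤ) ^ 2 * q.1 * (q.2.2.1 : ℤ) ^ 2 := by
      rw [← h3]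
      linarith [sq_nonneg ((q.2.1 : ℤ) * q.2.2.2.2.1 - q.1 * q.2.2.2.2.2.1)]
    have h7 := le_of_mul_le_mul_right h6 hc2
    linarith
  have r1 : (D : ℝ) * (q.2.2.1 : ℝ) ^ 2 ≤ 4 * (q.1 : ℝ) ^ 2 * q.2.1 := by exact_mod_cast e1
  have r2 : (D : ℝ) * (q.2.2.2.1 : ℝ) ^ 2 ≤ 4 * (q.2.1 : ℝ) ^ 2 * q.1 := by exact_mod_cast e2
  refine ⟨hT, hND.trans hDX, hkD.trans hDX, hNr.trans hD2.le, hkr.trans hD2.le, ?_, ?_, hN, hk⟩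
  · exact (mul_le_mul_of_nonneg_right hD1 (sq_nonneg _)).trans r2
  · exact (mul_le_mul_of_nonneg_right hD1 (sq_nonneg _)).trans r1

theorem dcx (ε : ℝ) (hε : 0 < ε) : ∃ K : ℝ, 0 < K ∧ ∀ (y M1 M2 : ℝ), 1 ≤ y → 0 ≤ M1 → 0 ≤ M2 →
    ∀ S : Finset (ℕ × ℕ × Pt), (∀ q ∈ S, y ^ 4 ≤ (q.1 : ℝ) ∧ (q.1 : ℝ) < 2 * y ^ 4 ∧
      Dat q.1 q.2.1 q.2.2 ∧ (q.2.2.1 : ℝ) < 2 * M1 ∧ (q.2.2.2.1 : ℝ) < 2 * M2) →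
      (S.card : ℝ) ≤ K * (y ^ 4) ^ ε * (M1 * M2 + y ^ ((7 : ℝ) / 2)) := by
  classical
  obtain ⟨K1, hK1, h1⟩ := ptx (ε / 2) (by positivity)
  obtain ⟨c, hc, h2⟩ := divisor_bound (ε := ε / 4) (by positivity)
  refine ⟨(1 + c * (4 : ℝ) ^ (ε / 4)) * 3 ^ (ε / 2) * K1, by positivity, ?_⟩
  intro y M1 M2 hy hM1 hM2 S hS
  have hy4 : 1 ≤ y ^ 4 := one_le_pow₀ hy
  have hy40 : 0 < y ^ 4 := by linarith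
  obtain ⟨X, hXd⟩ : ∃ X : ℕ, X = ⌈2 * y ^ 4⌉₊ := ⟨_, rfl⟩
  have hX : 1 ≤ X := by
    rw [hXd]
    exact Nat.one_le_iff_ne_zero.2 (Nat.ceil_pos.2 (by positivity)).ne'
  have hX3 : (X : ℝ) ≤ 3 * y ^ 4 := by
    have := Nat.ceil_lt_add_one (show (0 : ℝ) ≤ 2 * y ^ 4 by positivity)
    rw [hXd]
    linarith
  have hX1 : (1 : ℝ) ≤ (X : ℝ) := by exact_mod_cast hX
  have hX0 : (0 : ℝ) < (X : ℝ) := by linarith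
  have hT : TauB (4 * X ^ 2) (1 + c * (((4 * X ^ 2 : ℕ) : ℝ)) ^ (ε / 4)) := by
    refine ⟨by
      have : (0 : ℝ) ≤ c * (((4 * X ^ 2 : ℕ) : ℝ)) ^ (ε / 4) := by positivity
      linarith, ?_⟩
    intro n hn1 hn2
    have hn3 : (n : ℝ) ≤ (((4 * X ^ 2 : ℕ) : ℝ)) := by exact_mod_cast hn2
    calc (n.divisors.card : ℝ) ≤ c * (n : ℝ) ^ (ε / 4) := h2 n (by omega)
      _ ≤ c * (((4 * X ^ 2 : ℕ) : ℝ)) ^ (ε / 4) := by gcongr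
      _ ≤ 1 + c * (((4 * X ^ 2 : ℕ) : ℝ)) ^ (ε / 4) := by linarith
  have h3 := dct1 X (4 * X ^ 2) _ hX hT le_rfl S (fun q hq => by
    obtain ⟨-, hq2, hq3, -⟩ := hS q hq
    refine ⟨?_, hq3⟩
    rw [hXd]
    have h3 : ((q.1 : ℕ) : ℝ) ≤ (⌈2 * y ^ 4⌉₊ : ℝ) := hq2.le.trans (Nat.le_ceil _)
    exact_mod_cast h3) (S.image fun q => q.2.2) (fun q hq => Finset.mem_image_of_mem _ hq)
  have h4 := h1 y M1 M2 hy hM1 hM2 (S.image fun q => q.2.2) (by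
    intro p hp
    rw [Finset.mem_image] at hp
    obtain ⟨q, hq, rfl⟩ := hp
    obtain ⟨hq1, hq2, hq3, hq4, hq5⟩ := hS q hq
    exact dcxC y M1 M2 q.1 q.2.1 q.2.2 hq3 hq1 hq2 hq4 hq5)
  have hTle : 1 + c * (((4 * X ^ 2 : ℕ) : ℝ)) ^ (ε / 4) ≤
      (1 + c * (4 : ℝ) ^ (ε / 4)) * (3 ^ (ε / 2) * (y ^ 4) ^ (ε / 2)) := by
    have e1 : (((4 * X ^ 2 : ℕ) : ℝ)) ^ (ε / 4) = (4 : ℝ) ^ (ε / 4) * (X : ℝ) ^ (ε / 2) := by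
      push_cast
      rw [Real.mul_rpow (by norm_num) (by positivity), ← Real.rpow_natCast, ← Real.rpow_mul hX0.le]
      congr 2
      push_cast
      ring
    have e2 : (1 : ℝ) ≤ (X : ℝ) ^ (ε / 2) := Real.one_le_rpow hX1 (by positivity)
    have e3 : (X : ℝ) ^ (ε / 2) ≤ 3 ^ (ε / 2) * (y ^ 4) ^ (ε / 2) := by
      rw [← Real.mul_rpow (by norm_num) (by positivity)]
      exact Real.rpow_le_rpow hX0.le hX3 (by positivity)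
    rw [e1]
    have e4 : (0 : ℝ) ≤ 1 + c * (4 : ℝ) ^ (ε / 4) := by positivity
    calc 1 + c * ((4 : ℝ) ^ (ε / 4) * (X : ℝ) ^ (ε / 2)) ≤
          (1 + c * (4 : ℝ) ^ (ε / 4)) * (X : ℝ) ^ (ε / 2) := by nlinarith
      _ ≤ _ := mul_le_mul_of_nonneg_left e3 e4
  have hp0 : 0 ≤ y ^ ((7 : ℝ) / 2) := by positivity
  have hMM : 0 ≤ M1 * M2 := mul_nonneg hM1 hM2
  calc (S.card : ℝ) ≤ (1 + c * (((4 * X ^ 2 : ℕ) : ℝ)) ^ (ε / 4)) *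
        ((S.image fun q => q.2.2).card : ℝ) := h3
    _ ≤ ((1 + c * (4 : ℝ) ^ (ε / 4)) * (3 ^ (ε / 2) * (y ^ 4) ^ (ε / 2))) *
        (K1 * (y ^ 4) ^ (ε / 2) * (M1 * M2 + y ^ ((7 : ℝ) / 2))) := by
        gcongr
    _ = (1 + c * (4 : ℝ) ^ (ε / 4)) * 3 ^ (ε / 2) * K1 *
          ((y ^ 4) ^ (ε / 2) * (y ^ 4) ^ (ε / 2)) * (M1 * M2 + y ^ ((7 : ℝ) / 2)) := by ring
    _ = _ := by
        rw [← Real.rpow_add hy40]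
        congr 3
        ring

end Pool.Agent.PP5F
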