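import Pool.Agent.FTA.Fib
import Pool.Agent.FTA.Small1
import Pool.Agent.PP5F.Exd

/-!
# PP5F/Exn: the solutions with given `N` and a large common divisor

PROOF of `exn`.  Adapt the proof of `sqN` (Pool/Agent/FTB/SqN.lean; copy it; its private lemma
`sqN_basic` too).  Differences: `X ≤ D ≤ 2 X` with `X` real, `g = Int.gcd t y ≥ g0`.  For
`q = (D, t, y) ∈ S`: `t = g t₁`, `y = g y₁`, `y₁ ≥ 1`, `t₁, y₁` coprime,
`g ^ 2 (t₁ ^ 2 + D y₁ ^ 2) = 4 N ^ 5`, `g ∣ 4 N ^ 5` (at most `T` values), and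
`X (g y₁) ^ 2 ≤ D y ^ 2 ≤ 4 N ^ 5`, so there are at most `2 √(N ^ 5) / (g √X)` values of `y₁`.  For
given `(g, y₁)` `small1` (with `⌊2 X⌋₊` for its `X`; `y₁ ^ 2 ≤ Z` as `y₁ ^ 2 ≤ D y ^ 2 ≤ 4 N ^ 5`)
gives at most `2 T ^ 2 (2 X g / √(N ^ 5) + 1)` triples.  So for given `g`:
`2 √(N ^ 5) / (g √X) * 2 T ^ 2 (2 X g / √(N ^ 5) + 1) = 8 T ^ 2 √X + 4 T ^ 2 √(N ^ 5) / (g √X)`.
-/

set_option autoImplicit false

namespace Pool.Agent.PP5F

open Pool.Agent.FTA Pool.Agent.FTB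

private theorem Exn_basic (D N : ℕ) (t y : ℤ) (h : SolP 5 D N t y) :
    1 ≤ Int.gcd t y ∧ 1 ≤ y1 t y ∧ (Int.gcd t y : ℤ) * (y1 t y : ℤ) = y ∧
      (Int.gcd t y : ℤ) * (t / (Int.gcd t y : ℤ)) = t ∧
      IsCoprime (t / (Int.gcd t y : ℤ)) (y1 t y : ℤ) ∧
      (Int.gcd t y * y1 t y) ^ 2 ≤ 4 * N ^ 3 := by
  obtain ⟨hN, hD, hy, heq, -⟩ := h
  have hg : 0 < Int.gcd t y := Int.gcd_pos_of_ne_zero_right _ (by omega)
  have hgZ : (0 : ℤ) < (Int.gcd t y : ℤ) := by exact_mod_cast hg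
  have e1 : (Int.gcd t y : ℤ) * (y / (Int.gcd t y : ℤ)) = y :=
    Int.mul_ediv_cancel' (Int.gcd_dvd_right ..)
  have e2 : (Int.gcd t y : ℤ) * (t / (Int.gcd t y : ℤ)) = t :=
    Int.mul_ediv_cancel' (Int.gcd_dvd_left ..)
  have hpos : 0 < y / (Int.gcd t y : ℤ) := by
    by_contra hcon
    push Not at hcon
    have := mul_nonpos_of_nonneg_of_nonpos hgZ.le hcon
    omega
  have hyZ : (y1 t y : ℤ) = y / (Int.gcd t y : ℤ) := by
    unfold y1
    rw [Int.natCast_natAbs, abs_of_pos hpos]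
  refine ⟨hg, ?_, by rw [hyZ]; exact e1, e2, ?_, ?_⟩
  · have : (0 : ℤ) < (y1 t y : ℤ) := by rw [hyZ]; exact hpos
    exact_mod_cast this
  · rw [hyZ, Int.isCoprime_iff_gcd_eq_one]
    exact Int.gcd_ediv_gcd_ediv_gcd hg
  · have h1 : ((Int.gcd t y * y1 t y : ℕ) : ℤ) = y := by
      rw [Nat.cast_mul, hyZ]
      exact e1
    have h2 : (N : ℤ) ^ 2 * y ^ 2 ≤ 4 * (N : ℤ) ^ 5 := by
      have h3 : (N : ℤ) ^ 2 ≤ (D : ℤ) := by exact_mod_cast hD
      have h4 : (N : ℤ) ^ 2 * y ^ 2 ≤ (D : ℤ) * y ^ 2 :=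
        mul_le_mul_of_nonneg_right h3 (sq_nonneg _)
      have := sq_nonneg t
      linarith
    have hNZ : (0 : ℤ) < (N : ℤ) ^ 2 := by
      have : (0 : ℤ) < (N : ℤ) := by omega
      positivity
    have h5 : y ^ 2 ≤ 4 * (N : ℤ) ^ 3 := by
      have h6 : (N : ℤ) ^ 2 * y ^ 2 ≤ (N : ℤ) ^ 2 * (4 * (N : ℤ) ^ 3) := by
        calc (N : ℤ) ^ 2 * y ^ 2 ≤ 4 * (N : ℤ) ^ 5 := h2
          _ = _ := by ring
      exact le_of_mul_le_mul_left h6 hNZ
    have h7 : (((Int.gcd t y * y1 t y) ^ 2 : ℕ) : ℤ) ≤ ((4 * N ^ 3 : ℕ) : ℤ) := by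
      rw [Nat.cast_pow, h1]
      push_cast
      exact h5
    exact_mod_cast h7

private theorem Exn_basic2 (D N : ℕ) (t y : ℤ) (h : SolP 5 D N t y) :
    (Int.gcd t y * y1 t y) ^ 2 * D ≤ 4 * N ^ 5 := by
  have hb := Exn_basic D N t y h
  obtain ⟨hN, hD, hy, heq, -⟩ := h
  have h1 : ((Int.gcd t y * y1 t y : ℕ) : ℤ) = y := by
    rw [Nat.cast_mul]
    exact hb.2.2.1
  have h2 : (((Int.gcd t y * y1 t y) ^ 2 * D : ℕ) : ℤ) ≤ ((4 * N ^ 5 : ℕ) : ℤ) := by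
    rw [Nat.cast_mul, Nat.cast_pow, h1]
    push_cast
    have := sq_nonneg t
    linarith
  exact_mod_cast h2

theorem exn (N Z : ℕ) (T X g0 : ℝ) (hN : 2 ≤ N) (hX : 1 ≤ X) (hg0 : 1 ≤ g0) (hT : TauB Z T)
    (hZ : 4 * N ^ 5 ≤ Z) (S : Finset (ℕ × ℤ × ℤ))
    (hS : ∀ q ∈ S, SolP 5 q.1 N q.2.1 q.2.2 ∧ X ≤ (q.1 : ℝ) ∧ (q.1 : ℝ) ≤ 2 * X ∧
      g0 ≤ (Int.gcd q.2.1 q.2.2 : ℝ)) :
    (S.card : ℝ) ≤ 8 * T ^ 3 * (√X + √((N : ℝ) ^ 5) / (g0 * √X)) := by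
  classical
  obtain ⟨hT1, hTd⟩ := hT
  have hX0 : (0 : ℝ) < X := by linarith
  have hsX : 0 < √X := Real.sqrt_pos.2 hX0
  have hsX2 : √X * √X = X := Real.mul_self_sqrt hX0.le
  have hg00 : 0 < g0 := by linarith
  have hNR : (0 : ℝ) < (N : ℝ) := by
    have : 0 < N := by omega
    exact_mod_cast this
  have hs5 : 0 < √((N : ℝ) ^ 5) := Real.sqrt_pos.2 (by positivity)
  have h4N1 : 1 ≤ 4 * N ^ 5 := by
    have : 0 < N ^ 5 := by positivity
    omega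
  have hcard : ((4 * N ^ 5).divisors.card : ℝ) ≤ T := hTd _ h4N1 hZ
  obtain ⟨X', hX'⟩ : ∃ X' : ℕ, X' = ⌊2 * X⌋₊ := ⟨_, rfl⟩
  have hX'R : (X' : ℝ) ≤ 2 * X := by rw [hX']; exact Nat.floor_le (by linarith)
  set B : ℝ := 8 * T ^ 2 * (√X + √((N : ℝ) ^ 5) / (g0 * √X)) with hB
  have hB0 : 0 ≤ B := by positivity
  have step : (S.card : ℝ) ≤ ((4 * N ^ 5).divisors.card : ℝ) * B := by
    refine fib_const S (fun q => Int.gcd q.2.1 q.2.2) (Nat.divisors (4 * N ^ 5)) ?_ B ?_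
    · intro q hq
      obtain ⟨hsol, -⟩ := hS q hq
      obtain ⟨-, -, hy, heq, -⟩ := hsol
      rw [Nat.mem_divisors]
      refine ⟨?_, by omega⟩
      rw [← Int.natCast_dvd_natCast]
      have h1 : (Int.gcd q.2.1 q.2.2 : ℤ) ∣ q.2.1 ^ 2 :=
        (Int.gcd_dvd_left ..).trans (dvd_pow_self _ two_ne_zero)
      have h2 : (Int.gcd q.2.1 q.2.2 : ℤ) ∣ (q.1 : ℤ) * q.2.2 ^ 2 :=
        ((Int.gcd_dvd_right ..).trans (dvd_pow_self _ two_ne_zero)).mul_left _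
      have h3 := dvd_add h1 h2
      rw [heq] at h3
      push_cast
      exact h3
    intro g hg
    set SG := S.filter (fun q => Int.gcd q.2.1 q.2.2 = g) with hSG
    rcases SG.eq_empty_or_nonempty with hSG0 | ⟨qG, hqG⟩
    · rw [hSG0]
      simp only [Finset.card_empty, Nat.cast_zero]
      exact hB0
    have hSGmem : ∀ q ∈ SG, (SolP 5 q.1 N q.2.1 q.2.2 ∧ X ≤ (q.1 : ℝ) ∧ (q.1 : ℝ) ≤ 2 * X ∧
        g0 ≤ (Int.gcd q.2.1 q.2.2 : ℝ)) ∧ Int.gcd q.2.1 q.2.2 = g := by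
      intro q hq
      rw [hSG, Finset.mem_filter] at hq
      exact ⟨hS q hq.1, hq.2⟩
    have hg1 : 1 ≤ g := by
      obtain ⟨⟨hsol, -⟩, hgg⟩ := hSGmem qG hqG
      rw [← hgg]
      exact (Exn_basic _ _ _ _ hsol).1
    have hgg0 : g0 ≤ (g : ℝ) := by
      obtain ⟨⟨-, -, -, h⟩, hgg⟩ := hSGmem qG hqG
      rw [hgg] at h
      exact h
    have hgR : (0 : ℝ) < (g : ℝ) := by linarith
    set Y₀ := SG.image (fun q => y1 q.2.1 q.2.2) with hY₀
    have hY₀mem : ∀ y ∈ Y₀, 1 ≤ y ∧ ((g : ℝ) * y) ^ 2 * X ≤ 4 * (N : ℝ) ^ 5 ∧ y ^ 2 ≤ 4 * N ^ 5 := by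
      intro y hy
      rw [hY₀, Finset.mem_image] at hy
      obtain ⟨q, hq, rfl⟩ := hy
      obtain ⟨⟨hsol, hqX, -⟩, hgg⟩ := hSGmem q hq
      have hb := Exn_basic _ _ _ _ hsol
      have hb2 := Exn_basic2 _ _ _ _ hsol
      rw [hgg] at hb2
      refine ⟨hb.2.1, ?_, ?_⟩
      · have h1 : (((g * y1 q.2.1 q.2.2) ^ 2 * q.1 : ℕ) : ℝ) ≤ ((4 * N ^ 5 : ℕ) : ℝ) := by
          exact_mod_cast hb2
        push_cast at h1
        have h2 : ((g : ℝ) * (y1 q.2.1 q.2.2 : ℝ)) ^ 2 * X ≤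
            ((g : ℝ) * (y1 q.2.1 q.2.2 : ℝ)) ^ 2 * (q.1 : ℝ) :=
          mul_le_mul_of_nonneg_left hqX (sq_nonneg _)
        linarith
      · have hD1 : 1 ≤ q.1 := by
          have : (1 : ℝ) ≤ (q.1 : ℝ) := hX.trans hqX
          exact_mod_cast this
        calc y1 q.2.1 q.2.2 ^ 2 ≤ (g * y1 q.2.1 q.2.2) ^ 2 :=
              Nat.pow_le_pow_left (Nat.le_mul_of_pos_left _ hg1) 2
          _ ≤ (g * y1 q.2.1 q.2.2) ^ 2 * q.1 := Nat.le_mul_of_pos_right _ hD1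
          _ ≤ 4 * N ^ 5 := hb2
    have hYa : (Y₀.card : ℝ) ≤ 2 * √((N : ℝ) ^ 5) / (g * √X) := by
      have hsub : Y₀ ⊆ Finset.Icc 1 ⌊2 * √((N : ℝ) ^ 5) / (g * √X)⌋₊ := by
        intro y hy
        obtain ⟨hy1, hy2, -⟩ := hY₀mem y hy
        rw [Finset.mem_Icc]
        refine ⟨hy1, Nat.le_floor ?_⟩
        rw [le_div_iff₀ (by positivity)]
        have h1 : ((g : ℝ) * y * √X) ^ 2 ≤ (2 * √((N : ℝ) ^ 5)) ^ 2 := by
          rw [mul_pow 2, Real.sq_sqrt (by positivity), mul_pow _ (√X), Real.sq_sqrt hX0.le]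
          linarith
        have h2 := abs_le_of_sq_le_sq h1 (by positivity)
        have h3 := (le_abs_self _).trans h2
        linarith
      have h1 : Y₀.card ≤ ⌊2 * √((N : ℝ) ^ 5) / (g * √X)⌋₊ := by
        have := Finset.card_le_card hsub
        rwa [Nat.card_Icc, Nat.add_sub_cancel] at this
      exact (Nat.cast_le.2 h1).trans (Nat.floor_le (by positivity))
    set b' : ℝ := 2 * T ^ 2 * (2 * X * g / √((N : ℝ) ^ 5) + 1) with hb'
    have step2 : (SG.card : ℝ) ≤ (Y₀.card : ℝ) * b' := by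
      apply fib_const SG (fun q => y1 q.2.1 q.2.2) Y₀
      · intro q hq
        exact Finset.mem_image_of_mem _ hq
      intro y hy
      obtain ⟨hy1, -, hy2⟩ := hY₀mem y hy
      have hinj : Set.InjOn (fun q : ℕ × ℤ × ℤ => q.2.1 / (g : ℤ))
          (↑(SG.filter (fun q => y1 q.2.1 q.2.2 = y)) : Set (ℕ × ℤ × ℤ)) := by
        intro q hq q' hq' heq
        rw [Finset.mem_coe, Finset.mem_filter] at hq hq'
        obtain ⟨⟨hsol, -⟩, hgg⟩ := hSGmem q hq.1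
        obtain ⟨⟨hsol', -⟩, hgg'⟩ := hSGmem q' hq'.1
        have hb := Exn_basic _ _ _ _ hsol
        have hb' := Exn_basic _ _ _ _ hsol'
        rw [hgg, hq.2] at hb
        rw [hgg', hq'.2] at hb'
        have heq' : q.2.1 / (g : ℤ) = q'.2.1 / (g : ℤ) := heq
        have ht : q.2.1 = q'.2.1 := by
          rw [← hb.2.2.2.1, ← hb'.2.2.2.1, heq']
        have hyy : q.2.2 = q'.2.2 := by
          rw [← hb.2.2.1, ← hb'.2.2.1]
        obtain ⟨-, -, hyq, heq1, -⟩ := hsol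
        obtain ⟨-, -, hyq', heq2, -⟩ := hsol'
        have hD' : (q.1 : ℤ) = q'.1 := by
          have h5 : (q.1 : ℤ) * q'.2.2 ^ 2 = (q'.1 : ℤ) * q'.2.2 ^ 2 := by
            rw [hyy, ht] at heq1
            linarith
          exact mul_right_cancel₀ (pow_ne_zero 2 (by omega)) h5
        exact Prod.ext (by exact_mod_cast hD') (Prod.ext ht hyy)
      rw [← Finset.card_image_of_injOn hinj]
      have hτ : ((y ^ 2).divisors.card : ℝ) ≤ T := by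
        apply hTd _ (Nat.one_le_pow _ _ hy1)
        omega
      refine (small1 N g y X' hN hg1 hy1 _ ?_).trans ?_
      · intro t ht
        rw [Finset.mem_image] at ht
        obtain ⟨q, hq, rfl⟩ := ht
        rw [Finset.mem_filter] at hq
        obtain ⟨⟨hsol, -, hX2, -⟩, hgg⟩ := hSGmem q hq.1
        have hb := Exn_basic _ _ _ _ hsol
        rw [hgg, hq.2] at hb
        refine ⟨hb.2.2.2.2.1, q.1, by rw [hX']; exact Nat.le_floor hX2, ?_⟩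
        obtain ⟨-, -, hyq, heq1, -⟩ := hsol
        rw [← heq1]
        conv_rhs => rw [← hb.2.2.1, ← hb.2.2.2.1]
        ring
      · rw [hb']
        have h1 : (X' : ℝ) * g / √((N : ℝ) ^ 5) + 1 ≤ 2 * X * g / √((N : ℝ) ^ 5) + 1 := by
          have h2 : (X' : ℝ) * g ≤ 2 * X * g := mul_le_mul_of_nonneg_right hX'R hgR.le
          have h3 := div_le_div_of_nonneg_right h2 hs5.le
          linarith
        apply mul_le_mul _ h1 (by positivity) (by positivity)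
        apply mul_le_mul_of_nonneg_left _ (by norm_num)
        exact pow_le_pow_left₀ (by positivity) hτ 2
    refine step2.trans ?_
    have hb'0 : 0 ≤ b' := by positivity
    calc (Y₀.card : ℝ) * b' ≤ (2 * √((N : ℝ) ^ 5) / (g * √X)) * b' :=
          mul_le_mul_of_nonneg_right hYa hb'0
      _ = 8 * T ^ 2 * (X / √X) + 4 * T ^ 2 * (√((N : ℝ) ^ 5) / (g * √X)) := by
          rw [hb']
          field_simp
          ring
      _ = 8 * T ^ 2 * √X + 4 * T ^ 2 * (√((N : ℝ) ^ 5) / (g * √X)) := by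
          rw [Real.div_sqrt]
      _ ≤ 8 * T ^ 2 * √X + 8 * T ^ 2 * (√((N : ℝ) ^ 5) / (g0 * √X)) := by
          have h1 : √((N : ℝ) ^ 5) / (g * √X) ≤ √((N : ℝ) ^ 5) / (g0 * √X) := by
            apply div_le_div_of_nonneg_left hs5.le (by positivity)
            exact mul_le_mul_of_nonneg_right hgg0 hsX.le
          have h2 : 0 ≤ √((N : ℝ) ^ 5) / (g0 * √X) := by positivity
          have h3 : 4 * T ^ 2 * (√((N : ℝ) ^ 5) / (g * √X)) ≤ 8 * T ^ 2 * (√((N : ℝ) ^ 5) / (g0 * √X)) := by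
            apply mul_le_mul _ h1 (by positivity) (by positivity)
            nlinarith [sq_nonneg T]
          linarith
      _ = B := by
          rw [hB]
          ring
  calc (S.card : ℝ) ≤ ((4 * N ^ 5).divisors.card : ℝ) * B := step
    _ ≤ T * B := mul_le_mul_of_nonneg_right hcard hB0
    _ = 8 * T ^ 3 * (√X + √((N : ℝ) ^ 5) / (g0 * √X)) := by
        rw [hB]
        ring

end Pool.Agent.PP5F
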